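import Mathlib

/-! Convex geometry: integral matrices preserving a closed convex cone on which some linear form is
positive. -/

open scoped Topology
open Set Metric

noncomputable section

namespace Pool.Agent.W669.Cone

variable {m : ℕ}

/-- a determinant bound with row dependent bounds of the entries -/
lemma det_bound {W : Matrix (Fin m) (Fin m) ℝ} {a : Fin m → ℝ}
    (h : ∀ i k, |W i k| ≤ a i) : |W.det| ≤ (Nat.factorial m : ℝ) * ∏ i, a i := by
  rw [Matrix.det_apply]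
  refine (Finset.abs_sum_le_sum_abs _ _).trans ?_
  have h1 : ∀ σ ∈ (Finset.univ : Finset (Equiv.Perm (Fin m))),
      |(Equiv.Perm.sign σ) • ∏ i, W (σ i) i| ≤ ∏ i, a i := by
    intro σ _
    have e1 : |(Equiv.Perm.sign σ) • ∏ i, W (σ i) i| = ∏ i, |W (σ i) i| := by
      rw [← Finset.abs_prod]
      rcases Int.units_eq_one_or (Equiv.Perm.sign σ) with h0 | h0
      · rw [h0, one_smul]
      · rw [h0, Units.neg_smul, one_smul, abs_neg]
    rw [e1, ← Equiv.prod_comp σ a]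
    exact Finset.prod_le_prod (fun i _ => abs_nonneg _) fun i _ => h (σ i) i
  refine (Finset.sum_le_sum h1).trans ?_
  rw [Finset.sum_const, Finset.card_univ, Fintype.card_perm, Fintype.card_fin, nsmul_eq_mul]

lemma prod_one_row (j : Fin m) (s n : ℝ) :
    ∏ i, (if i = j then s else n) = s * n ^ (m - 1) := by
  rw [← Finset.mul_prod_erase Finset.univ _ (Finset.mem_univ j), if_pos rfl]
  congr 1
  rw [Finset.prod_congr rfl (g := fun _ => n) fun i hi => if_neg (Finset.ne_of_mem_erase hi),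
    Finset.prod_const, Finset.card_erase_of_mem (Finset.mem_univ j), Finset.card_univ,
    Fintype.card_fin]

/-- the inequality behind the convexity of the sets `S` -/
lemma conv_ineq {n : ℕ} {c X X' Y Y' a b : ℝ} (hc : 0 < c)
    (hY : 0 ≤ Y) (hY' : 0 ≤ Y') (h : c ≤ X * Y ^ n) (h' : c ≤ X' * Y' ^ n) (ha : 0 ≤ a)
    (hb : 0 ≤ b) (hab : a + b = 1) : c ≤ (a * X + b * X') * (a * Y + b * Y') ^ n := by
  rcases Nat.eq_zero_or_pos n with hn | hn
  · subst hn
    simp only [pow_zero, mul_one] at h h' ⊢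
    calc c = a * c + b * c := by rw [← add_mul, hab, one_mul]
      _ ≤ a * X + b * X' :=
        add_le_add (mul_le_mul_of_nonneg_left h ha) (mul_le_mul_of_nonneg_left h' hb)
  · have hYp : 0 < Y := by
      rcases hY.eq_or_lt with h0 | h0
      · rw [← h0, zero_pow hn.ne', mul_zero] at h
        linarith
      · exact h0
    have hYp' : 0 < Y' := by
      rcases hY'.eq_or_lt with h0 | h0
      · rw [← h0, zero_pow hn.ne', mul_zero] at h'
        linarith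
      · exact h0
    have hZ : 0 < a * Y + b * Y' := by
      rcases ha.eq_or_lt with h0 | h0
      · rw [← h0, zero_add] at hab
        rw [← h0, hab]
        linarith
      · have := mul_pos h0 hYp
        have := mul_nonneg hb hY'
        linarith
    have hcv := (convexOn_zpow (𝕜 := ℝ) (-(n : ℤ))).2 (x := Y) hYp (y := Y') hYp' ha hb hab
    simp only [zpow_neg, zpow_natCast, smul_eq_mul] at hcv
    have h1 : c * (Y ^ n)⁻¹ ≤ X := by
      rw [← div_eq_mul_inv, div_le_iff₀ (pow_pos hYp n)]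
      exact h
    have h2 : c * (Y' ^ n)⁻¹ ≤ X' := by
      rw [← div_eq_mul_inv, div_le_iff₀ (pow_pos hYp' n)]
      exact h'
    have h3 : c * ((a * Y + b * Y') ^ n)⁻¹ ≤ a * X + b * X' := by
      calc c * ((a * Y + b * Y') ^ n)⁻¹ ≤ c * (a * (Y ^ n)⁻¹ + b * (Y' ^ n)⁻¹) :=
            mul_le_mul_of_nonneg_left hcv hc.le
        _ = a * (c * (Y ^ n)⁻¹) + b * (c * (Y' ^ n)⁻¹) := by ring
        _ ≤ a * X + b * X' :=
          add_le_add (mul_le_mul_of_nonneg_left h1 ha) (mul_le_mul_of_nonneg_left h2 hb)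
    rw [← div_eq_mul_inv, div_le_iff₀ (pow_pos hZ n)] at h3
    exact h3

/-- real version of an integral matrix, as a linear map -/
def lin (B : Matrix (Fin m) (Fin m) ℤ) : (Fin m → ℝ) →ₗ[ℝ] (Fin m → ℝ) :=
  Matrix.mulVecLin (B.map (Int.cast : ℤ → ℝ))

lemma lin_apply (B : Matrix (Fin m) (Fin m) ℤ) (v : Fin m → ℝ) :
    lin B v = (B.map (Int.cast : ℤ → ℝ)).mulVec v := rfl

section cone

variable (K : ConvexCone ℝ (Fin m → ℝ)) (ℓ : (Fin m → ℝ) →ₗ[ℝ] ℝ)

/-- `ℓ` is positive on the cone -/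
def Pos : Prop := ∀ κ ∈ K, κ ≠ 0 → 0 < ℓ κ

variable {K ℓ}

lemma Pos.nonneg (h : Pos K ℓ) {κ : Fin m → ℝ} (hκ : κ ∈ K) : 0 ≤ ℓ κ := by
  by_cases h0 : κ = 0
  · rw [h0, map_zero]
  · exact (h κ hκ h0).le

lemma Pos.exists_eta (h : Pos K ℓ) (hK : IsClosed (K : Set (Fin m → ℝ))) :
    ∃ η > (0:ℝ), ∀ κ ∈ K, η * ‖κ‖ ≤ ℓ κ := by
  have hc : Continuous ℓ := LinearMap.continuous_of_finiteDimensional ℓ
  have hcpt : IsCompact ((K : Set (Fin m → ℝ)) ∩ sphere 0 1) := (isCompact_sphere _ _).inter_left hK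
  rcases ((K : Set (Fin m → ℝ)) ∩ sphere 0 1).eq_empty_or_nonempty with he | hne
  · refine ⟨1, one_pos, fun κ hκ => ?_⟩
    by_cases h0 : κ = 0
    · rw [h0, norm_zero, map_zero, mul_zero]
    · exfalso
      have hn : 0 < ‖κ‖ := norm_pos_iff.2 h0
      have h1 : ‖κ‖⁻¹ • κ ∈ (K : Set (Fin m → ℝ)) ∩ sphere 0 1 :=
        ⟨K.smul_mem (inv_pos.2 hn) hκ, by
          rw [mem_sphere_zero_iff_norm, norm_smul, norm_inv, norm_norm, inv_mul_cancel₀ hn.ne']⟩
      rw [he] at h1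
      exact h1
  · obtain ⟨u, hu, hmin⟩ := hcpt.exists_isMinOn hne hc.continuousOn
    have hu0 : u ≠ 0 := by
      intro h0
      have := hu.2
      rw [h0, mem_sphere_zero_iff_norm, norm_zero] at this
      exact zero_ne_one this
    refine ⟨ℓ u, h u hu.1 hu0, fun κ hκ => ?_⟩
    by_cases h0 : κ = 0
    · rw [h0, norm_zero, map_zero, mul_zero]
    · have hn : 0 < ‖κ‖ := norm_pos_iff.2 h0
      have h1 : ‖κ‖⁻¹ • κ ∈ (K : Set (Fin m → ℝ)) ∩ sphere 0 1 :=
        ⟨K.smul_mem (inv_pos.2 hn) hκ, by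
          rw [mem_sphere_zero_iff_norm, norm_smul, norm_inv, norm_norm, inv_mul_cancel₀ hn.ne']⟩
      have h2 : ℓ u ≤ ℓ (‖κ‖⁻¹ • κ) := hmin h1
      rw [map_smul, smul_eq_mul, inv_mul_eq_div, le_div_iff₀ hn] at h2
      exact h2

lemma normal {η : ℝ} (hη : 0 < η) (h : ∀ κ ∈ K, η * ‖κ‖ ≤ ℓ κ) {a b : Fin m → ℝ}
    (h1 : a + b ∈ K) (h2 : a - b ∈ K) : η * ‖b‖ ≤ ℓ a := by
  have e : (2:ℝ) • b = (a + b) - (a - b) := by rw [two_smul]; abel
  have h3 : 2 * ‖b‖ ≤ ‖a + b‖ + ‖a - b‖ := by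
    have : ‖(2:ℝ) • b‖ = 2 * ‖b‖ := by rw [norm_smul]; norm_num
    rw [← this, e]
    exact norm_sub_le _ _
  have h4 := h _ h1
  have h5 := h _ h2
  rw [map_add] at h4
  rw [map_sub] at h5
  have h6 := mul_le_mul_of_nonneg_left h3 hη.le
  linarith

/-- `B` preserves the cone up to sign -/
def Pres (K : ConvexCone ℝ (Fin m → ℝ)) (σ : ℝ) (B : Matrix (Fin m) (Fin m) ℤ) : Prop :=
  ∀ u ∈ K, σ • lin B u ∈ K

/-- **The determinant estimate.** -/
lemma det_estimate {η : ℝ} (hη : 0 < η) (h : ∀ κ ∈ K, η * ‖κ‖ ≤ ℓ κ) {κ₁ : Fin m → ℝ} {r : ℝ}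
    (hr : 0 < r) (hball : closedBall κ₁ r ⊆ (K : Set (Fin m → ℝ)))
    {B : Matrix (Fin m) (Fin m) ℤ} (hdet : |((B.map (Int.cast : ℤ → ℝ)).det)| = 1) {σ : ℝ}
    (hσ : |σ| = 1) (hB : Pres K σ B) {ξ : Fin m → ℝ} (hξ : ∀ κ ∈ K, 0 ≤ ξ ⬝ᵥ κ) {j : Fin m}
    (hj : |ξ j| = 1) :
    r ^ m * η ^ (m - 1) / Nat.factorial m ≤ (ξ ⬝ᵥ (σ • lin B κ₁)) * (ℓ (σ • lin B κ₁)) ^ (m - 1) := by
  set κ₂ := σ • lin B κ₁ with hκ₂
  set U : Matrix (Fin m) (Fin m) ℝ := (σ * r) • B.map (Int.cast : ℤ → ℝ) with hU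
  have hcol : ∀ i : Fin m, (fun k => U k i) = σ • lin B (Pi.single i r) := by
    intro i
    ext k
    rw [lin_apply, Pi.smul_apply, Matrix.mulVec_single]
    simp only [hU, Matrix.smul_apply, smul_eq_mul, Matrix.map_apply, op_smul_eq_mul,
      Pi.smul_apply, Matrix.col_apply]
    ring
  have hmem : ∀ i : Fin m, κ₂ + (fun k => U k i) ∈ K ∧ κ₂ - (fun k => U k i) ∈ K := by
    intro i
    have hn : ‖(Pi.single i r : Fin m → ℝ)‖ = r := by
      rw [Pi.norm_single, Real.norm_eq_abs, abs_of_pos hr]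
    constructor
    · rw [hcol, hκ₂, ← smul_add, ← map_add]
      apply hB
      apply hball
      rw [mem_closedBall, dist_eq_norm, add_sub_cancel_left, hn]
    · rw [hcol, hκ₂, ← smul_sub, ← map_sub]
      apply hB
      apply hball
      rw [mem_closedBall, dist_eq_norm, sub_sub_cancel_left, norm_neg, hn]
  set n := ℓ κ₂ / η with hn
  set s := ξ ⬝ᵥ κ₂ with hs
  have hent : ∀ i k, |U i k| ≤ n := by
    intro i k
    have h1 := normal hη h (hmem k).1 (hmem k).2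
    have h2 : |U i k| ≤ ‖(fun k' => U k' k)‖ := by
      have := norm_le_pi_norm (fun k' => U k' k) i
      rwa [Real.norm_eq_abs] at this
    rw [hn, le_div_iff₀ hη]
    calc |U i k| * η ≤ ‖(fun k' => U k' k)‖ * η := mul_le_mul_of_nonneg_right h2 hη.le
      _ ≤ ℓ κ₂ := by rw [mul_comm]; exact h1
  have hrow : ∀ k, |∑ i, ξ i * U i k| ≤ s := by
    intro k
    have h1 := hξ _ (hmem k).1
    have h2 := hξ _ (hmem k).2
    rw [dotProduct_add] at h1
    rw [dotProduct_sub] at h2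
    have e : ξ ⬝ᵥ (fun k' => U k' k) = ∑ i, ξ i * U i k := rfl
    rw [e] at h1 h2
    rw [abs_le]
    constructor <;> linarith
  set W := U.updateRow j (∑ i, ξ i • U i) with hW
  have hWe : ∀ i k, |W i k| ≤ if i = j then s else n := by
    intro i k
    by_cases hij : i = j
    · subst hij
      rw [if_pos rfl, hW, Matrix.updateRow_self, Finset.sum_apply]
      exact hrow k
    · rw [if_neg hij, hW, Matrix.updateRow_ne hij]
      exact hent i k
  have h1 := det_bound hWe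
  rw [prod_one_row, hW, Matrix.det_updateRow_sum, smul_eq_mul, abs_mul, hj, one_mul, hU,
    Matrix.det_smul, abs_mul, hdet, mul_one, abs_pow, abs_mul, hσ, one_mul, abs_of_pos hr,
    Fintype.card_fin, hn, div_pow] at h1
  have hf : (0:ℝ) < Nat.factorial m := by exact_mod_cast Nat.factorial_pos m
  have hηp : 0 < η ^ (m - 1) := pow_pos hη _
  rw [div_le_iff₀ hf]
  calc r ^ m * η ^ (m - 1) ≤
      ((Nat.factorial m : ℝ) * (s * (ℓ κ₂ ^ (m - 1) / η ^ (m - 1)))) * η ^ (m - 1) :=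
        mul_le_mul_of_nonneg_right h1 hηp.le
    _ = s * ℓ κ₂ ^ (m - 1) * (Nat.factorial m) := by field_simp

/-- the closed convex set of the linking argument -/
def SS (K : ConvexCone ℝ (Fin m → ℝ)) (ℓ : (Fin m → ℝ) →ₗ[ℝ] ℝ) (c : ℝ) : Set (Fin m → ℝ) :=
  {κ | κ ∈ K ∧ ∀ ξ : Fin m → ℝ, (∀ u ∈ K, 0 ≤ ξ ⬝ᵥ u) → ∀ j, |ξ j| = 1 →
    c ≤ (ξ ⬝ᵥ κ) * (ℓ κ) ^ (m - 1)}

lemma convex_SS (h : Pos K ℓ) {c : ℝ} (hc : 0 < c) : Convex ℝ (SS K ℓ c) := by
  intro u hu v hv a b ha hb hab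
  refine ⟨K.convex hu.1 hv.1 ha hb hab, fun ξ hξ j hj => ?_⟩
  rw [dotProduct_add, dotProduct_smul, dotProduct_smul, map_add, map_smul, map_smul]
  exact conv_ineq hc (h.nonneg hu.1) (h.nonneg hv.1)
    (hu.2 ξ hξ j hj) (hv.2 ξ hξ j hj) ha hb hab

lemma closed_SS (hK : IsClosed (K : Set (Fin m → ℝ))) (c : ℝ) : IsClosed (SS K ℓ c) := by
  have hc : Continuous ℓ := LinearMap.continuous_of_finiteDimensional ℓ
  have : SS K ℓ c = (K : Set (Fin m → ℝ)) ∩ ⋂ (ξ : Fin m → ℝ) (_ : ∀ u ∈ K, 0 ≤ ξ ⬝ᵥ u)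
      (j : Fin m) (_ : |ξ j| = 1), {κ | c ≤ (ξ ⬝ᵥ κ) * (ℓ κ) ^ (m - 1)} := by
    ext κ
    simp only [SS, mem_ofPred_eq, mem_inter_iff, SetLike.mem_coe, mem_iInter]
  rw [this]
  refine hK.inter (isClosed_iInter fun ξ => isClosed_iInter fun _ => isClosed_iInter fun j =>
    isClosed_iInter fun _ => ?_)
  refine isClosed_le continuous_const (Continuous.mul ?_ (hc.pow _))
  unfold dotProduct
  fun_prop

lemma add_mem_SS (h : Pos K ℓ) {c : ℝ} {κ u : Fin m → ℝ} (hκ : κ ∈ SS K ℓ c) (hu : u ∈ K) :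
    κ + u ∈ SS K ℓ c := by
  refine ⟨K.add_mem hκ.1 hu, fun ξ hξ j hj => (hκ.2 ξ hξ j hj).trans ?_⟩
  rw [dotProduct_add, map_add]
  have h1 := hξ κ hκ.1
  have h2 := hξ u hu
  have h3 := h.nonneg hκ.1
  have h4 := h.nonneg hu
  exact mul_le_mul (by linarith) (pow_le_pow_left₀ h3 (by linarith) _) (pow_nonneg h3 _)
    (by linarith)

lemma smul_mem_interior {t : ℝ} (ht : 0 < t) {a : Fin m → ℝ}
    (ha : a ∈ interior (K : Set (Fin m → ℝ))) : t • a ∈ interior (K : Set (Fin m → ℝ)) := by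
  rw [mem_interior_iff_mem_nhds, Metric.mem_nhds_iff] at ha ⊢
  obtain ⟨ρ, hρ, h⟩ := ha
  refine ⟨t * ρ, mul_pos ht hρ, fun u hu => ?_⟩
  have h1 : t⁻¹ • u ∈ (K : Set (Fin m → ℝ)) := by
    apply h
    rw [mem_ball, dist_eq_norm] at hu ⊢
    have e : t⁻¹ • u - a = t⁻¹ • (u - t • a) := by
      rw [smul_sub, smul_smul, inv_mul_cancel₀ ht.ne', one_smul]
    rw [e, norm_smul, norm_inv, Real.norm_eq_abs, abs_of_pos ht, inv_mul_lt_iff₀ ht]
    exact hu
  have h2 := K.smul_mem ht h1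
  rwa [smul_smul, mul_inv_cancel₀ ht.ne', one_smul] at h2

lemma SS_subset_interior (h : Pos K ℓ) (hne : (interior (K : Set (Fin m → ℝ))).Nonempty) {c : ℝ}
    (hc : 0 < c) : SS K ℓ c ⊆ interior (K : Set (Fin m → ℝ)) := by
  intro κ hκ
  by_contra hni
  obtain ⟨f, hf⟩ := geometric_hahn_banach_open_point (K.convex.interior) isOpen_interior hni
  obtain ⟨a₀, ha₀⟩ := hne
  have hle : ∀ a ∈ interior (K : Set (Fin m → ℝ)), f a ≤ 0 := by
    intro a ha
    by_contra hlt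
    push Not at hlt
    obtain ⟨t, ht, ht2⟩ : ∃ t : ℝ, 0 < t ∧ f κ < t * f a := by
      refine ⟨(|f κ| + 1) / f a, div_pos (by positivity) hlt, ?_⟩
      rw [div_mul_cancel₀ _ hlt.ne']
      linarith [le_abs_self (f κ)]
    have h1 := hf _ (smul_mem_interior ht ha)
    rw [map_smul, smul_eq_mul] at h1
    linarith
  have hκ0 : 0 ≤ f κ := by
    by_contra hlt
    push Not at hlt
    have h0 : f a₀ < 0 := (hf _ ha₀).trans hlt
    have ht : 0 < f κ / f a₀ / 2 := by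
      apply div_pos (div_pos_of_neg_of_neg hlt h0) two_pos
    have h1 := hf _ (smul_mem_interior ht ha₀)
    rw [map_smul, smul_eq_mul] at h1
    have h2 : f κ / f a₀ / 2 * f a₀ = f κ / 2 := by
      have := h0.ne
      field_simp
    rw [h2] at h1
    linarith
  have hall : ∀ u ∈ K, f u ≤ 0 := by
    intro u hu
    have h1 : ∀ t : ℝ, 0 < t → u + t • a₀ ∈ interior (K : Set (Fin m → ℝ)) := by
      intro t ht
      have h2 := smul_mem_interior ht ha₀
      rw [mem_interior_iff_mem_nhds, Metric.mem_nhds_iff] at h2 ⊢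
      obtain ⟨ρ, hρ, h3⟩ := h2
      refine ⟨ρ, hρ, fun w hw => ?_⟩
      have h4 : w - u ∈ (K : Set (Fin m → ℝ)) := by
        apply h3
        rw [mem_ball, dist_eq_norm] at hw ⊢
        have e : w - u - t • a₀ = w - (u + t • a₀) := by abel
        rwa [e]
      have h5 := K.add_mem hu h4
      have e : u + (w - u) = w := by abel
      rwa [e] at h5
    by_contra hlt
    push Not at hlt
    have hb := hle _ ha₀
    obtain ⟨t, ht, ht2⟩ : ∃ t : ℝ, 0 < t ∧ 0 < f u + t * f a₀ := by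
      refine ⟨f u / (2 * (|f a₀| + 1)), by positivity, ?_⟩
      have h3 : f u / (2 * (|f a₀| + 1)) * f a₀ ≥ - (f u / 2) := by
        have h4 : f u / (2 * (|f a₀| + 1)) * f a₀ ≥ f u / (2 * (|f a₀| + 1)) * (-(|f a₀| + 1)) := by
          apply mul_le_mul_of_nonneg_left _ (by positivity)
          linarith [neg_abs_le (f a₀)]
        have h5 : f u / (2 * (|f a₀| + 1)) * (-(|f a₀| + 1)) = -(f u / 2) := by
          have : (|f a₀| + 1) ≠ 0 := by positivity
          field_simp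
        linarith
      linarith
    have h3 := hle _ (h1 t ht)
    rw [map_add, map_smul, smul_eq_mul] at h3
    linarith
  -- the covector
  set ξ : Fin m → ℝ := fun i => - f (Pi.single i 1) with hξ
  have hdot : ∀ u, ξ ⬝ᵥ u = - f u := by
    intro u
    have h1 : u = ∑ i, u i • (Pi.single i (1:ℝ) : Fin m → ℝ) := by
      ext k
      simp [Finset.sum_apply, Pi.single_apply]
    conv_rhs => rw [h1]
    rw [map_sum, ← Finset.sum_neg_distrib]
    refine Finset.sum_congr rfl fun i _ => ?_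
    rw [map_smul, smul_eq_mul, hξ]
    ring
  obtain ⟨j, hj⟩ : ∃ j, ξ j ≠ 0 := by
    by_contra hz
    push Not at hz
    have h1 := hdot a₀
    have h2 := hdot κ
    have h3 : ξ = 0 := funext hz
    rw [h3, zero_dotProduct] at h1 h2
    have h4 := hf _ ha₀
    linarith
  have hjp : 0 < |ξ j| := abs_pos.2 hj
  have h1 := hκ.2 (|ξ j|⁻¹ • ξ) (fun u hu => by
    rw [smul_dotProduct, hdot, smul_eq_mul]
    exact mul_nonneg (inv_nonneg.2 hjp.le) (by linarith [hall u hu])) j (by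
      rw [Pi.smul_apply, smul_eq_mul, abs_mul, abs_inv, abs_abs, inv_mul_cancel₀ hjp.ne'])
  rw [smul_dotProduct, hdot, smul_eq_mul] at h1
  have h2 : |ξ j|⁻¹ * -f κ * ℓ κ ^ (m - 1) ≤ 0 := by
    apply mul_nonpos_of_nonpos_of_nonneg
    · exact mul_nonpos_of_nonneg_of_nonpos (inv_nonneg.2 hjp.le) (by linarith)
    · exact pow_nonneg (h.nonneg hκ.1) _
  linarith

/-- domination -/
lemma dominate (h : Pos K ℓ) (hK : IsClosed (K : Set (Fin m → ℝ))) {κ : Fin m → ℝ}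
    (hκ : κ ∈ interior (K : Set (Fin m → ℝ))) :
    ∃ C > (0:ℝ), ∀ (B : Matrix (Fin m) (Fin m) ℤ) (σ : ℝ), |σ| = 1 → Pres K σ B →
      ∀ v, ‖lin B v‖ ≤ C * ‖v‖ * ‖lin B κ‖ := by
  obtain ⟨η, hη, hηK⟩ := h.exists_eta hK
  rw [mem_interior_iff_mem_nhds, Metric.nhds_basis_closedBall.mem_iff] at hκ
  obtain ⟨r, hr, hball⟩ := hκ
  obtain ⟨Cℓ, hCℓ, hℓ⟩ : ∃ Cℓ > (0:ℝ), ∀ v, |ℓ v| ≤ Cℓ * ‖v‖ := by
    set L : (Fin m → ℝ) →L[ℝ] ℝ := LinearMap.toContinuousLinearMap ℓ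
    refine ⟨‖L‖ + 1, by positivity, fun v => ?_⟩
    have h1 : |ℓ v| ≤ ‖L‖ * ‖v‖ := L.le_opNorm v
    nlinarith [norm_nonneg v]
  refine ⟨Cℓ / (η * r), by positivity, fun B σ hσ hB v => ?_⟩
  by_cases hv : v = 0
  · rw [hv, map_zero, norm_zero, mul_zero, zero_mul]
  · have hn : 0 < ‖v‖ := norm_pos_iff.2 hv
    set u := (r / ‖v‖) • v with hu
    have hun : ‖u‖ = r := by
      rw [hu, norm_smul, norm_div, norm_norm, Real.norm_eq_abs, abs_of_pos hr,
        div_mul_cancel₀ _ hn.ne']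
    have h1 : σ • lin B κ + σ • lin B u ∈ K := by
      rw [← smul_add, ← map_add]
      apply hB
      apply hball
      rw [mem_closedBall, dist_eq_norm, add_sub_cancel_left, hun]
    have h2 : σ • lin B κ - σ • lin B u ∈ K := by
      rw [← smul_sub, ← map_sub]
      apply hB
      apply hball
      rw [mem_closedBall, dist_eq_norm, sub_sub_cancel_left, norm_neg, hun]
    have h3 := normal hη hηK h1 h2
    have e1 : ‖σ • lin B u‖ = r / ‖v‖ * ‖lin B v‖ := by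
      rw [norm_smul, Real.norm_eq_abs, hσ, one_mul, hu, map_smul, norm_smul, Real.norm_eq_abs,
        abs_of_pos (div_pos hr hn)]
    have e2 : ℓ (σ • lin B κ) ≤ Cℓ * ‖lin B κ‖ := by
      refine (le_abs_self _).trans ((hℓ _).trans ?_)
      rw [norm_smul, Real.norm_eq_abs, hσ, one_mul]
    rw [e1] at h3
    have h4 : η * (r / ‖v‖ * ‖lin B v‖) ≤ Cℓ * ‖lin B κ‖ := h3.trans e2
    have h5 : ‖lin B v‖ = (η * (r / ‖v‖ * ‖lin B v‖)) * (‖v‖ / (η * r)) := by
      field_simp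
    rw [h5]
    calc _ ≤ (Cℓ * ‖lin B κ‖) * (‖v‖ / (η * r)) :=
          mul_le_mul_of_nonneg_right h4 (by positivity)
      _ = _ := by ring

end cone

/-- rational approximation -/
lemma exists_approx {κ : Fin m → ℝ} (hκ : κ ≠ 0) {δ : ℝ} (hδ : 0 < δ) :
    ∃ (k : Fin m → ℤ) (t : ℝ), k ≠ 0 ∧ 0 < t ∧ ‖t • (fun i => (k i : ℝ)) - κ‖ ≤ δ := by
  have hn : 0 < ‖κ‖ := norm_pos_iff.2 hκ
  set t := min δ (‖κ‖ / 2) with ht
  have ht0 : 0 < t := lt_min hδ (by positivity)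
  have hb : ‖t • (fun i => ((⌊κ i / t⌋ : ℤ) : ℝ)) - κ‖ ≤ t := by
    rw [pi_norm_le_iff_of_nonneg ht0.le]
    intro i
    rw [Pi.sub_apply, Pi.smul_apply, smul_eq_mul, Real.norm_eq_abs]
    have h1 := Int.floor_le (κ i / t)
    have h2 := Int.lt_floor_add_one (κ i / t)
    rw [le_div_iff₀ ht0] at h1
    rw [div_lt_iff₀ ht0] at h2
    rw [abs_le]
    constructor
    · nlinarith
    · nlinarith
  refine ⟨fun i => ⌊κ i / t⌋, t, ?_, ht0, hb.trans (min_le_left _ _)⟩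
  intro h0
  have h1 : (fun i => ((⌊κ i / t⌋ : ℤ) : ℝ)) = (0 : Fin m → ℝ) := by
    ext i
    have := congrFun h0 i
    simp only [Pi.zero_apply] at this
    rw [this]
    simp
  rw [h1, smul_zero, zero_sub, norm_neg] at hb
  have h2 : t ≤ ‖κ‖ / 2 := min_le_right _ _
  linarith

end Pool.Agent.W669.Cone
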