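import Mathlib
import Pool.Agent.H826R2.Wein.Frame
import Pool.Agent.H826R2.Wein.Rank2

/-! A linking criterion: critical points of integral contact Hamiltonians from closed convex sets of
uniformly approximable parameters. -/

open scoped Topology ContDiff Manifold
open Set Metric Bundle Filter Pool.Agent.Helper186

noncomputable section

namespace Pool.Agent.W669.Cone

open Pool.Agent.H826R2.Wein

section retract

variable {N : ℕ}

/-- the radial retraction onto a convex set with the point `s₀` in its interior -/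
def retr (S : Set (Fin N → ℝ)) (s₀ : Fin N → ℝ) (p : Fin N → ℝ) : Fin N → ℝ :=
  s₀ + (max 1 (gauge ((fun v => v - s₀) '' S) (p - s₀)))⁻¹ • (p - s₀)

lemma image_eq (S : Set (Fin N → ℝ)) (s₀ : Fin N → ℝ) (v : Fin N → ℝ) :
    v ∈ (fun v => v - s₀) '' S ↔ v + s₀ ∈ S := by
  constructor
  · rintro ⟨w, hw, rfl⟩
    simpa using hw
  · intro h
    exact ⟨v + s₀, h, by simp⟩

lemma conv_image {S : Set (Fin N → ℝ)} (hS : Convex ℝ S) (s₀ : Fin N → ℝ) :
    Convex ℝ ((fun v => v - s₀) '' S) := by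
  intro u hu v hv a b ha hb hab
  rw [image_eq] at hu hv ⊢
  have h := hS hu hv ha hb hab
  have e : a • (u + s₀) + b • (v + s₀) = a • u + b • v + s₀ := by
    have : a • s₀ + b • s₀ = s₀ := by rw [← add_smul, hab, one_smul]
    calc a • (u + s₀) + b • (v + s₀) = a • u + b • v + (a • s₀ + b • s₀) := by
          simp only [smul_add]; abel
      _ = _ := by rw [this]
  rwa [e] at h

lemma closed_image {S : Set (Fin N → ℝ)} (hS : IsClosed S) (s₀ : Fin N → ℝ) :
    IsClosed ((fun v => v - s₀) '' S) := by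
  have : (fun v => v - s₀) '' S = (fun v => v + s₀) ⁻¹' S := by
    ext v
    exact image_eq S s₀ v
  rw [this]
  exact hS.preimage (by fun_prop)

lemma nhds_image {S : Set (Fin N → ℝ)} {s₀ : Fin N → ℝ} (h : S ∈ 𝓝 s₀) :
    (fun v => v - s₀) '' S ∈ 𝓝 (0 : Fin N → ℝ) := by
  have : (fun v => v - s₀) '' S = (fun v => v + s₀) ⁻¹' S := by
    ext v
    exact image_eq S s₀ v
  rw [this]
  have hc : ContinuousAt (fun v : Fin N → ℝ => v + s₀) 0 := by fun_prop
  apply hc
  simpa using h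

lemma continuous_retr {S : Set (Fin N → ℝ)} (hS : Convex ℝ S) {s₀ : Fin N → ℝ}
    (h : S ∈ 𝓝 s₀) : Continuous (retr S s₀) := by
  have h1 : Continuous (gauge ((fun v => v - s₀) '' S)) :=
    continuous_gauge (conv_image hS s₀) (nhds_image h)
  have h2 : Continuous (fun p : Fin N → ℝ => max 1 (gauge ((fun v => v - s₀) '' S) (p - s₀))) :=
    continuous_const.max (h1.comp (by fun_prop))
  unfold retr
  refine continuous_const.add (Continuous.smul (h2.inv₀ fun p => ?_) (by fun_prop))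
  exact (zero_lt_one.trans_le (le_max_left _ _)).ne'

lemma retr_mem {S : Set (Fin N → ℝ)} (hS : Convex ℝ S) (hSc : IsClosed S) {s₀ : Fin N → ℝ}
    (h : S ∈ 𝓝 s₀) (p : Fin N → ℝ) : retr S s₀ p ∈ S := by
  have hn := nhds_image h
  have hc := conv_image hS s₀
  have hcl := closed_image hSc s₀
  set T := (fun v => v - s₀) '' S with hT
  have h0 : (0 : Fin N → ℝ) ∈ T := mem_of_mem_nhds hn
  have ht : 0 < max 1 (gauge T (p - s₀)) := zero_lt_one.trans_le (le_max_left _ _)
  have h1 : (max 1 (gauge T (p - s₀)))⁻¹ • (p - s₀) ∈ T := by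
    have h2 : gauge T ((max 1 (gauge T (p - s₀)))⁻¹ • (p - s₀)) ≤ 1 := by
      rw [gauge_smul_of_nonneg (inv_nonneg.2 ht.le)]
      rw [smul_eq_mul, inv_mul_le_iff₀ ht, mul_one]
      exact le_max_right _ _
    have habs : Absorbent ℝ T := absorbent_nhds_zero hn
    have h3 := gauge_le_one_iff_mem_closure hc hn (x := (max 1 (gauge T (p - s₀)))⁻¹ • (p - s₀))
    rw [hcl.closure_eq] at h3
    exact h3.1 h2
  have h4 := (image_eq S s₀ _).1 h1
  rw [add_comm] at h4
  exact h4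

lemma retr_of_mem {S : Set (Fin N → ℝ)} {s₀ : Fin N → ℝ}
    {p : Fin N → ℝ} (hp : p ∈ S) : retr S s₀ p = p := by
  have h1 : gauge ((fun v => v - s₀) '' S) (p - s₀) ≤ 1 :=
    gauge_le_one_of_mem ⟨p, hp, rfl⟩
  unfold retr
  rw [max_eq_left h1]
  simp

end retract

variable {E : Type*} [NormedAddCommGroup E] [NormedSpace ℝ E] [FiniteDimensional ℝ E]
  {P : Type*} [TopologicalSpace P] [ChartedSpace E P] [IsManifold 𝓘(ℝ, E) ∞ P]
  {β : (x : P) → TangentSpace 𝓘(ℝ, E) x →L[ℝ] ℝ} {m : ℕ}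
  (A : TAct β m) {n : ℕ} {ι : Imm (E := E) P n} {Γ : Type*} [Group Γ] [MulAction Γ P]

/-- **Linking criterion.** -/
theorem exists_crit_of_convex [T2Space P] [SigmaCompactSpace P] (hc : IsContact β)
    {R : (x : P) → TangentSpace 𝓘(ℝ, E) x} (hR : IsReeb β R) (𝒟 : Deck ι Γ) (hN : A.Norm Γ)
    {N : ℕ} (j : (Fin N → ℝ) →ₗ[ℝ] (Fin m → ℝ)) {S : Set (Fin N → ℝ)} (hS : Convex ℝ S)
    (hSc : IsClosed S) {s₀ : Fin N → ℝ} (hs₀ : S ∈ 𝓝 s₀)
    (happ : ∀ s ∈ S, ∀ ε : ℝ, 0 < ε → ∃ (k : Fin m → ℤ) (t : ℝ), k ≠ 0 ∧ 0 < t ∧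
      ∀ y, A.Q ι (t • TAct.rv k - j s) y ≤ ε ^ 2 * A.Q ι (j s) y)
    {c : ℝ} (hmeet : ∀ y, ∃ s ∈ S, A.H (j s) y < c)
    (x : P) {η : ℝ} (hη : 0 < η) (hpos : ∀ s ∈ S, η * ‖s‖ ≤ A.H (j s) x) :
    ∃ k : Fin m → ℤ, k ≠ 0 ∧ ∃ x, dForm 𝓘(ℝ, E) (A.H (TAct.rv k)) x = 0 := by
  by_contra hno
  push Not at hno
  have hβ := hc.smooth
  have hjc : Continuous j := LinearMap.continuous_of_finiteDimensional j
  have hrc := continuous_retr hS hs₀
  -- the selection
  have : LocallyCompactSpace P := ChartedSpace.locallyCompactSpace E P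
  obtain ⟨L, hL⟩ : ∃ L : C(P, Fin N → ℝ), ∀ y, L y ∈ {s | s ∈ S ∧ A.H (j s) y < c} := by
    apply exists_continuous_forall_mem_convex_of_local_const
    · intro y u hu v hv a b ha hb hab
      refine ⟨hS hu.1 hv.1 ha hb hab, ?_⟩
      rw [map_add, map_smul, map_smul, A.H_add, A.H_smul, A.H_smul]
      rcases ha.eq_or_lt with h0 | h0
      · rw [← h0] at hab ⊢
        rw [zero_add] at hab
        rw [hab, zero_mul, zero_add, one_mul]
        exact hv.2
      · have h1 : a * A.H (j u) y < a * c := mul_lt_mul_of_pos_left hu.2 h0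
        have h2 : b * A.H (j v) y ≤ b * c := mul_le_mul_of_nonneg_left hv.2.le hb
        have h3 : a * c + b * c = c := by rw [← add_mul, hab, one_mul]
        linarith
    · intro y
      obtain ⟨s, hs, hsy⟩ := hmeet y
      refine ⟨s, ?_⟩
      have h1 : Continuous (A.H (j s)) := (A.smooth_H hβ _).continuous
      filter_upwards [h1.continuousAt.eventually (gt_mem_nhds hsy)] with z hz
      exact ⟨hs, hz⟩
  set Φ : (Fin N → ℝ) × P → ℝ := fun q =>
    A.H (j (retr S s₀ q.1)) q.2 + ‖q.1 - retr S s₀ q.1‖ with hΦdef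
  have hΦ : Continuous Φ := by
    have h1 : Continuous (fun q : (Fin N → ℝ) × P => A.H (j (retr S s₀ q.1)) q.2) :=
      (A.continuous_H hβ).comp (continuous_snd.prodMk (hjc.comp (hrc.comp continuous_fst)))
    exact h1.add ((continuous_fst.sub (hrc.comp continuous_fst)).norm)
  refine Link.linking (Φ := Φ) hΦ ?_ x ?_ (L := fun y => L y) L.continuous (c := c) ?_
  · -- pushing
    intro p d d' hdd
    set v := j (retr S s₀ p) with hv
    set b := ‖p - retr S s₀ p‖ with hb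
    obtain ⟨ε, hε, h⟩ := A.nearPush (ι := ι) hβ v (c := d - b) (c' := d' - b) (by linarith)
    obtain ⟨k, t, hk, ht, hkt⟩ := happ _ (retr_mem hS hSc hs₀ p) ε hε
    obtain ⟨g, hg, hg0, hg1, hg2⟩ := h (t • TAct.rv k) hkt
      (A.exists_gflow_smul hc hR 𝒟 hN hno k hk ht)
    have hΦe : ∀ y, Φ (p, y) = A.H v y + b := fun y => rfl
    refine ⟨g, hg, hg0, ?_, ?_⟩
    · intro y hy s hs
      rw [hΦe] at hy ⊢
      have := hg1 y (by linarith) s hs
      linarith
    · intro K hK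
      obtain ⟨T, hT, h2⟩ := hg2 K hK
      refine ⟨T, hT, fun y hy => ?_⟩
      rw [hΦe]
      have := h2 y hy
      linarith
  · -- properness
    have key : ∀ p : Fin N → ℝ, min η 1 * ‖p‖ ≤ Φ (p, x) := by
      intro p
      have h1 : ‖p‖ ≤ ‖retr S s₀ p‖ + ‖p - retr S s₀ p‖ := by
        have := norm_add_le (retr S s₀ p) (p - retr S s₀ p)
        rwa [add_sub_cancel] at this
      have h2 := hpos _ (retr_mem hS hSc hs₀ p)
      have h3 : min η 1 * ‖retr S s₀ p‖ ≤ η * ‖retr S s₀ p‖ :=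
        mul_le_mul_of_nonneg_right (min_le_left _ _) (norm_nonneg _)
      have h4 : min η 1 * ‖p - retr S s₀ p‖ ≤ 1 * ‖p - retr S s₀ p‖ :=
        mul_le_mul_of_nonneg_right (min_le_right _ _) (norm_nonneg _)
      have h5 : (0:ℝ) ≤ min η 1 := le_min hη.le zero_le_one
      have h6 : min η 1 * ‖p‖ ≤ min η 1 * (‖retr S s₀ p‖ + ‖p - retr S s₀ p‖) :=
        mul_le_mul_of_nonneg_left h1 h5
      show _ ≤ A.H (j (retr S s₀ p)) x + ‖p - retr S s₀ p‖
      linarith
    refine tendsto_atTop_mono key ?_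
    exact (tendsto_norm_cocompact_atTop (E := Fin N → ℝ)).const_mul_atTop (lt_min hη one_pos)
  · -- the bound
    intro y
    have h1 := hL y
    show A.H (j (retr S s₀ (L y))) y + ‖L y - retr S s₀ (L y)‖ ≤ c
    rw [retr_of_mem h1.1, sub_self, norm_zero, add_zero]
    exact h1.2.le

end Pool.Agent.W669.Cone
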