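import Mathlib
import Pool.Agent.W669.Cone.Crit
import Pool.Agent.W669.Cone.Conv
import Pool.Agent.H826R2.Wein.NFGeo
import Pool.Agent.H826R2.Wein.Bridge
import Pool.Agent.H826R2.Wein.Main4

/-! Closed Reeb orbits for contact forms with a local torus symmetry of any rank whose monodromy
preserves a convex cone. -/

open scoped Topology ContDiff Manifold
open Set Metric Bundle Filter Pool.Agent.Helper186

noncomputable section

namespace Pool.Agent.W669.Cone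

open Pool.Agent.H826R2.Wein

section

variable {E : Type*} [NormedAddCommGroup E] [NormedSpace ℝ E] [FiniteDimensional ℝ E]
  {P : Type*} [TopologicalSpace P] [ChartedSpace E P] [IsManifold 𝓘(ℝ, E) ∞ P]
  {β : (x : P) → TangentSpace 𝓘(ℝ, E) x →L[ℝ] ℝ} {m : ℕ}
  (A : TAct β m) {n : ℕ} {ι : Imm (E := E) P n} {Γ : Type*} [Group Γ] [MulAction Γ P]

/-- **Critical points, monodromy preserving a cone.** -/
theorem exists_crit_cone [T2Space P] [SigmaCompactSpace P] (hc : IsContact β)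
    {R : (x : P) → TangentSpace 𝓘(ℝ, E) x} (hR : IsReeb β R) (𝒟 : Deck ι Γ) (hN : A.Norm Γ)
    (hm : 0 < m) (K : ConvexCone ℝ (Fin m → ℝ)) (hK : IsClosed (K : Set (Fin m → ℝ)))
    (hKi : (interior (K : Set (Fin m → ℝ))).Nonempty)
    (hpres : ∀ γ : Γ, ∃ B : Matrix (Fin m) (Fin m) ℤ,
      (∀ (κ : Fin m → ℝ) (x : P), A.H (lin B κ) (γ • x) = A.H κ x) ∧
      ((∀ u ∈ K, lin B u ∈ K) ∨ (∀ u ∈ K, - lin B u ∈ K)))
    (x : P) (hx : ∀ κ ∈ K, κ ≠ 0 → 0 < A.H κ x) :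
    ∃ k : Fin m → ℤ, k ≠ 0 ∧ ∃ x, dForm 𝓘(ℝ, E) (A.H (TAct.rv k)) x = 0 := by
  have : Nonempty P := ⟨x⟩
  obtain ⟨B, hB⟩ := A.exists_monodromy hc hR 𝒟 hN
  have hB' : ∀ (γ : Γ) (κ : Fin m → ℝ) (x : P), A.H (lin (B γ) κ) (γ • x) = A.H κ x := hB
  -- the sign
  have hsg : ∀ γ : Γ, ∃ σ : ℝ, |σ| = 1 ∧ Pres K σ (B γ) := by
    intro γ
    obtain ⟨C, hC, hCK⟩ := hpres γ
    have e : ∀ κ, lin C κ = lin (B γ) κ := by
      intro κ
      rw [← sub_eq_zero]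
      apply A.H_inj ι hc hR
      intro y
      rw [A.H_sub]
      have h1 := hC κ (γ⁻¹ • y)
      have h2 := hB' γ κ (γ⁻¹ • y)
      rw [smul_inv_smul] at h1 h2
      rw [h1, h2, sub_self]
    rcases hCK with h | h
    · refine ⟨1, by simp, fun u hu => ?_⟩
      rw [one_smul, ← e]
      exact h u hu
    · refine ⟨-1, by simp, fun u hu => ?_⟩
      rw [neg_smul, one_smul, ← e]
      exact h u hu
  choose σ hσ hσK using hsg
  have hdet : ∀ γ : Γ, |(((B γ).map (Int.cast : ℤ → ℝ)).det)| = 1 := by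
    intro γ
    have h1 : (B γ) * (B γ⁻¹) = 1 := by rw [← map_mul, mul_inv_cancel, map_one]
    have h2 : IsUnit (B γ).det := by
      rw [← Matrix.isUnit_iff_isUnit_det]
      exact IsUnit.of_mul_eq_one _ h1
    have h3 : ((B γ).map (Int.cast : ℤ → ℝ)).det = (((B γ).det : ℤ) : ℝ) :=
      (Int.cast_det (B γ)).symm
    rw [h3]
    rcases Int.isUnit_iff.1 h2 with h | h <;> rw [h] <;> simp
  -- the linear form
  set ℓ : (Fin m → ℝ) →ₗ[ℝ] ℝ :=
    { toFun := fun κ => A.H κ x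
      map_add' := fun a b => A.H_add a b x
      map_smul' := fun c a => A.H_smul c a x } with hℓ
  have hℓe : ∀ κ, ℓ κ = A.H κ x := fun κ => rfl
  have hPos : Pos K ℓ := fun κ hκ h0 => hx κ hκ h0
  obtain ⟨η, hη, hηK⟩ := hPos.exists_eta hK
  obtain ⟨κ₁, hκ₁⟩ := hKi
  have hκ₁' := hκ₁
  rw [mem_interior_iff_mem_nhds, Metric.nhds_basis_closedBall.mem_iff] at hκ₁'
  obtain ⟨r, hr, hball⟩ := hκ₁'
  have hκ₁K : κ₁ ∈ K := interior_subset hκ₁
  set c : ℝ := r ^ m * η ^ (m - 1) / Nat.factorial m with hc'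
  have hcpos : 0 < c := by
    have : (0:ℝ) < Nat.factorial m := by exact_mod_cast Nat.factorial_pos m
    positivity
  have horb : ∀ γ : Γ, σ γ • lin (B γ) κ₁ ∈ SS K ℓ c := fun γ =>
    ⟨hσK γ κ₁ hκ₁K, fun ξ hξ j hj => det_estimate hη hηK hr hball (hdet γ) (hσ γ) (hσK γ) hξ hj⟩
  obtain ⟨μ, hμ, hQlo⟩ := A.exists_Q_bound ι hc hR 𝒟.compact
  obtain ⟨M, hM, hQup⟩ := A.exists_Q_upper (ι := ι) hc.smooth 𝒟.compact
  have hQe : ∀ (γ : Γ) (κ : Fin m → ℝ) (y : P), A.Q ι (lin (B γ) κ) (γ • y) = A.Q ι κ y :=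
    fun γ κ y => A.Q_equiv hc 𝒟 (hB γ) κ y
  -- a bound for `H κ₁` on the compact domain
  obtain ⟨b, hb⟩ : ∃ b : ℝ, ∀ y ∈ 𝒟.D, |A.H κ₁ y| ≤ b := by
    have h1 : Continuous (fun y => |A.H κ₁ y|) := (A.smooth_H hc.smooth _).continuous.abs
    obtain ⟨b, hb⟩ := (𝒟.compact.image h1).bddAbove
    exact ⟨b, fun y hy => hb ⟨y, hy, rfl⟩⟩
  have hint := SS_subset_interior hPos ⟨κ₁, hκ₁⟩ hcpos
  -- the centre
  set s₁ := σ 1 • lin (B 1) κ₁ with hs₁
  have hs₀ : SS K ℓ c ∈ 𝓝 (s₁ + κ₁) := by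
    rw [Metric.nhds_basis_closedBall.mem_iff]
    refine ⟨r, hr, fun u hu => ?_⟩
    have h1 : u - s₁ ∈ K := by
      apply hball
      rw [mem_closedBall, dist_eq_norm] at hu ⊢
      have e : u - s₁ - κ₁ = u - (s₁ + κ₁) := by abel
      rwa [e]
    have h2 := add_mem_SS hPos (horb 1) h1
    have e : σ 1 • lin (B 1) κ₁ + (u - s₁) = u := by rw [← hs₁]; abel
    rwa [e] at h2
  refine exists_crit_of_convex A hc hR 𝒟 hN LinearMap.id (convex_SS hPos hcpos)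
    (closed_SS hK c) hs₀ ?_ (c := b + 1) ?_ x hη ?_
  · -- approximation
    intro s hs ε hε
    obtain ⟨C, hC, hdom⟩ := dominate hPos hK (hint hs)
    have hs0 : s ≠ 0 := by
      intro h0
      have h1 := hs.2 (fun i => ℓ (Pi.single i 1) / |ℓ (Pi.single ⟨0, hm⟩ 1)|)
      have h2 : ∀ ξ : Fin m → ℝ, (∀ u ∈ K, 0 ≤ ξ ⬝ᵥ u) → ∀ j, |ξ j| = 1 → False := by
        intro ξ hξ j hj
        have h3 := hs.2 ξ hξ j hj
        rw [h0, dotProduct_zero, zero_mul] at h3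
        linarith
      -- a covector with a unit coordinate
      have hdot : ∀ u : Fin m → ℝ, (fun i => ℓ (Pi.single i 1)) ⬝ᵥ u = ℓ u := by
        intro u
        have h1 : u = ∑ i, u i • (Pi.single i (1:ℝ) : Fin m → ℝ) := by
          ext k
          simp [Finset.sum_apply, Pi.single_apply]
        conv_rhs => rw [h1]
        rw [map_sum]
        refine Finset.sum_congr rfl fun i _ => ?_
        rw [map_smul, smul_eq_mul, mul_comm]
      have hκne : κ₁ ≠ 0 := by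
        intro h0
        have h3 : (Pi.single (⟨0, hm⟩ : Fin m) r : Fin m → ℝ) ∈ K := by
          apply hball
          rw [mem_closedBall, dist_eq_norm, h0, sub_zero, Pi.norm_single, Real.norm_eq_abs,
            abs_of_pos hr]
        have h4 : -(Pi.single (⟨0, hm⟩ : Fin m) r : Fin m → ℝ) ∈ K := by
          apply hball
          rw [mem_closedBall, dist_eq_norm, h0, sub_zero, norm_neg, Pi.norm_single,
            Real.norm_eq_abs, abs_of_pos hr]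
        have hne : (Pi.single (⟨0, hm⟩ : Fin m) r : Fin m → ℝ) ≠ 0 := by
          intro h5
          have := congrFun h5 ⟨0, hm⟩
          rw [Pi.single_eq_same] at this
          exact hr.ne' this
        have h5 := hPos _ h3 hne
        have h6 := hPos _ h4 (neg_ne_zero.2 hne)
        rw [map_neg] at h6
        linarith
      have h3 : 0 < ℓ κ₁ := hPos κ₁ hκ₁K hκne
      obtain ⟨j, hj⟩ : ∃ j : Fin m, ℓ (Pi.single j 1) ≠ 0 := by
        by_contra hz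
        push Not at hz
        have h4 := hdot κ₁
        have h5 : (fun i : Fin m => ℓ (Pi.single i 1)) = 0 := funext hz
        rw [h5, zero_dotProduct] at h4
        linarith
      have hjp : 0 < |ℓ (Pi.single j 1)| := abs_pos.2 hj
      refine h2 (|ℓ (Pi.single j 1)|⁻¹ • fun i => ℓ (Pi.single i 1)) (fun u hu => ?_) j ?_
      · rw [smul_dotProduct, hdot, smul_eq_mul]
        exact mul_nonneg (inv_nonneg.2 hjp.le) (hPos.nonneg hu)
      · rw [Pi.smul_apply, smul_eq_mul, abs_mul, abs_inv, abs_abs, inv_mul_cancel₀ hjp.ne']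
    obtain ⟨k, t, hk, ht, hkt⟩ := exists_approx hs0 (δ := ε * Real.sqrt (μ / M) / C)
      (by positivity)
    refine ⟨k, t, hk, ht, fun y => ?_⟩
    obtain ⟨γ, hγ⟩ := 𝒟.cover y
    rw [LinearMap.id_apply, ← hQe γ, ← hQe γ s y]
    have h1 : ‖lin (B γ) (t • TAct.rv k - s)‖ ≤ ε * Real.sqrt (μ / M) * ‖lin (B γ) s‖ := by
      refine (hdom (B γ) (σ γ) (hσ γ) (hσK γ) _).trans ?_
      apply mul_le_mul_of_nonneg_right _ (norm_nonneg _)
      have h2 : C * ‖t • TAct.rv k - s‖ ≤ C * (ε * Real.sqrt (μ / M) / C) :=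
        mul_le_mul_of_nonneg_left hkt hC.le
      refine h2.trans (le_of_eq ?_)
      field_simp
    have h3 : (Real.sqrt (μ / M)) ^ 2 = μ / M := Real.sq_sqrt (by positivity)
    calc A.Q ι (lin (B γ) (t • TAct.rv k - s)) (γ • y)
        ≤ M * ‖lin (B γ) (t • TAct.rv k - s)‖ ^ 2 := hQup _ hγ _
      _ ≤ M * (ε * Real.sqrt (μ / M) * ‖lin (B γ) s‖) ^ 2 := by
          apply mul_le_mul_of_nonneg_left _ hM.le
          exact pow_le_pow_left₀ (norm_nonneg _) h1 2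
      _ = ε ^ 2 * (μ * ‖lin (B γ) s‖ ^ 2) := by
          rw [mul_pow, mul_pow, h3]
          field_simp
      _ ≤ ε ^ 2 * A.Q ι (lin (B γ) s) (γ • y) :=
          mul_le_mul_of_nonneg_left (hQlo _ hγ _) (sq_nonneg _)
  · -- the sets meet
    intro y
    obtain ⟨γ, hγ⟩ := 𝒟.cover y
    refine ⟨σ γ⁻¹ • lin (B γ⁻¹) κ₁, horb γ⁻¹, ?_⟩
    rw [LinearMap.id_apply, A.H_smul]
    have h1 := hB' γ⁻¹ κ₁ (γ • y)
    rw [inv_smul_smul] at h1
    rw [h1]
    have h2 : |σ γ⁻¹ * A.H κ₁ (γ • y)| ≤ b := by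
      rw [abs_mul, hσ, one_mul]
      exact hb _ hγ
    linarith [le_abs_self (σ γ⁻¹ * A.H κ₁ (γ • y))]
  · intro s hs
    exact hηK s hs.1

variable {M : Type*} [TopologicalSpace M] [ChartedSpace E M] [IsManifold 𝓘(ℝ, E) ∞ M]

/-- **Closed orbits, monodromy virtually preserving a cone.** -/
theorem exists_closed_orbit_cone [T2Space M] [CompactSpace M]
    {α : (x : M) → TangentSpace 𝓘(ℝ, E) x →L[ℝ] ℝ} (hα : IsContact α)
    {R : (x : M) → TangentSpace 𝓘(ℝ, E) x} (hR : IsReeb α R)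
    [T2Space P] [SigmaCompactSpace P]
    {Γ : Type*} [Group Γ] [MulAction Γ P] {q : P → M} (hq : RegCover (E := E) q Γ)
    (hm : 0 < m) (A : TAct (pullForm 𝓘(ℝ, E) 𝓘(ℝ, E) q α) m)
    (K : ConvexCone ℝ (Fin m → ℝ)) (hK : IsClosed (K : Set (Fin m → ℝ)))
    (hKi : (interior (K : Set (Fin m → ℝ))).Nonempty)
    (hA₀ : ∀ γ : Γ, ∃ B : Matrix (Fin m) (Fin m) ℤ, ∀ (θ : Fin m → ℝ) (x : P),
      γ • A.act θ x = A.act ((B.map (Int.cast : ℤ → ℝ)).mulVec θ) (γ • x))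
    (Γ₀ : Subgroup Γ) (hΓ₀ : Γ₀.FiniteIndex)
    (hA : ∀ γ ∈ Γ₀, ∃ B : Matrix (Fin m) (Fin m) ℤ, (∀ (θ : Fin m → ℝ) (x : P),
      γ • A.act θ x = A.act ((B.map (Int.cast : ℤ → ℝ)).mulVec θ) (γ • x)) ∧
      ((∀ u ∈ K, (B.map (Int.cast : ℤ → ℝ)).mulVec u ∈ K) ∨
        (∀ u ∈ K, - (B.map (Int.cast : ℤ → ℝ)).mulVec u ∈ K)))
    (x : P) (hx : ∀ κ ∈ K, κ ≠ 0 → 0 < A.H κ x) :
    ∃ (c : ℝ → M) (T : ℝ), 0 < T ∧ IsMIntegralCurve (I := 𝓘(ℝ, E)) c R ∧
      ∀ t, c (t + T) = c t := by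
  obtain ⟨N, ι, ⟨𝒟⟩⟩ := hq.exists_deck
  have hN : A.Norm Γ := ⟨hq.strict α, hA₀⟩
  have hN' : A.Norm Γ₀ := ⟨fun γ x u => hN.strict (γ : Γ) x u, fun γ => hN.norm (γ : Γ)⟩
  have hcP := hq.isContact_pull hα
  have hRP := hq.isReeb_lift hα hR
  apply hq.closed_proj
  obtain ⟨k, hk, y, hy⟩ := exists_crit_cone A hcP hRP (𝒟.restrict Γ₀ hΓ₀) hN' hm K hK hKi
    (fun γ => by
      obtain ⟨B, hB, hBK⟩ := hA γ γ.2
      refine ⟨B, fun κ x => ?_, hBK⟩
      refine A.H_push ((𝒟.restrict Γ₀ hΓ₀).smooth γ) ?_ (hN'.strict γ) x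
      intro t y
      unfold TAct.fam
      show (γ : Γ) • A.act (t • κ) y = A.act (t • lin B κ) ((γ : Γ) • y)
      rw [hB, Matrix.mulVec_smul]
      rfl) x hx
  exact A.closed_of_crit hcP hRP hk hy

end

end Pool.Agent.W669.Cone
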