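import Mathlib
import Pool.Agent.W669.Cone.Main
import Pool.Agent.H826R2.Wein.Main4

/-! Definitions and elementary form: closed Reeb orbits for contact forms with a local torus
symmetry of any rank whose monodromy preserves a convex cone. -/

open scoped Topology ContDiff Manifold
open Set

noncomputable section

namespace Pool.Agent.W669.ConeStmt

open Pool.Agent.H826R2.WStmt

set_option linter.unusedSectionVars false

universe u

variable {E : Type u} [NormedAddCommGroup E] [NormedSpace ℝ E] [FiniteDimensional ℝ E]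
  {M : Type*} [TopologicalSpace M] [ChartedSpace E M] [IsManifold 𝓘(ℝ, E) ∞ M]
  {P : Type*} [TopologicalSpace P] [ChartedSpace E P] [IsManifold 𝓘(ℝ, E) ∞ P]

/-- The momentum of the torus action `A` preserving the one-form `β` at the point `x`: the linear
form `κ ↦ β (X_κ)` at `x`, where `X_κ` is the infinitesimal generator. -/
def momentum {β : P → Cov E} {m : ℕ} (A : TorusAction β m) (x : P) (κ : Fin m → ℝ) : ℝ :=
  ev (β x) (D (E' := E) (fun θ : Fin m → ℝ => A.act θ x) 0 κ)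

/-- The monodromy of the torus action virtually preserves the cone `K` up to sign: for all elements
`γ` of a subgroup of finite index of `Γ` one has `γ (θ x) = (B θ) (γ x)` with an integer matrix `B`
depending on `γ` such that `B K ⊆ K` or `B K ⊆ -K`. -/
def MonodromyPreserves (Γ : Type*) [Group Γ] [MulAction Γ P] {m : ℕ}
    (act : (Fin m → ℝ) → P → P) (K : ConvexCone ℝ (Fin m → ℝ)) : Prop :=
  ∃ Γ₀ : Subgroup Γ, Γ₀.FiniteIndex ∧ ∀ γ ∈ Γ₀, ∃ B : Matrix (Fin m) (Fin m) ℤ,
    (∀ (θ : Fin m → ℝ) (x : P), γ • act θ x = act (fun i => ∑ j, (B i j : ℝ) * θ j) (γ • x)) ∧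
    ((∀ u ∈ K, (fun i => ∑ j, (B i j : ℝ) * u j) ∈ K) ∨
      (∀ u ∈ K, (fun i => - ∑ j, (B i j : ℝ) * u j) ∈ K))

theorem exists_periodic_cone [T2Space M] [CompactSpace M]
    (α : M → Cov E) (hα : IsContact α) (R : M → E) (hR : IsReeb α R)
    [T2Space P] [SigmaCompactSpace P]
    {Γ : Type*} [Group Γ] [MulAction Γ P] (q : P → M) (hq : IsQuotientMap E q Γ)
    {m : ℕ} (hm : 0 < m) (A : TorusAction (pull (E := E) q α) m) (hA : Normalises Γ A.act)
    (K : ConvexCone ℝ (Fin m → ℝ)) (hK : IsClosed (K : Set (Fin m → ℝ)))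
    (hKi : (interior (K : Set (Fin m → ℝ))).Nonempty) (hAK : MonodromyPreserves Γ A.act K)
    (x : P) (hx : ∀ κ ∈ K, κ ≠ 0 → 0 < momentum A x κ) :
    ∃ (c : ℝ → M) (T : ℝ), IsPeriodicOrbit R c T := by
  obtain ⟨Γ₀, hΓ₀, hAK⟩ := hAK
  obtain ⟨c, T, h1, h2, h3⟩ := Pool.Agent.W669.Cone.exists_closed_orbit_cone hα.toWein hR.toWein
    hq.toWein hm A.toWein K hK hKi hA Γ₀ hΓ₀ hAK x hx
  exact ⟨c, T, h1, h2, h3⟩

end Pool.Agent.W669.ConeStmt
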