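import Mathlib
import Pool.Agent.W669.Cone.Conv

/-! Lorentzian quadratic forms: the cone of causal vectors. -/

open scoped Topology
open Set Metric Filter

noncomputable section

namespace Pool.Agent.W669.Cone

variable {m : ℕ}

/-- a Lorentzian form with a time orientation -/
structure Lor (m : ℕ) where
  Q : (Fin m → ℝ) →ₗ[ℝ] (Fin m → ℝ) →ₗ[ℝ] ℝ
  symm : ∀ u v, Q u v = Q v u
  e : Fin m → ℝ
  pos : 0 < Q e e
  neg : ∀ v, Q e v = 0 → v ≠ 0 → Q v v < 0

namespace Lor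

variable (q : Lor m)

lemma sq_add (u v : Fin m → ℝ) : q.Q (u + v) (u + v) = q.Q u u + 2 * q.Q u v + q.Q v v := by
  simp only [map_add, LinearMap.add_apply]
  rw [q.symm v u]; ring

lemma sq_comb (a b : ℝ) (u v : Fin m → ℝ) : q.Q (a • u + b • v) (a • u + b • v) =
    a ^ 2 * q.Q u u + 2 * (a * b) * q.Q u v + b ^ 2 * q.Q v v := by
  rw [sq_add]
  simp only [map_smul, LinearMap.smul_apply, smul_eq_mul]
  ring

lemma le_of_orth {v : Fin m → ℝ} (h : q.Q q.e v = 0) : q.Q v v ≤ 0 := by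
  by_cases hv : v = 0
  · rw [hv]; simp
  · exact (q.neg v h hv).le

/-- the causal cone -/
def K : ConvexCone ℝ (Fin m → ℝ) where
  carrier := {v | 0 ≤ q.Q v v ∧ 0 ≤ q.Q q.e v}
  smul_mem' := by
    rintro c hc v ⟨h1, h2⟩
    simp only [mem_ofPred_eq, map_smul, LinearMap.smul_apply, smul_eq_mul]
    exact ⟨mul_nonneg hc.le (mul_nonneg hc.le h1), mul_nonneg hc.le h2⟩
  add_mem' := by
    rintro u ⟨hu1, hu2⟩ v ⟨hv1, hv2⟩
    have key : 0 ≤ q.Q u v := by
      rcases hu2.eq_or_lt with h0 | h0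
      · have : u = 0 := by
          by_contra hne
          exact absurd (q.neg u h0.symm hne) (not_lt.2 hu1)
        rw [this]; simp
      · rcases hv2.eq_or_lt with h3 | h3
        · have : v = 0 := by
            by_contra hne
            exact absurd (q.neg v h3.symm hne) (not_lt.2 hv1)
          rw [this]; simp
        · have h4 := q.le_of_orth (v := q.Q q.e v • u + (-(q.Q q.e u)) • v) (by
            rw [map_add, map_smul, map_smul, smul_eq_mul, smul_eq_mul]; ring)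
          rw [sq_comb] at h4
          by_contra hlt
          push Not at hlt
          have h5 := mul_pos h0 h3
          have h6 := mul_neg_of_pos_of_neg h5 hlt
          have h7 := mul_nonneg (sq_nonneg (q.Q q.e v)) hu1
          have h8 := mul_nonneg (sq_nonneg (-(q.Q q.e u))) hv1
          nlinarith
    refine ⟨?_, ?_⟩
    · rw [sq_add]; linarith
    · rw [map_add]; linarith

lemma mem_K {v : Fin m → ℝ} : v ∈ q.K ↔ 0 ≤ q.Q v v ∧ 0 ≤ q.Q q.e v := Iff.rfl

lemma e_mem : q.e ∈ q.K := ⟨q.pos.le, q.pos.le⟩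

lemma e_ne : q.e ≠ 0 := by
  intro h
  have := q.pos
  rw [h] at this
  simp at this

include q in
lemma m_pos : 0 < m := by
  by_contra h
  have h0 : m = 0 := by omega
  apply q.e_ne
  ext i
  exact absurd i.2 (by omega)

lemma e_pos {v : Fin m → ℝ} (hv : v ∈ q.K) (h0 : v ≠ 0) : 0 < q.Q q.e v := by
  rcases hv.2.eq_or_lt with h | h
  · exact absurd (q.neg v h.symm h0) (not_lt.2 hv.1)
  · exact h

lemma pos_K : Pos q.K (q.Q q.e) := fun _ hv h0 => q.e_pos hv h0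

/-- the reversed Cauchy-Schwarz inequality -/
lemma rcs {u v : Fin m → ℝ} : q.Q q.e v ^ 2 * q.Q u u + q.Q q.e u ^ 2 * q.Q v v ≤
    2 * (q.Q q.e u * q.Q q.e v) * q.Q u v := by
  have h4 := q.le_of_orth (v := q.Q q.e v • u + (-(q.Q q.e u)) • v) (by
    rw [map_add, map_smul, map_smul, smul_eq_mul, smul_eq_mul]; ring)
  rw [sq_comb] at h4
  nlinarith

lemma nonneg {u v : Fin m → ℝ} (hu : u ∈ q.K) (hv : v ∈ q.K) : 0 ≤ q.Q u v := by
  have h := q.K.add_mem hu hv
  by_cases hu0 : u = 0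
  · rw [hu0]; simp
  by_cases hv0 : v = 0
  · rw [hv0]; simp
  have h1 := q.e_pos hu hu0
  have h2 := q.e_pos hv hv0
  have h3 := q.rcs (u := u) (v := v)
  by_contra hlt
  push Not at hlt
  have h5 := mul_pos h1 h2
  have h6 := mul_neg_of_pos_of_neg h5 hlt
  have h7 := mul_nonneg (sq_nonneg (q.Q q.e v)) hu.1
  have h8 := mul_nonneg (sq_nonneg (q.Q q.e u)) hv.1
  nlinarith

lemma pos_of_timelike {u v : Fin m → ℝ} (hu : u ∈ q.K) (hut : 0 < q.Q u u) (hv : v ∈ q.K)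
    (hv0 : v ≠ 0) : 0 < q.Q u v := by
  have hu0 : u ≠ 0 := by
    intro h
    rw [h] at hut
    simp at hut
  have h1 := q.e_pos hu hu0
  have h2 := q.e_pos hv hv0
  have h3 := q.rcs (u := u) (v := v)
  by_contra hlt
  push Not at hlt
  have h5 := mul_pos h1 h2
  have h6 := mul_nonpos_of_nonneg_of_nonpos h5.le hlt
  have h7 := mul_pos (pow_pos h2 2) hut
  have h8 := mul_nonneg (sq_nonneg (q.Q q.e u)) hv.1
  nlinarith

lemma proportional {u v : Fin m → ℝ} (hu : u ∈ q.K) (hv : v ∈ q.K) (hu0 : u ≠ 0) (hv0 : v ≠ 0)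
    (h : q.Q u v = 0) : v = (q.Q q.e v / q.Q q.e u) • u := by
  have h1 := q.e_pos hu hu0
  have h2 := q.e_pos hv hv0
  set w := q.Q q.e v • u + (-(q.Q q.e u)) • v with hw
  have hw0 : w = 0 := by
    by_contra hne
    have h3 := q.neg w (by
      rw [hw, map_add, map_smul, map_smul, smul_eq_mul, smul_eq_mul]; ring) hne
    rw [hw, sq_comb, h] at h3
    have h7 := mul_nonneg (sq_nonneg (q.Q q.e v)) hu.1
    have h8 := mul_nonneg (sq_nonneg (-(q.Q q.e u))) hv.1
    linarith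
  have h3 : q.Q q.e u • v = q.Q q.e v • u := by
    have : q.Q q.e v • u - q.Q q.e u • v = 0 := by
      rw [← hw0, hw, neg_smul, sub_eq_add_neg]
    exact (sub_eq_zero.1 this).symm
  rw [div_eq_inv_mul, mul_smul, ← h3, smul_smul, inv_mul_cancel₀ h1.ne', one_smul]

lemma mem_of_pos {u v : Fin m → ℝ} (hu : u ∈ q.K) (hv : 0 ≤ q.Q v v)
    (h : 0 < q.Q u v) : v ∈ q.K := by
  refine ⟨hv, ?_⟩
  by_contra hlt
  push Not at hlt
  have h1 : -v ∈ q.K := by
    refine ⟨?_, ?_⟩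
    · simpa using hv
    · rw [map_neg]; linarith
  have h2 := q.nonneg hu h1
  rw [map_neg] at h2
  linarith

lemma ne_zero_of_causal {u v : Fin m → ℝ} (hu : u ∈ q.K) (hut : 0 < q.Q u u)
    (hv : 0 ≤ q.Q v v) (hv0 : v ≠ 0) : q.Q u v ≠ 0 := by
  rcases le_or_gt 0 (q.Q q.e v) with h | h
  · exact (q.pos_of_timelike hu hut ⟨hv, h⟩ hv0).ne'
  · have h1 : -v ∈ q.K := by
      refine ⟨?_, ?_⟩
      · simpa using hv
      · rw [map_neg]; linarith
    have h2 := q.pos_of_timelike hu hut h1 (neg_ne_zero.2 hv0)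
    rw [map_neg] at h2
    linarith

lemma continuous_Q : Continuous (fun p : (Fin m → ℝ) × (Fin m → ℝ) => q.Q p.1 p.2) := by
  have h : (fun p : (Fin m → ℝ) × (Fin m → ℝ) => q.Q p.1 p.2) = fun p =>
      ∑ i, ∑ j, p.1 i * p.2 j * q.Q (Pi.single i 1) (Pi.single j 1) := by
    ext p
    have e : ∀ w : Fin m → ℝ, w = ∑ i, w i • (Pi.single i (1:ℝ) : Fin m → ℝ) := by
      intro w
      ext k
      simp [Finset.sum_apply, Pi.single_apply]
    conv_lhs => rw [e p.1, e p.2]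
    simp only [map_sum, LinearMap.sum_apply, map_smul, LinearMap.smul_apply, smul_eq_mul,
      Finset.mul_sum]
    rw [Finset.sum_comm]
    refine Finset.sum_congr rfl fun i _ => Finset.sum_congr rfl fun j _ => ?_
    ring
  rw [h]
  fun_prop

lemma cont {X : Type*} [TopologicalSpace X] {f g : X → (Fin m → ℝ)} (hf : Continuous f)
    (hg : Continuous g) : Continuous (fun x => q.Q (f x) (g x)) :=
  q.continuous_Q.comp (hf.prodMk hg)

lemma tendsto {X : Type*} {F : Filter X} {f g : X → (Fin m → ℝ)} {a b : Fin m → ℝ}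
    (hf : Tendsto f F (𝓝 a)) (hg : Tendsto g F (𝓝 b)) :
    Tendsto (fun x => q.Q (f x) (g x)) F (𝓝 (q.Q a b)) :=
  (q.continuous_Q.tendsto (a, b)).comp (hf.prodMk_nhds hg)

lemma closed_K : IsClosed (q.K : Set (Fin m → ℝ)) := by
  have : (q.K : Set (Fin m → ℝ)) = {v | 0 ≤ q.Q v v} ∩ {v | 0 ≤ q.Q q.e v} := rfl
  rw [this]
  exact (isClosed_le continuous_const (q.cont continuous_id continuous_id)).inter
    (isClosed_le continuous_const (q.cont continuous_const continuous_id))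

lemma interior_K {v : Fin m → ℝ} (hv : v ∈ q.K) (h : 0 < q.Q v v) :
    v ∈ interior (q.K : Set (Fin m → ℝ)) := by
  have h0 : v ≠ 0 := by
    intro h0
    rw [h0] at h
    simp at h
  have h1 := q.e_pos hv h0
  rw [mem_interior]
  refine ⟨{w | 0 < q.Q w w} ∩ {w | 0 < q.Q q.e w}, fun w hw => ⟨hw.1.le, hw.2.le⟩, ?_, ⟨h, h1⟩⟩
  exact (isOpen_lt continuous_const (q.cont continuous_id continuous_id)).inter
    (isOpen_lt continuous_const (q.cont continuous_const continuous_id))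

/-- the convex set above the hyperboloid -/
def Hy : Set (Fin m → ℝ) := {v | v ∈ q.K ∧ 1 ≤ q.Q v v}

lemma closed_Hy : IsClosed q.Hy :=
  q.closed_K.inter (isClosed_le continuous_const (q.cont continuous_id continuous_id))

lemma one_le {u v : Fin m → ℝ} (hu : u ∈ q.Hy) (hv : v ∈ q.Hy) : 1 ≤ q.Q u v := by
  have hu0 : u ≠ 0 := by
    intro h
    have := hu.2
    rw [h] at this
    simp at this
    linarith
  have hv0 : v ≠ 0 := by
    intro h
    have := hv.2
    rw [h] at this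
    simp at this
    linarith
  have h1 := q.e_pos hu.1 hu0
  have h2 := q.e_pos hv.1 hv0
  have h3 := q.rcs (u := u) (v := v)
  have h4 : q.Q q.e v ^ 2 ≤ q.Q q.e v ^ 2 * q.Q u u := le_mul_of_one_le_right (sq_nonneg _) hu.2
  have h5 : q.Q q.e u ^ 2 ≤ q.Q q.e u ^ 2 * q.Q v v := le_mul_of_one_le_right (sq_nonneg _) hv.2
  have h6 := mul_pos h1 h2
  have h7 : q.Q q.e u * q.Q q.e v ≤ (q.Q q.e u * q.Q q.e v) * q.Q u v := by
    nlinarith [sq_nonneg (q.Q q.e u - q.Q q.e v)]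
  by_contra hlt
  push Not at hlt
  have := mul_lt_mul_of_pos_left hlt h6
  linarith

lemma convex_Hy : Convex ℝ q.Hy := by
  intro u hu v hv a b ha hb hab
  refine ⟨q.K.convex hu.1 hv.1 ha hb hab, ?_⟩
  rw [sq_comb]
  have h1 := q.one_le hu hv
  have h2 : a ^ 2 ≤ a ^ 2 * q.Q u u := le_mul_of_one_le_right (sq_nonneg _) hu.2
  have h3 : b ^ 2 ≤ b ^ 2 * q.Q v v := le_mul_of_one_le_right (sq_nonneg _) hv.2
  have h4 : a * b ≤ (a * b) * q.Q u v := le_mul_of_one_le_right (mul_nonneg ha hb) h1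
  have h5 : (a + b) ^ 2 = 1 := by rw [hab, one_pow]
  nlinarith

lemma exists_Hy : ∃ v, v ∈ q.Hy := by
  have h := q.pos
  set c := q.Q q.e q.e with hc
  refine ⟨(1 + c⁻¹) • q.e, q.K.smul_mem (by positivity) q.e_mem, ?_⟩
  simp only [map_smul, LinearMap.smul_apply, smul_eq_mul]
  rw [← hc]
  have : c * c⁻¹ = 1 := mul_inv_cancel₀ h.ne'
  have h2 : 0 < c⁻¹ := inv_pos.2 h
  nlinarith

/-- isometries preserve the cone up to sign -/
lemma sign {B : (Fin m → ℝ) →ₗ[ℝ] (Fin m → ℝ)} (hB : ∀ u v, q.Q (B u) (B v) = q.Q u v) :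
    (∀ u ∈ q.K, B u ∈ q.K) ∨ (∀ u ∈ q.K, - B u ∈ q.K) := by
  have hinj : ∀ u, u ∈ q.K → u ≠ 0 → B u ≠ 0 := by
    intro u hu h0 h1
    have h2 := hB q.e u
    rw [h1, map_zero] at h2
    have := q.e_pos hu h0
    linarith
  have hBe : 0 < q.Q (B q.e) (B q.e) := by rw [hB]; exact q.pos
  rcases le_or_gt 0 (q.Q q.e (B q.e)) with h | h
  · left
    intro u hu
    by_cases h0 : u = 0
    · rw [h0, map_zero]
      exact ⟨by simp, by simp⟩
    · refine q.mem_of_pos (u := B q.e) ⟨hBe.le, h⟩ ?_ ?_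
      · rw [hB]; exact hu.1
      · rw [hB]; exact q.e_pos hu h0
  · right
    intro u hu
    by_cases h0 : u = 0
    · rw [h0, map_zero, neg_zero]
      exact ⟨by simp, by simp⟩
    · refine q.mem_of_pos (u := - B q.e) ⟨?_, ?_⟩ ?_ ?_
      · simpa using hBe.le
      · rw [map_neg]; linarith
      · simp only [map_neg, LinearMap.neg_apply, neg_neg]
        rw [hB]; exact hu.1
      · simp only [map_neg, LinearMap.neg_apply, neg_neg]
        rw [hB]; exact q.e_pos hu h0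

/-- the sum of two causal vectors which are not proportional is timelike -/
lemma timelike_add {u v : Fin m → ℝ} (hu : u ∈ q.K) (hv : v ∈ q.K) (hu0 : u ≠ 0) (hv0 : v ≠ 0)
    (h : ∀ c : ℝ, v ≠ c • u) : 0 < q.Q (u + v) (u + v) := by
  rw [sq_add]
  have h1 : q.Q u v ≠ 0 := fun h2 => h _ (q.proportional hu hv hu0 hv0 h2)
  have h2 : 0 < q.Q u v := lt_of_le_of_ne (q.nonneg hu hv) h1.symm
  linarith [hu.1, hv.1]

/-- the quantitative version of nondegeneracy on compact sets of timelike vectors -/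
lemma exists_bound {S : Set (Fin m → ℝ)} (hS : IsCompact S)
    (hS2 : ∀ κ ∈ S, κ ∈ q.Hy) : ∃ C > (0:ℝ), ∀ κ ∈ S, ∀ v,
    ‖v‖ ^ 2 ≤ C * ((q.Q v κ) ^ 2 + |q.Q v v|) := by
  have hcpt : IsCompact (S ×ˢ sphere (0 : Fin m → ℝ) 1) := hS.prod (isCompact_sphere _ _)
  have hcont : Continuous (fun p : (Fin m → ℝ) × (Fin m → ℝ) =>
      (q.Q p.2 p.1) ^ 2 + |q.Q p.2 p.2|) :=
    ((q.cont continuous_snd continuous_fst).pow 2).add
      (q.cont continuous_snd continuous_snd).abs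
  obtain ⟨μ, hμ, hμS⟩ : ∃ μ > (0:ℝ), ∀ p ∈ S ×ˢ sphere (0 : Fin m → ℝ) 1,
      μ ≤ (q.Q p.2 p.1) ^ 2 + |q.Q p.2 p.2| := by
    rcases (S ×ˢ sphere (0 : Fin m → ℝ) 1).eq_empty_or_nonempty with he | hne
    · exact ⟨1, one_pos, fun p hp => by rw [he] at hp; exact hp.elim⟩
    · obtain ⟨p, hp, hmin⟩ := hcpt.exists_isMinOn hne hcont.continuousOn
      refine ⟨(q.Q p.2 p.1) ^ 2 + |q.Q p.2 p.2|, ?_, fun r hr => hmin hr⟩
      have hp0 : p.2 ≠ 0 := by
        intro h0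
        have := hp.2
        rw [h0, mem_sphere_zero_iff_norm, norm_zero] at this
        exact zero_ne_one this
      rcases (add_nonneg (sq_nonneg (q.Q p.2 p.1)) (abs_nonneg (q.Q p.2 p.2))).lt_or_eq with h | h
      · exact h
      · exfalso
        have h1 := sq_nonneg (q.Q p.2 p.1)
        have h2 := abs_nonneg (q.Q p.2 p.2)
        have h3 : (q.Q p.2 p.1) ^ 2 = 0 := by linarith
        have h4 : |q.Q p.2 p.2| = 0 := by linarith
        have h5 : q.Q p.2 p.1 = 0 := pow_eq_zero_iff two_ne_zero |>.1 h3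
        have h6 : q.Q p.2 p.2 = 0 := abs_eq_zero.1 h4
        have h7 := hS2 _ hp.1
        refine q.ne_zero_of_causal h7.1 (by linarith [h7.2]) h6.ge hp0 ?_
        rw [q.symm]; exact h5
  refine ⟨μ⁻¹, inv_pos.2 hμ, fun κ hκ v => ?_⟩
  by_cases hv : v = 0
  · rw [hv]; simp
  · have hn : 0 < ‖v‖ := norm_pos_iff.2 hv
    have h1 := hμS (κ, ‖v‖⁻¹ • v) ⟨hκ, by
      rw [mem_sphere_zero_iff_norm, norm_smul, norm_inv, norm_norm, inv_mul_cancel₀ hn.ne']⟩
    simp only [map_smul, LinearMap.smul_apply, smul_eq_mul] at h1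
    have h2 : (‖v‖⁻¹ * q.Q v κ) ^ 2 + |‖v‖⁻¹ * (‖v‖⁻¹ * q.Q v v)| =
        ((q.Q v κ) ^ 2 + |q.Q v v|) / ‖v‖ ^ 2 := by
      rw [abs_mul, abs_mul, abs_inv, abs_norm]
      field_simp
    rw [h2, le_div_iff₀ (by positivity)] at h1
    rw [inv_mul_eq_div, le_div_iff₀ hμ, mul_comm]
    exact h1

end Lor

/-- directions of a sequence going to infinity -/
lemma exists_direction {v : ℕ → Fin m → ℝ} (hv : Tendsto (fun i => ‖v i‖) atTop atTop) :
    ∃ (φ : ℕ → ℕ) (ξ : Fin m → ℝ), StrictMono φ ∧ ‖ξ‖ = 1 ∧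
      Tendsto (fun i => ‖v (φ i)‖⁻¹ • v (φ i)) atTop (𝓝 ξ) := by
  have h1 : ∃ᶠ i in atTop, ‖v i‖⁻¹ • v i ∈ sphere (0 : Fin m → ℝ) 1 := by
    apply Eventually.frequently
    filter_upwards [hv.eventually_gt_atTop 0] with i hi
    rw [mem_sphere_zero_iff_norm, norm_smul, norm_inv, norm_norm, inv_mul_cancel₀ hi.ne']
  obtain ⟨ξ, hξ, φ, hφ, hlim⟩ := (isCompact_sphere (0 : Fin m → ℝ) 1).tendsto_subseq' h1
  exact ⟨φ, ξ, hφ, mem_sphere_zero_iff_norm.1 hξ, hlim⟩

end Pool.Agent.W669.Cone
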