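import Mathlib

/-! Minimisers of a continuous family of positive quadratic forms on a closed convex set. -/

open scoped Topology
open Set Metric Filter

noncomputable section

namespace Pool.Agent.W669.Cone

variable {m : ℕ} {X : Type*} [TopologicalSpace X]

/-- a continuous family of positive quadratic forms -/
structure QF (E : X → (Fin m → ℝ) → ℝ) : Prop where
  par : ∀ x u v, E x (u + v) + E x (u - v) = 2 * E x u + 2 * E x v
  hom : ∀ x (a : ℝ) u, E x (a • u) = a ^ 2 * E x u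
  cont : Continuous (fun p : X × (Fin m → ℝ) => E p.1 p.2)
  lower : ∀ D : Set X, IsCompact D → ∃ μ > (0:ℝ), ∀ x ∈ D, ∀ κ, μ * ‖κ‖ ^ 2 ≤ E x κ

namespace QF

variable {E : X → (Fin m → ℝ) → ℝ} (h : QF E)

include h

lemma cont_right (x : X) : Continuous (E x) := by
  have h1 : Continuous (fun κ : Fin m → ℝ => (x, κ)) := by fun_prop
  exact h.cont.comp h1

lemma cont_left (κ : Fin m → ℝ) : Continuous (fun x => E x κ) := by
  have h1 : Continuous (fun x : X => (x, κ)) := by fun_prop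
  exact h.cont.comp h1

lemma exists_min {S : Set (Fin m → ℝ)} (hSc : IsClosed S) (hne : S.Nonempty) (x : X) :
    ∃ κ ∈ S, ∀ κ' ∈ S, E x κ ≤ E x κ' := by
  obtain ⟨μ, hμ, hlow⟩ := h.lower {x} isCompact_singleton
  obtain ⟨κ₁, hκ₁⟩ := hne
  set R := Real.sqrt (E x κ₁ / μ) with hR
  have hb : ∀ κ, E x κ ≤ E x κ₁ → ‖κ‖ ≤ R := by
    intro κ hκ
    apply Real.le_sqrt_of_sq_le
    rw [le_div_iff₀ hμ, mul_comm]
    exact (hlow x rfl κ).trans hκ
  have hcpt : IsCompact (S ∩ closedBall 0 R) := (isCompact_closedBall _ _).inter_left hSc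
  obtain ⟨κ, hκ, hmin⟩ := hcpt.exists_isMinOn
    ⟨κ₁, hκ₁, mem_closedBall_zero_iff.2 (hb κ₁ le_rfl)⟩ (h.cont_right x).continuousOn
  refine ⟨κ, hκ.1, fun κ' hκ' => ?_⟩
  by_cases h1 : E x κ' ≤ E x κ₁
  · exact hmin ⟨hκ', mem_closedBall_zero_iff.2 (hb κ' h1)⟩
  · push Not at h1
    have h2 : E x κ ≤ E x κ₁ := hmin ⟨hκ₁, mem_closedBall_zero_iff.2 (hb κ₁ le_rfl)⟩
    linarith

/-- a quantitative uniqueness statement -/
lemma quant {S : Set (Fin m → ℝ)} (hS : Convex ℝ S) {x : X} {κ κ' : Fin m → ℝ} (hκ : κ ∈ S)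
    (hκ' : κ' ∈ S) (hmin : ∀ u ∈ S, E x κ ≤ E x u) :
    E x (κ' - κ) ≤ 2 * (E x κ' - E x κ) := by
  have h1 : (1 / 2 : ℝ) • κ + (1 / 2 : ℝ) • κ' ∈ S := hS hκ hκ' (by norm_num) (by norm_num)
    (by norm_num)
  have h2 := hmin _ h1
  have h3 := h.par x ((1 / 2 : ℝ) • κ') ((1 / 2 : ℝ) • κ)
  rw [h.hom, h.hom] at h3
  have e1 : (1 / 2 : ℝ) • κ' - (1 / 2 : ℝ) • κ = (1 / 2 : ℝ) • (κ' - κ) := by rw [smul_sub]
  have e2 : (1 / 2 : ℝ) • κ' + (1 / 2 : ℝ) • κ = (1 / 2 : ℝ) • κ + (1 / 2 : ℝ) • κ' := add_comm _ _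
  rw [e1, h.hom, e2] at h3
  nlinarith

/-- **The minimiser depends continuously on the parameter.** -/
theorem exists_minimiser [LocallyCompactSpace X] {S : Set (Fin m → ℝ)} (hS : Convex ℝ S)
    (hSc : IsClosed S) (hne : S.Nonempty) :
    ∃ L : X → (Fin m → ℝ), Continuous L ∧ (∀ x, L x ∈ S) ∧ (∀ x, ∀ κ ∈ S, E x (L x) ≤ E x κ) ∧
      ∀ x, ∀ κ ∈ S, (∀ κ' ∈ S, E x κ ≤ E x κ') → κ = L x := by
  choose L hL hmin using fun x => h.exists_min hSc hne x
  refine ⟨L, ?_, hL, hmin, ?_⟩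
  · rw [continuous_iff_continuousAt]
    intro x
    obtain ⟨D, hD, hDx⟩ := exists_compact_mem_nhds x
    obtain ⟨μ, hμ, hlow⟩ := h.lower D hD
    obtain ⟨κ₁, hκ₁⟩ := hne
    obtain ⟨M, hM⟩ := (hD.image (h.cont_left κ₁)).bddAbove
    set R := Real.sqrt (M / μ) with hR
    have hb : ∀ y ∈ D, ‖L y‖ ≤ R := by
      intro y hy
      apply Real.le_sqrt_of_sq_le
      rw [le_div_iff₀ hμ, mul_comm]
      exact ((hlow y hy (L y)).trans (hmin y κ₁ hκ₁)).trans (hM ⟨y, hy, rfl⟩)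
    have hx : x ∈ D := mem_of_mem_nhds hDx
    rw [ContinuousAt, tendsto_iff_norm_sub_tendsto_zero, Metric.tendsto_nhds]
    intro ε hε
    have hu : ∀ᶠ y in 𝓝 x, ∀ κ ∈ closedBall (0 : Fin m → ℝ) R, |E y κ - E x κ| < μ * ε ^ 2 / 4 := by
      have h4 : ∀ κ ∈ closedBall (0 : Fin m → ℝ) R, ∀ᶠ p : X × (Fin m → ℝ) in 𝓝 (x, κ),
          |E p.1 p.2 - E x p.2| < μ * ε ^ 2 / 4 := by
        intro κ _
        have hc : Continuous (fun p : X × (Fin m → ℝ) => |E p.1 p.2 - E x p.2|) :=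
          (h.cont.sub ((h.cont_right x).comp continuous_snd)).abs
        have h0 : |E (x, κ).1 (x, κ).2 - E x (x, κ).2| < μ * ε ^ 2 / 4 := by
          simp only [sub_self, abs_zero]
          positivity
        exact hc.continuousAt.eventually (gt_mem_nhds h0)
      exact (isCompact_closedBall (0 : Fin m → ℝ) R).eventually_forall_of_forall_eventually h4
    filter_upwards [hu, hDx] with y hy hyD
    rw [Real.dist_eq, sub_zero, abs_norm]
    have h1 := h.quant hS (hL x) (hL y) (hmin x)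
    have h2 := hlow x hx (L y - L x)
    have h3 := (abs_lt.1 (hy (L y) (mem_closedBall_zero_iff.2 (hb y hyD)))).1
    have h4 := (abs_lt.1 (hy (L x) (mem_closedBall_zero_iff.2 (hb x hx)))).2
    have h5 := hmin y (L x) (hL x)
    have h6 : μ * ‖L y - L x‖ ^ 2 < μ * ε ^ 2 := by nlinarith
    have h7 : ‖L y - L x‖ ^ 2 < ε ^ 2 := lt_of_mul_lt_mul_left h6 hμ.le
    exact lt_of_pow_lt_pow_left₀ 2 hε.le h7
  · intro x κ hκ hκm
    obtain ⟨μ, hμ, hlow⟩ := h.lower {x} isCompact_singleton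
    have h1 := h.quant hS (hL x) hκ (hmin x)
    have h2 := hκm (L x) (hL x)
    have h3 := hlow x rfl (κ - L x)
    have h4 : ‖κ - L x‖ ^ 2 ≤ 0 := by
      by_contra hlt
      push Not at hlt
      have := mul_pos hμ hlt
      linarith
    have h5 : ‖κ - L x‖ = 0 := by
      have := sq_nonneg ‖κ - L x‖
      exact pow_eq_zero_iff two_ne_zero |>.1 (le_antisymm h4 this)
    exact sub_eq_zero.1 (norm_eq_zero.1 h5)

end QF

end Pool.Agent.W669.Cone
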