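import Mathlib
import Pool.Agent.W669.Cone.Lor
import Pool.Agent.W669.Cone.Min
import Pool.Agent.H826R2.Wein.NFGeo
import Pool.Agent.H826R2.Wein.SolvMon
import Pool.Agent.H826R2.Wein.RelTop
import Pool.Agent.H826R2.Wein.Rank2
import Pool.Agent.H826R2.Wein.Bridge

/-! Preparations: the energies form a continuous family of quadratic forms; monodromy groups with a
real eigenvector. -/

open scoped Topology ContDiff Manifold
open Set Metric Bundle Filter Pool.Agent.Helper186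

noncomputable section

namespace Pool.Agent.W669.Cone

open Pool.Agent.H826R2.Wein

variable {E : Type*} [NormedAddCommGroup E] [NormedSpace ℝ E] [FiniteDimensional ℝ E]
  {P : Type*} [TopologicalSpace P] [ChartedSpace E P] [IsManifold 𝓘(ℝ, E) ∞ P]
  {β : (x : P) → TangentSpace 𝓘(ℝ, E) x →L[ℝ] ℝ} {m : ℕ}
  (A : TAct β m) {n : ℕ} {ι : Imm (E := E) P n} {Γ : Type*} [Group Γ] [MulAction Γ P]

/-- the energies -/
lemma qf (hc : IsContact β) {R : (x : P) → TangentSpace 𝓘(ℝ, E) x} (hR : IsReeb β R) :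
    QF (fun (y : P) (κ : Fin m → ℝ) => A.Q ι κ y) where
  par := by
    intro x u v
    have h1 : ∀ w : Fin m → ℝ, A.Q ι w x = A.GB ι hc.smooth x w w + (A.H w x) ^ 2 := fun w => rfl
    have h2 : A.H (u + v) x = A.H u x + A.H v x := A.H_add u v x
    have h3 : A.H (u - v) x = A.H u x - A.H v x := A.H_sub u v x
    rw [h1, h1, h1, h1, h2, h3]
    simp only [map_add, map_sub, LinearMap.add_apply, LinearMap.sub_apply]
    ring
  hom := by
    intro x a u
    have h1 : ∀ w : Fin m → ℝ, A.Q ι w x = A.GB ι hc.smooth x w w + (A.H w x) ^ 2 := fun w => rfl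
    rw [h1, h1, A.H_smul]
    simp only [map_smul, LinearMap.smul_apply, smul_eq_mul]
    ring
  cont := (A.continuous_G_H ι hc.smooth).add ((A.continuous_H hc.smooth).pow 2)
  lower := fun D hD => A.exists_Q_bound ι hc hR hD

/-- the rational part of a real vector -/
def rPart (φ : ℝ →ₗ[ℚ] ℚ) (v : Fin m → ℝ) : Fin m → ℚ := fun i => φ (v i)

lemma mq_rPart (C : Matrix (Fin m) (Fin m) ℤ) (φ : ℝ →ₗ[ℚ] ℚ) (v : Fin m → ℝ) :
    mq C (rPart φ v) = rPart φ (lin C v) := by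
  ext i
  show ∑ j, ((C i j : ℤ) : ℚ) * φ (v j) = φ (∑ j, ((C i j : ℤ) : ℝ) * v j)
  rw [map_sum]
  refine Finset.sum_congr rfl fun j _ => ?_
  have h : (((C i j : ℤ)) : ℝ) * v j = ((C i j : ℤ) : ℚ) • v j := by
    rw [Rat.smul_def]
    push_cast
    rfl
  rw [h, map_smul, smul_eq_mul]

/-- **Critical points, a real eigenvector of the monodromy.** -/
theorem exists_crit_of_semi [T2Space P] [SigmaCompactSpace P] [Nonempty P] (hc : IsContact β)
    {R : (x : P) → TangentSpace 𝓘(ℝ, E) x} (hR : IsReeb β R) (𝒟 : Deck ι Γ) (hN : A.Norm Γ)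
    (B : Γ →* Matrix (Fin m) (Fin m) ℤ)
    (hB : ∀ (γ : Γ) (κ : Fin m → ℝ) (x : P), A.H (lin (B γ) κ) (γ • x) = A.H κ x)
    {ξ : Fin m → ℝ} (hξ : ξ ≠ 0) (hs : ∀ γ : Γ, ∃ c : ℝ, lin (B γ) ξ = c • ξ) :
    ∃ k : Fin m → ℤ, k ≠ 0 ∧ ∃ x, dForm 𝓘(ℝ, E) (A.H (TAct.rv k)) x = 0 := by
  have hmul : ∀ (a b : Γ) (u : Fin m → ℚ), mq (B (a * b)) u = mq (B a) (mq (B b) u) := by
    intro a b u
    rw [map_mul, mq_mul]
    rfl
  let U : Submodule ℚ (Fin m → ℚ) :=
    { carrier := {u | ∀ γ γ', mq (B γ) (mq (B γ') u) = mq (B γ') (mq (B γ) u)}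
      zero_mem' := fun γ γ' => by simp
      add_mem' := fun {u v} hu hv γ γ' => by
        simp only [map_add, hu γ γ', hv γ γ']
      smul_mem' := fun c u hu γ γ' => by
        simp only [map_smul, hu γ γ'] }
  have hU0 : U ≠ ⊥ := by
    obtain ⟨i, hi⟩ := Function.ne_iff.1 hξ
    obtain ⟨φ, hφ⟩ : ∃ φ : ℝ →ₗ[ℚ] ℚ, φ (ξ i) ≠ 0 := by
      by_contra hcon
      push Not at hcon
      exact hi ((Module.forall_dual_apply_eq_zero_iff ℚ (ξ i)).1 hcon)
    intro hbot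
    have h1 : rPart φ ξ ∈ U := by
      intro a b
      rw [mq_rPart, mq_rPart, mq_rPart, mq_rPart]
      congr 1
      obtain ⟨c, hc⟩ := hs a
      obtain ⟨d, hd⟩ := hs b
      rw [hd, map_smul, hc, map_smul, hd, smul_comm]
    rw [hbot, Submodule.mem_bot] at h1
    exact hφ (congrFun h1 i)
  have hinv : ∀ γ, ∀ u ∈ U, mq (B γ) u ∈ U := by
    intro g u hu a b
    have h1 := hu (g⁻¹ * a * g) (g⁻¹ * b * g)
    rw [← hmul, ← hmul] at h1
    have e1 : a * b * g = g * (g⁻¹ * a * g * (g⁻¹ * b * g)) := by group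
    have e2 : b * a * g = g * (g⁻¹ * b * g * (g⁻¹ * a * g)) := by group
    rw [← hmul, ← hmul, ← hmul, ← hmul, e1, e2, hmul g, hmul g, h1]
  obtain ⟨K, hF, hNF, ⟨F⟩⟩ := exists_nfdata B U hU0 hinv (fun γ γ' u hu => hu γ γ')
  exact A.exists_crit_of_nf hc hR 𝒟 hN B hB F

end Pool.Agent.W669.Cone
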