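import Mathlib
import Pool.Agent.W669.Cone.Lor

/-! Groups of integral matrices preserving a Lorentzian form: limit directions. -/

open scoped Topology
open Set Metric Filter

noncomputable section

namespace Pool.Agent.W669.Cone

variable {m : ℕ}

/-- integral vectors as real vectors -/
def iv (k : Fin m → ℤ) : Fin m → ℝ := fun i => (k i : ℝ)

lemma iv_inj : Function.Injective (iv : (Fin m → ℤ) → (Fin m → ℝ)) := by
  intro k l h
  ext i
  have := congrFun h i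
  simp only [iv] at this
  exact_mod_cast this

lemma finite_iv (c : ℝ) : {k : Fin m → ℤ | ‖iv k‖ ≤ c}.Finite := by
  obtain ⟨N, hN'⟩ := exists_nat_ge c
  refine (Set.finite_Icc (fun _ => -(N:ℤ)) (fun _ : Fin m => (N:ℤ))).subset ?_
  intro k h1
  have h3 : ∀ i, |(k i : ℝ)| ≤ N := fun i => by
    have := norm_le_pi_norm (iv k) i
    rw [Real.norm_eq_abs] at this
    exact (this.trans h1).trans hN'
  refine ⟨fun i => ?_, fun i => ?_⟩
  · have := (abs_le.1 (h3 i)).1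
    exact_mod_cast this
  · have := (abs_le.1 (h3 i)).2
    exact_mod_cast this

/-- the image of an integral vector -/
def im (B : Matrix (Fin m) (Fin m) ℤ) (k : Fin m → ℤ) : Fin m → ℤ := B.mulVec k

lemma iv_im (B : Matrix (Fin m) (Fin m) ℤ) (k : Fin m → ℤ) : iv (im B k) = lin B (iv k) := by
  ext i
  simp [iv, im, lin_apply, Matrix.mulVec, dotProduct]

lemma lin_one (v : Fin m → ℝ) : lin (1 : Matrix (Fin m) (Fin m) ℤ) v = v := by
  have h1 : (Matrix.map (1 : Matrix (Fin m) (Fin m) ℤ) (Int.cast : ℤ → ℝ)) = 1 :=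
    Matrix.map_one _ (by simp) (by simp)
  rw [lin_apply, h1, Matrix.one_mulVec]

lemma lin_mul (B C : Matrix (Fin m) (Fin m) ℤ) (v : Fin m → ℝ) :
    lin (B * C) v = lin B (lin C v) := by
  have h1 : ((B * C).map (Int.cast : ℤ → ℝ)) =
      B.map (Int.cast : ℤ → ℝ) * C.map (Int.cast : ℤ → ℝ) :=
    Matrix.map_mul (f := Int.castRingHom ℝ)
  rw [lin_apply, lin_apply, lin_apply, h1, Matrix.mulVec_mulVec]

/-- a group of integral matrices preserving the form and the time orientation -/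
structure LRep (q : Lor m) {Γ : Type*} [Group Γ] (B : Γ →* Matrix (Fin m) (Fin m) ℤ) : Prop where
  isom : ∀ (γ : Γ) (u v : Fin m → ℝ), q.Q (lin (B γ) u) (lin (B γ) v) = q.Q u v
  cone : ∀ (γ : Γ), ∀ u ∈ q.K, lin (B γ) u ∈ q.K

namespace LRep

variable {q : Lor m} {Γ : Type*} [Group Γ] {B : Γ →* Matrix (Fin m) (Fin m) ℤ} (h : LRep q B)

include h

omit h in
lemma inv_lin (γ : Γ) (v : Fin m → ℝ) : lin (B γ⁻¹) (lin (B γ) v) = v := by
  rw [← lin_mul, ← map_mul, inv_mul_cancel, map_one, lin_one]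

omit h in
lemma lin_inv (γ : Γ) (v : Fin m → ℝ) : lin (B γ) (lin (B γ⁻¹) v) = v := by
  rw [← lin_mul, ← map_mul, mul_inv_cancel, map_one, lin_one]

lemma adj (γ : Γ) (u v : Fin m → ℝ) : q.Q u (lin (B γ) v) = q.Q (lin (B γ⁻¹) u) v := by
  rw [← h.isom γ (lin (B γ⁻¹) u) v, lin_inv]

omit h in
lemma ne_zero (γ : Γ) {v : Fin m → ℝ} (hv : v ≠ 0) : lin (B γ) v ≠ 0 := by
  intro h0
  apply hv
  rw [← inv_lin (B := B) γ v, h0, map_zero]

lemma pres (γ : Γ) : Pres q.K 1 (B γ) := by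
  intro u hu
  rw [one_smul]
  exact h.cone γ u hu

/-- domination by the image of a timelike vector -/
lemma dominate {κ : Fin m → ℝ} (hκ : κ ∈ q.K) (hκt : 0 < q.Q κ κ) :
    ∃ C > (0:ℝ), ∀ (γ : Γ) (v : Fin m → ℝ), ‖lin (B γ) v‖ ≤ C * ‖v‖ * ‖lin (B γ) κ‖ := by
  obtain ⟨C, hC, hd⟩ := Cone.dominate q.pos_K q.closed_K (q.interior_K hκ hκt)
  exact ⟨C, hC, fun γ v => hd (B γ) 1 (by norm_num) (h.pres γ) v⟩

/-- An infinite group has unbounded orbits. -/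
lemma exists_unbounded (hinf : (Set.range B).Infinite) {κ : Fin m → ℝ} (hκ : κ ∈ q.K)
    (hκt : 0 < q.Q κ κ) : ∃ g : ℕ → Γ, Tendsto (fun i => ‖lin (B (g i)) κ‖) atTop atTop := by
  obtain ⟨C, hC, hd⟩ := h.dominate hκ hκt
  have key : ∀ i : ℕ, ∃ γ : Γ, (i : ℝ) ≤ ‖lin (B γ) κ‖ := by
    intro i
    by_contra hcon
    push Not at hcon
    apply hinf
    obtain ⟨N, hN⟩ := exists_nat_ge (C * i)
    refine (Set.finite_Icc (fun _ _ => -(N:ℤ)) (fun _ _ => (N:ℤ)) :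
      (Set.Icc (fun _ _ => -(N:ℤ)) (fun _ _ => (N:ℤ)) :
        Set (Fin m → Fin m → ℤ)).Finite).subset ?_
    rintro _ ⟨γ, rfl⟩
    have h1 : ∀ a b, |((B γ a b : ℤ) : ℝ)| ≤ N := by
      intro a b
      have h2 := hd γ (Pi.single b 1)
      have h3 : ‖(Pi.single b (1:ℝ) : Fin m → ℝ)‖ = 1 := by
        rw [Pi.norm_single, norm_one]
      rw [h3, mul_one] at h2
      have h4 := norm_le_pi_norm (lin (B γ) (Pi.single b 1)) a
      have h5 : lin (B γ) (Pi.single b 1) a = ((B γ a b : ℤ) : ℝ) := by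
        rw [lin_apply, Matrix.mulVec_single_one]
        rfl
      rw [h5, Real.norm_eq_abs] at h4
      have h6 : C * ‖lin (B γ) κ‖ ≤ C * i := mul_le_mul_of_nonneg_left (hcon γ).le hC.le
      linarith
    refine ⟨fun a b => ?_, fun a b => ?_⟩
    · have := (abs_le.1 (h1 a b)).1
      exact_mod_cast this
    · have := (abs_le.1 (h1 a b)).2
      exact_mod_cast this
  choose g hg using key
  exact ⟨g, tendsto_atTop_mono hg tendsto_natCast_atTop_atTop⟩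

omit h in
/-- the limit directions are null -/
lemma null_of_tendsto {v : ℕ → Fin m → ℝ} {c : ℝ} (hv : Tendsto (fun i => ‖v i‖) atTop atTop)
    (hc : ∀ i, q.Q (v i) (v i) = c) {ξ : Fin m → ℝ}
    (hξ : Tendsto (fun i => ‖v i‖⁻¹ • v i) atTop (𝓝 ξ)) : q.Q ξ ξ = 0 := by
  have h1 := q.tendsto hξ hξ
  have h2 : Tendsto (fun i => ‖v i‖⁻¹ * (‖v i‖⁻¹ * c)) atTop (𝓝 0) := by
    have h3 : Tendsto (fun i => ‖v i‖⁻¹) atTop (𝓝 0) := tendsto_inv_atTop_zero.comp hv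
    simpa using h3.mul (h3.mul_const c)
  refine tendsto_nhds_unique (h1.congr fun i => ?_) h2
  simp only [map_smul, LinearMap.smul_apply, smul_eq_mul, hc]

omit h in
/-- an integral vector separating two null vectors -/
lemma exists_separating {ξ ξ₂ : Fin m → ℝ} (hpos : 0 < q.Q ξ ξ₂) (h1 : q.Q ξ ξ = 0)
    (h2 : q.Q ξ₂ ξ₂ = 0) : ∃ k : Fin m → ℤ, 0 < q.Q (iv k) ξ ∧ q.Q (iv k) ξ₂ < 0 := by
  set κ := ξ₂ - ξ with hκ
  have e1 : 0 < q.Q κ ξ := by
    rw [hκ, map_sub, LinearMap.sub_apply, h1, sub_zero, q.symm]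
    exact hpos
  have e2 : q.Q κ ξ₂ < 0 := by
    rw [hκ, map_sub, LinearMap.sub_apply, h2, zero_sub]
    linarith
  have hκ0 : κ ≠ 0 := by
    intro h0
    rw [h0] at e1
    simp at e1
  have hopen : IsOpen ({v | 0 < q.Q v ξ} ∩ {v | q.Q v ξ₂ < 0}) :=
    (isOpen_lt continuous_const (q.cont continuous_id continuous_const)).inter
      (isOpen_lt (q.cont continuous_id continuous_const) continuous_const)
  have hmem : κ ∈ ({v | 0 < q.Q v ξ} ∩ {v | q.Q v ξ₂ < 0}) := ⟨e1, e2⟩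
  obtain ⟨δ, hδ, hball⟩ := Metric.nhds_basis_closedBall.mem_iff.1 (hopen.mem_nhds hmem)
  obtain ⟨k, t, -, ht, hkt⟩ := exists_approx hκ0 hδ
  have h3 : t • iv k ∈ closedBall κ δ := by
    rw [mem_closedBall, dist_eq_norm]
    exact hkt
  obtain ⟨h4, h5⟩ := hball h3
  simp only [mem_ofPred_eq, map_smul, LinearMap.smul_apply, smul_eq_mul] at h4 h5
  refine ⟨k, ?_, ?_⟩
  · exact (mul_pos_iff_of_pos_left ht).1 h4
  · by_contra hlt
    push Not at hlt
    have := mul_nonneg ht.le hlt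
    linarith

/-- **The separating vector and the two sequences.** -/
theorem exists_vector (hinf : (Set.range B).Infinite)
    (hns : ∀ ξ : Fin m → ℝ, ξ ≠ 0 → ∃ γ : Γ, ∀ c : ℝ, lin (B γ) ξ ≠ c • ξ)
    {κ : Fin m → ℝ} (hκ : κ ∈ q.K) (hκt : 0 < q.Q κ κ) :
    ∃ (k : Fin m → ℤ) (g g' : ℕ → Γ),
      Tendsto (fun i => q.Q (iv k) (lin (B (g i)) κ)) atTop atTop ∧
      Tendsto (fun i => q.Q (iv k) (lin (B (g' i)) κ)) atTop atBot := by
  obtain ⟨g, hg⟩ := h.exists_unbounded hinf hκ hκt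
  obtain ⟨φ, ξ, hφ, hξ1, hξ⟩ := exists_direction hg
  have hξ0 : ξ ≠ 0 := by
    intro h0
    rw [h0, norm_zero] at hξ1
    exact zero_ne_one hξ1
  have hgφ : Tendsto (fun i => ‖lin (B (g (φ i))) κ‖) atTop atTop := hg.comp hφ.tendsto_atTop
  have hnull : q.Q ξ ξ = 0 := null_of_tendsto (c := q.Q κ κ) hgφ (fun i => h.isom _ _ _) hξ
  have hmem : ∀ γ : Γ, lin (B γ) κ ∈ q.K := fun γ => h.cone γ κ hκ
  have hξK : ξ ∈ q.K := by
    refine q.closed_K.mem_of_tendsto hξ ?_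
    filter_upwards [hgφ.eventually_gt_atTop 0] with i hi
    exact q.K.smul_mem (inv_pos.2 hi) (hmem _)
  obtain ⟨γ, hγ⟩ := hns ξ hξ0
  have hξ₂K : lin (B γ) ξ ∈ q.K := h.cone γ ξ hξK
  have hξ₂0 : lin (B γ) ξ ≠ 0 := ne_zero γ hξ0
  have hpos : 0 < q.Q ξ (lin (B γ) ξ) := by
    rcases (q.nonneg hξK hξ₂K).lt_or_eq with h1 | h1
    · exact h1
    · exact absurd (q.proportional hξK hξ₂K hξ0 hξ₂0 h1.symm) (hγ _)
  obtain ⟨k, hk1, hk2⟩ := exists_separating hpos hnull (by rw [h.isom]; exact hnull)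
  refine ⟨k, fun i => g (φ i), fun i => γ * g (φ i), ?_, ?_⟩
  · have h1 : Tendsto (fun i => q.Q (iv k) (‖lin (B (g (φ i))) κ‖⁻¹ • lin (B (g (φ i))) κ)) atTop
        (𝓝 (q.Q (iv k) ξ)) := q.tendsto tendsto_const_nhds hξ
    have h2 := hgφ.atTop_mul_pos hk1 h1
    refine h2.congr' ?_
    filter_upwards [hgφ.eventually_gt_atTop 0] with i hi
    rw [map_smul, smul_eq_mul, mul_inv_cancel_left₀ hi.ne']
  · have h1 : Tendsto (fun i => q.Q (iv k) (lin (B γ)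
        (‖lin (B (g (φ i))) κ‖⁻¹ • lin (B (g (φ i))) κ))) atTop
        (𝓝 (q.Q (iv k) (lin (B γ) ξ))) := by
      refine q.tendsto tendsto_const_nhds ?_
      have hc : Continuous (lin (B γ)) := LinearMap.continuous_of_finiteDimensional _
      exact (hc.tendsto ξ).comp hξ
    have h2 := hgφ.atTop_mul_neg hk2 h1
    refine h2.congr' ?_
    filter_upwards [hgφ.eventually_gt_atTop 0] with i hi
    rw [map_smul, map_smul, smul_eq_mul, mul_inv_cancel_left₀ hi.ne', map_mul, lin_mul]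

/-- **The limit of the translated vectors.** -/
theorem exists_null {κ : Fin m → ℝ} (hκ : κ ∈ q.K) (hκt : 0 < q.Q κ κ) {k : Fin m → ℤ}
    {g : ℕ → Γ} (hg : Tendsto (fun i => q.Q (iv k) (lin (B (g i)) κ)) atTop atTop) :
    ∃ (g' : ℕ → Γ) (ξ : Fin m → ℝ), ξ ∈ q.K ∧ ξ ≠ 0 ∧
      Tendsto (fun i => ‖lin (B (g' i)⁻¹) (iv k)‖) atTop atTop ∧
      Tendsto (fun i => ‖lin (B (g' i)⁻¹) (iv k)‖⁻¹ • lin (B (g' i)⁻¹) (iv k)) atTop (𝓝 ξ) ∧
      ∀ u ∈ q.K, 0 < q.Q u u →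
        Tendsto (fun i => q.Q (iv k) (lin (B (g' i)) u)) atTop atTop := by
  have hadj : ∀ (γ : Γ) (u : Fin m → ℝ),
      q.Q (iv k) (lin (B γ) u) = q.Q (lin (B γ⁻¹) (iv k)) u := fun γ u => h.adj γ (iv k) u
  have hn : Tendsto (fun i => ‖lin (B (g i)⁻¹) (iv k)‖) atTop atTop := by
    set L : (Fin m → ℝ) →L[ℝ] ℝ := LinearMap.toContinuousLinearMap (q.Q κ) with hL
    have h1 : ∀ v, q.Q v κ ≤ (‖L‖ + 1) * ‖v‖ := by
      intro v
      have h2 : |q.Q κ v| ≤ ‖L‖ * ‖v‖ := L.le_opNorm v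
      rw [q.symm v κ]
      nlinarith [norm_nonneg v, le_abs_self (q.Q κ v)]
    have h3 : Tendsto (fun i => (‖L‖ + 1)⁻¹ * q.Q (iv k) (lin (B (g i)) κ)) atTop atTop :=
      hg.const_mul_atTop (by positivity)
    refine tendsto_atTop_mono (fun i => ?_) h3
    rw [hadj, inv_mul_le_iff₀ (by positivity)]
    exact h1 _
  obtain ⟨φ, ξ, hφ, hξ1, hξ⟩ := exists_direction hn
  have hξ0 : ξ ≠ 0 := by
    intro h0
    rw [h0, norm_zero] at hξ1
    exact zero_ne_one hξ1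
  have hnφ : Tendsto (fun i => ‖lin (B (g (φ i))⁻¹) (iv k)‖) atTop atTop :=
    hn.comp hφ.tendsto_atTop
  have hnull : q.Q ξ ξ = 0 :=
    null_of_tendsto (c := q.Q (iv k) (iv k)) hnφ (fun i => h.isom _ _ _) hξ
  have hlim : ∀ u, Tendsto (fun i => q.Q (‖lin (B (g (φ i))⁻¹) (iv k)‖⁻¹ •
      lin (B (g (φ i))⁻¹) (iv k)) u) atTop (𝓝 (q.Q ξ u)) := fun u =>
    q.tendsto hξ tendsto_const_nhds
  have hξκ : 0 ≤ q.Q ξ κ := by
    refine ge_of_tendsto (hlim κ) ?_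
    have hgφ : Tendsto (fun i => q.Q (iv k) (lin (B (g (φ i))) κ)) atTop atTop :=
      hg.comp hφ.tendsto_atTop
    filter_upwards [hgφ.eventually_gt_atTop 0, hnφ.eventually_gt_atTop 0] with i hi hi'
    rw [hadj] at hi
    rw [map_smul, LinearMap.smul_apply, smul_eq_mul]
    exact (mul_pos (inv_pos.2 hi') hi).le
  have hξK : ξ ∈ q.K := by
    have h1 := q.ne_zero_of_causal hκ hκt hnull.ge hξ0
    rw [q.symm] at h1
    refine q.mem_of_pos hκ hnull.ge ?_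
    rw [q.symm]
    exact lt_of_le_of_ne hξκ h1.symm
  refine ⟨fun i => g (φ i), ξ, hξK, hξ0, hnφ, hξ, fun u hu hut => ?_⟩
  have hpos : 0 < q.Q ξ u := by
    rw [q.symm]
    exact q.pos_of_timelike hu hut hξK hξ0
  have h2 := hnφ.atTop_mul_pos hpos (hlim u)
  refine h2.congr' ?_
  filter_upwards [hnφ.eventually_gt_atTop 0] with i hi
  rw [map_smul, LinearMap.smul_apply, smul_eq_mul, mul_inv_cancel_left₀ hi.ne', ← hadj]

end LRep

end Pool.Agent.W669.Cone
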