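import Mathlib
import Pool.Agent.W669.Cone.LorA
import Pool.Agent.W669.Cone.LorB

/-! Critical points of integral contact Hamiltonians, Lorentzian monodromy. -/

open scoped Topology ContDiff Manifold
open Set Metric Bundle Filter Pool.Agent.Helper186

noncomputable section

namespace Pool.Agent.W669.Cone

open Pool.Agent.H826R2.Wein

set_option linter.unusedSectionVars false

variable {E : Type*} [NormedAddCommGroup E] [NormedSpace ℝ E] [FiniteDimensional ℝ E]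
  {P : Type*} [TopologicalSpace P] [ChartedSpace E P] [IsManifold 𝓘(ℝ, E) ∞ P]
  {β : (x : P) → TangentSpace 𝓘(ℝ, E) x →L[ℝ] ℝ} {m : ℕ}
  (A : TAct β m) {n : ℕ} {ι : Imm (E := E) P n} {Γ : Type*} [Group Γ] [MulAction Γ P]

/-- a nonnegative contact Hamiltonian is positive -/
lemma pos_of_nonneg [T2Space P] [SigmaCompactSpace P] (hc : IsContact β)
    {R : (x : P) → TangentSpace 𝓘(ℝ, E) x} (hR : IsReeb β R) (𝒟 : Deck ι Γ)
    {κ : Fin m → ℝ} (hκ : κ ≠ 0) (h : ∀ y, 0 ≤ A.H κ y) (y : P) : 0 < A.H κ y := by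
  rcases (h y).lt_or_eq with h0 | h0
  · exact h0
  · exfalso
    have hf := A.smooth_H hc.smooth κ
    obtain ⟨c, hc0, hcc⟩ := 𝒟.complete hf y
    have h1 := hasDerivAt_along (W := ι.V (A.H κ)) (hcc 0) hf
    have h2 : IsLocalMin (fun s => A.H κ (c s)) 0 := by
      refine Filter.Eventually.of_forall fun s => ?_
      show A.H κ (c 0) ≤ A.H κ (c s)
      rw [hc0, ← h0]
      exact h _
    have h3 := h2.hasDerivAt_eq_zero h1
    rw [ι.dForm_V_self, hc0] at h3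
    have h4 := ι.G_nonneg (A.H κ) y
    have h5 : ι.G (A.H κ) y = 0 := by
      rcases div_eq_zero_iff.1 h3 with h | h
      · exact h
      · linarith
    exact A.H_ne_zero_of_crit hc hR hκ (ι.G_eq_zero h5) h0.symm

section

variable {q : Lor m} {B : Γ →* Matrix (Fin m) (Fin m) ℤ}

/-- **The equivariant map to the hyperboloid.** -/
lemma exists_L [T2Space P] (hc : IsContact β) {R : (x : P) → TangentSpace 𝓘(ℝ, E) x}
    (hR : IsReeb β R) (𝒟 : Deck ι Γ)
    (hB : ∀ (γ : Γ) (κ : Fin m → ℝ) (x : P), A.H (lin (B γ) κ) (γ • x) = A.H κ x)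
    (h : LRep q B) : ∃ L : P → (Fin m → ℝ), Continuous L ∧ (∀ y, L y ∈ q.Hy) ∧
      ∀ (γ : Γ) (y : P), L (γ • y) = lin (B γ) (L y) := by
  have : LocallyCompactSpace P := Manifold.locallyCompact_of_finiteDimensional 𝓘(ℝ, E)
  obtain ⟨L, hL, hLm, hmin, huniq⟩ := (qf A (ι := ι) hc hR).exists_minimiser q.convex_Hy
    q.closed_Hy q.exists_Hy
  have hHy : ∀ (γ : Γ), ∀ κ ∈ q.Hy, lin (B γ) κ ∈ q.Hy := fun γ κ hκ =>
    ⟨h.cone γ κ hκ.1, by rw [h.isom]; exact hκ.2⟩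
  have hQe : ∀ (γ : Γ) (κ : Fin m → ℝ) (y : P), A.Q ι (lin (B γ) κ) (γ • y) = A.Q ι κ y :=
    fun γ κ y => A.Q_equiv hc 𝒟 (hB γ) κ y
  refine ⟨L, hL, hLm, fun γ y => ?_⟩
  refine (huniq (γ • y) (lin (B γ) (L y)) (hHy γ _ (hLm y)) fun κ' hκ' => ?_).symm
  show A.Q ι (lin (B γ) (L y)) (γ • y) ≤ A.Q ι κ' (γ • y)
  rw [hQe]
  have h1 := hmin y (lin (B γ⁻¹) κ') (hHy _ _ hκ')
  have h2 := hQe γ (lin (B γ⁻¹) κ') y
  rw [LRep.lin_inv] at h2
  rw [h2]
  exact h1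

/-- the stabiliser of an integral vector -/
def stab (B : Γ →* Matrix (Fin m) (Fin m) ℤ) (k : Fin m → ℤ) : Subgroup Γ where
  carrier := {γ | lin (B γ) (iv k) = iv k}
  mul_mem' := by
    intro a b ha hb
    show lin (B (a * b)) (iv k) = iv k
    rw [map_mul, lin_mul, show lin (B b) (iv k) = iv k from hb, show lin (B a) (iv k) = iv k from ha]
  one_mem' := by
    show lin (B 1) (iv k) = iv k
    rw [map_one, lin_one]
  inv_mem' := by
    intro a ha
    show lin (B a⁻¹) (iv k) = iv k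
    conv_lhs => rw [← show lin (B a) (iv k) = iv k from ha]
    rw [LRep.inv_lin]

lemma mem_stab {k : Fin m → ℤ} {γ : Γ} : γ ∈ stab B k ↔ lin (B γ) (iv k) = iv k := Iff.rfl

/-- **The separating set is small.** -/
lemma small_zero (𝒟 : Deck ι Γ) (h : LRep q B) {L : P → (Fin m → ℝ)} (hL : Continuous L)
    (hLm : ∀ y, L y ∈ q.Hy) (hLe : ∀ (γ : Γ) (y : P), L (γ • y) = lin (B γ) (L y))
    (k : Fin m → ℤ) : SmallRel (stab B k) {y | q.Q (iv k) (L y) = 0} := by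
  classical
  obtain ⟨C, hC, hb⟩ := q.exists_bound (𝒟.compact.image hL) (by
    rintro _ ⟨y, -, rfl⟩
    exact hLm y)
  set r := Real.sqrt (C * |q.Q (iv k) (iv k)|) with hr
  have hfin := finite_iv (m := m) r
  set rep : (Fin m → ℤ) → Γ := fun k' =>
    if hk' : ∃ γ : Γ, im (B γ) k = k' then hk'.choose else 1 with hrep
  have hrep' : ∀ γ : Γ, im (B (rep (im (B γ) k))) k = im (B γ) k := by
    intro γ
    have h1 : ∃ γ' : Γ, im (B γ') k = im (B γ) k := ⟨γ, rfl⟩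
    have h2 : rep (im (B γ) k) = h1.choose := by
      simp only [hrep]
      rw [dif_pos h1]
    rw [h2]
    exact h1.choose_spec
  refine ⟨⋃ k' ∈ {k' : Fin m → ℤ | ‖iv k'‖ ≤ r}, (fun y : P => (rep k')⁻¹ • y) '' 𝒟.D, ?_, ?_⟩
  · exact hfin.isCompact_biUnion fun k' _ => 𝒟.compact.image (𝒟.smooth _).continuous
  · intro y hy
    obtain ⟨γ, hγ⟩ := 𝒟.cover y
    have h1 : iv (im (B γ) k) = lin (B γ) (iv k) := iv_im _ _
    have h2 := hb (L (γ • y)) ⟨_, hγ, rfl⟩ (iv (im (B γ) k))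
    rw [h1, hLe, h.isom, h.isom] at h2
    have hy0 : q.Q (iv k) (L y) = 0 := hy
    rw [hy0, zero_pow two_ne_zero, zero_add] at h2
    have h3 : ‖iv (im (B γ) k)‖ ≤ r := by
      rw [h1]
      exact Real.le_sqrt_of_sq_le h2
    refine ⟨(rep (im (B γ) k))⁻¹ * γ, ?_, ?_⟩
    · rw [mem_stab, map_mul, lin_mul, ← iv_im, ← hrep' γ, iv_im, hrep' γ, LRep.inv_lin]
    · rw [mem_iUnion₂]
      refine ⟨im (B γ) k, h3, γ • y, hγ, ?_⟩
      show (rep (im (B γ) k))⁻¹ • γ • y = ((rep (im (B γ) k))⁻¹ * γ) • y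
      rw [mul_smul]

end

end Pool.Agent.W669.Cone
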