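import Mathlib
import Pool.Agent.W669.Cone.LorC

/-! Critical points of integral contact Hamiltonians, Lorentzian monodromy: the main theorem. -/

open scoped Topology ContDiff Manifold
open Set Metric Bundle Filter Pool.Agent.Helper186

noncomputable section

namespace Pool.Agent.W669.Cone

open Pool.Agent.H826R2.Wein

set_option linter.unusedSectionVars false

variable {E : Type*} [NormedAddCommGroup E] [NormedSpace ℝ E] [FiniteDimensional ℝ E]
  {P : Type*} [TopologicalSpace P] [ChartedSpace E P] [IsManifold 𝓘(ℝ, E) ∞ P]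
  {β : (x : P) → TangentSpace 𝓘(ℝ, E) x →L[ℝ] ℝ} {m : ℕ}
  (A : TAct β m) {n : ℕ} {ι : Imm (E := E) P n} {Γ : Type*} [Group Γ] [MulAction Γ P]
  {q : Lor m} {B : Γ →* Matrix (Fin m) (Fin m) ℤ}

lemma H_lin_inv (hB : ∀ (γ : Γ) (κ : Fin m → ℝ) (x : P), A.H (lin (B γ) κ) (γ • x) = A.H κ x)
    (γ : Γ) (κ : Fin m → ℝ) (y : P) : A.H (lin (B γ⁻¹) κ) y = A.H κ (γ • y) := by
  have h1 := hB γ⁻¹ κ (γ • y)
  rwa [inv_smul_smul] at h1

/-- **The two relative ends and the sign of the Hamiltonian.** -/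
lemma exists_sign [T2Space P] [SigmaCompactSpace P] [PathConnectedSpace P] (hc : IsContact β)
    {R : (x : P) → TangentSpace 𝓘(ℝ, E) x} (hR : IsReeb β R) (𝒟 : Deck ι Γ) (hN : A.Norm Γ)
    (hB : ∀ (γ : Γ) (κ : Fin m → ℝ) (x : P), A.H (lin (B γ) κ) (γ • x) = A.H κ x)
    (h : LRep q B)
    (hno : ∀ k : Fin m → ℤ, k ≠ 0 → ∀ x, dForm 𝓘(ℝ, E) (A.H (TAct.rv k)) x ≠ 0)
    {L : P → (Fin m → ℝ)} (hL : Continuous L) (hLm : ∀ y, L y ∈ q.Hy)
    (hLe : ∀ (γ : Γ) (y : P), L (γ • y) = lin (B γ) (L y)) {k : Fin m → ℤ} (hk : k ≠ 0) (y₀ : P)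
    {g g' : ℕ → Γ}
    (hg : Tendsto (fun i => q.Q (iv k) (lin (B (g i)) (L y₀))) atTop atTop)
    (hg' : Tendsto (fun i => q.Q (iv k) (lin (B (g' i)) (L y₀))) atTop atBot) :
    ∃ ε : ℝ, |ε| = 1 ∧ ∃ b : ℝ, ∀ y, b < q.Q (iv k) (L y) → 0 < ε * A.H (iv k) y := by
  set ψ : P → ℝ := fun y => q.Q (iv k) (L y) with hψ
  have hψc : Continuous ψ := q.cont continuous_const hL
  have hψK : ∀ κ ∈ stab B k, ∀ y, ψ (κ • y) = ψ y := by
    intro κ hκ y
    simp only [hψ]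
    rw [hLe, ← mem_stab.1 hκ, h.isom, mem_stab.1 hκ]
  have hψb : ∀ S : Set P, SmallRel (stab B k) S → ∃ b : ℝ, ∀ y ∈ S, |ψ y| ≤ b := by
    rintro S ⟨S₀, hS₀, hS⟩
    obtain ⟨b, hb⟩ := (hS₀.image hψc.abs).bddAbove
    refine ⟨b, fun y hy => ?_⟩
    obtain ⟨κ, hκ, hκy⟩ := hS y hy
    rw [← hψK κ hκ y]
    exact hb ⟨_, hκy, rfl⟩
  have hE : Rel.TwoEnds (SmallRel (stab B k)) {y | ψ y = 0} {y | 0 < ψ y} {y | ψ y < 0} := by
    refine ⟨small_zero 𝒟 h hL hLm hLe k, isOpen_lt continuous_const hψc,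
      isOpen_lt hψc continuous_const, ?_, ?_, ?_, ?_⟩
    · rw [Set.disjoint_left]
      intro y (h1 : 0 < ψ y) (h2 : ψ y < 0)
      exact lt_asymm h1 h2
    · ext y
      simp only [mem_union, mem_ofPred_eq, mem_compl_iff]
      constructor
      · rintro (h1 | h1)
        · exact h1.ne'
        · exact h1.ne
      · intro h1
        rcases lt_or_gt_of_ne h1 with h2 | h2
        · exact Or.inr h2
        · exact Or.inl h2
    · intro S hS hUS
      obtain ⟨b, hb⟩ := hψb S hS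
      obtain ⟨i, hi⟩ := (hg.eventually_gt_atTop (max b 0)).exists
      rw [← hLe] at hi
      have h1 : 0 < ψ (g i • y₀) := (le_max_right b 0).trans_lt hi
      have h2 := hb _ (hUS h1)
      have h3 : b < ψ (g i • y₀) := (le_max_left b 0).trans_lt hi
      exact absurd ((le_abs_self _).trans h2) (not_le.2 h3)
    · intro S hS hUS
      obtain ⟨b, hb⟩ := hψb S hS
      obtain ⟨i, hi⟩ := (hg'.eventually_lt_atBot (-(max b 0))).exists
      rw [← hLe] at hi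
      have hi' : ψ (g' i • y₀) < -(max b 0) := hi
      have h1 : ψ (g' i • y₀) < 0 := by
        have := le_max_right b 0
        linarith
      have h2 := hb _ (hUS h1)
      have h3 : ψ (g' i • y₀) < -b := by
        have := le_max_left b 0
        linarith
      have h4 := (abs_le.1 h2).1
      linarith
  obtain ⟨F⟩ := 𝒟.exists_push_rel (A.smooth_H hc.smooth (iv k))
    (fun c => A.palaisSmale hc hR 𝒟 hN hno k hk c) (stab B k) (by
      intro κ hκ y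
      have h1 := hB κ (iv k) y
      rwa [mem_stab.1 hκ] at h1)
  have hmain : ∀ (ε : ℝ) (S : Set P), SmallRel (stab B k) S →
      (∀ y, 0 < ψ y → y ∉ S → 0 < ε * A.H (iv k) y) →
      ∃ b : ℝ, ∀ y, b < ψ y → 0 < ε * A.H (iv k) y := by
    intro ε S hS hS2
    obtain ⟨b, hb⟩ := hψb S hS
    refine ⟨max b 0, fun y hy => ?_⟩
    refine hS2 y ((le_max_right b 0).trans_lt hy) fun hyS => ?_
    have h1 := hb y hyS
    have h2 := (le_max_left b 0).trans_lt hy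
    exact absurd ((le_abs_self _).trans h1) (not_le.2 h2)
  rcases F.dich (A.smooth_H hc.smooth _).continuous hE with hd | hd
  · obtain ⟨S, hS, h1, -⟩ := hd 0
    refine ⟨1, by norm_num, hmain 1 S hS fun y hy hyS => ?_⟩
    rw [one_mul]
    exact h1 y hy hyS
  · obtain ⟨S, hS, -, h1⟩ := hd 0
    refine ⟨-1, by norm_num, hmain (-1) S hS fun y hy hyS => ?_⟩
    have := h1 y hy hyS
    linarith

/-- **A timelike vector in the cone of nonnegative Hamiltonians gives a contradiction.** -/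
lemma contra_of_timelike [T2Space P] [SigmaCompactSpace P] [Nonempty P] (hc : IsContact β)
    {R : (x : P) → TangentSpace 𝓘(ℝ, E) x} (hR : IsReeb β R) (𝒟 : Deck ι Γ) (hN : A.Norm Γ)
    (hB : ∀ (γ : Γ) (κ : Fin m → ℝ) (x : P), A.H (lin (B γ) κ) (γ • x) = A.H κ x)
    (h : LRep q B)
    (hno : ∀ k : Fin m → ℤ, k ≠ 0 → ∀ x, dForm 𝓘(ℝ, E) (A.H (TAct.rv k)) x ≠ 0)
    {ε : ℝ} (hε : |ε| = 1) {κ₀ : Fin m → ℝ} (hκ₀ : κ₀ ∈ q.K) (hκ₀t : 0 < q.Q κ₀ κ₀)
    (hnn : ∀ y, 0 ≤ ε * A.H κ₀ y) : False := by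
  have hβ := hc.smooth
  have hε0 : ε ≠ 0 := by
    intro h0
    rw [h0, abs_zero] at hε
    exact zero_ne_one hε
  have hκ₀0 : κ₀ ≠ 0 := by
    intro h0
    rw [h0] at hκ₀t
    simp at hκ₀t
  set 𝒦 : Set (Fin m → ℝ) := {κ | ∀ y, 0 ≤ ε * A.H κ y} with h𝒦
  have hcontH : Continuous (fun p : P × (Fin m → ℝ) => ε * A.H p.2 p.1) :=
    continuous_const.mul (A.continuous_H hβ)
  have hclosed : IsClosed 𝒦 := by
    have e : 𝒦 = ⋂ y : P, {κ | 0 ≤ ε * A.H κ y} := by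
      ext κ
      simp [h𝒦]
    rw [e]
    refine isClosed_iInter fun y => isClosed_le continuous_const ?_
    have h1 : Continuous (fun κ : Fin m → ℝ => (y, κ)) := by fun_prop
    exact hcontH.comp h1
  have hinv : ∀ κ ∈ 𝒦, ∀ γ : Γ, lin (B γ) κ ∈ 𝒦 := by
    intro κ hκ γ y
    have h1 := H_lin_inv A hB γ⁻¹ κ y
    rw [inv_inv] at h1
    rw [h1]
    exact hκ _
  have hsm : ∀ κ ∈ 𝒦, ∀ t : ℝ, 0 ≤ t → t • κ ∈ 𝒦 := by
    intro κ hκ t ht y
    rw [A.H_smul]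
    have := mul_nonneg ht (hκ y)
    linarith
  have hpos : ∀ κ ∈ 𝒦, κ ≠ 0 → ∀ y, 0 < ε * A.H κ y := by
    intro κ hκ h0 y
    rw [← A.H_smul]
    refine pos_of_nonneg A hc hR 𝒟 (smul_ne_zero hε0 h0) (fun z => ?_) y
    rw [A.H_smul]
    exact hκ z
  -- uniform positivity
  obtain ⟨δ, hδ, hδ2⟩ : ∃ δ > (0:ℝ), ∀ y ∈ 𝒟.D, ∀ κ ∈ 𝒦, δ * ‖κ‖ ≤ ε * A.H κ y := by
    have hcpt : IsCompact (𝒟.D ×ˢ (𝒦 ∩ sphere (0 : Fin m → ℝ) 1)) :=
      𝒟.compact.prod ((isCompact_sphere _ _).inter_left hclosed)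
    obtain ⟨δ, hδ, hmin⟩ : ∃ δ > (0:ℝ), ∀ p ∈ 𝒟.D ×ˢ (𝒦 ∩ sphere (0 : Fin m → ℝ) 1),
        δ ≤ ε * A.H p.2 p.1 := by
      rcases (𝒟.D ×ˢ (𝒦 ∩ sphere (0 : Fin m → ℝ) 1)).eq_empty_or_nonempty with he | hne
      · exact ⟨1, one_pos, fun p hp => by rw [he] at hp; exact hp.elim⟩
      · obtain ⟨p, hp, hmin⟩ := hcpt.exists_isMinOn hne hcontH.continuousOn
        refine ⟨ε * A.H p.2 p.1, hpos _ hp.2.1 ?_ _, fun r hr => hmin hr⟩
        intro h0
        have := hp.2.2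
        rw [h0, mem_sphere_zero_iff_norm, norm_zero] at this
        exact zero_ne_one this
    refine ⟨δ, hδ, fun y hy κ hκ => ?_⟩
    by_cases h0 : κ = 0
    · rw [h0, norm_zero, mul_zero]
      have := hκ y
      rwa [h0] at this
    · have hn : 0 < ‖κ‖ := norm_pos_iff.2 h0
      have h1 := hmin (y, ‖κ‖⁻¹ • κ) ⟨hy, hsm κ hκ _ (inv_nonneg.2 hn.le), by
        rw [mem_sphere_zero_iff_norm, _root_.norm_smul, norm_inv, norm_norm,
          inv_mul_cancel₀ hn.ne']⟩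
      have h2 : ε * A.H (‖κ‖⁻¹ • κ) y = (ε * A.H κ y) / ‖κ‖ := by
        rw [A.H_smul]
        field_simp
      rw [h2, le_div_iff₀ hn] at h1
      exact h1
  obtain ⟨M, hM, hQup⟩ := A.exists_Q_upper (ι := ι) hβ 𝒟.compact
  have hup : ∀ y ∈ 𝒟.D, ∀ v : Fin m → ℝ, |A.H v y| ≤ Real.sqrt M * ‖v‖ := by
    intro y hy v
    have h1 := hQup y hy v
    have h2 : (A.H v y) ^ 2 ≤ M * ‖v‖ ^ 2 := by
      have h3 := ι.G_nonneg (A.H v) y
      have h4 : A.Q ι v y = ι.G (A.H v) y + (A.H v y) ^ 2 := rfl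
      linarith
    have h5 : |A.H v y| ^ 2 ≤ (Real.sqrt M * ‖v‖) ^ 2 := by
      rw [sq_abs, mul_pow, Real.sq_sqrt hM.le]
      exact h2
    exact le_of_sq_le_sq h5 (by positivity)
  obtain ⟨C, hC, hdom⟩ := h.dominate hκ₀ hκ₀t
  set s := Real.sqrt M with hs
  have hs0 : 0 < s := Real.sqrt_pos.2 hM
  obtain ⟨k, t, hk, ht, hkt⟩ := exists_approx hκ₀0 (δ := δ / (2 * s * C)) (by positivity)
  have hkpos : ∀ y, 0 < ε * A.H (TAct.rv k) y := by
    intro y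
    obtain ⟨γ, hγ⟩ := 𝒟.cover y
    set v := t • TAct.rv k - κ₀ with hv
    have e1 : ε * A.H (t • TAct.rv k) y = ε * A.H (lin (B γ) κ₀) (γ • y) +
        ε * A.H (lin (B γ) v) (γ • y) := by
      rw [hB, hB, ← mul_add, ← A.H_add, hv, add_sub_cancel]
    have h1 := hδ2 _ hγ _ (hinv κ₀ hnn γ)
    have h2 := hup _ hγ (lin (B γ) v)
    have h3 := hdom γ v
    have h4 : ‖v‖ ≤ δ / (2 * s * C) := hkt
    have h5 : -(s * ‖lin (B γ) v‖) ≤ ε * A.H (lin (B γ) v) (γ • y) := by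
      have h6 : |ε * A.H (lin (B γ) v) (γ • y)| ≤ s * ‖lin (B γ) v‖ := by
        rw [abs_mul, hε, one_mul]
        exact h2
      exact (abs_le.1 h6).1
    have hn : 0 < ‖lin (B γ) κ₀‖ := norm_pos_iff.2 (LRep.ne_zero γ hκ₀0)
    have h6 : s * ‖lin (B γ) v‖ ≤ δ / 2 * ‖lin (B γ) κ₀‖ := by
      calc s * ‖lin (B γ) v‖ ≤ s * (C * ‖v‖ * ‖lin (B γ) κ₀‖) :=
            mul_le_mul_of_nonneg_left h3 hs0.le
        _ ≤ s * (C * (δ / (2 * s * C)) * ‖lin (B γ) κ₀‖) := by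
            apply mul_le_mul_of_nonneg_left _ hs0.le
            apply mul_le_mul_of_nonneg_right _ hn.le
            exact mul_le_mul_of_nonneg_left h4 hC.le
        _ = _ := by field_simp
    have h7 : 0 < ε * A.H (t • TAct.rv k) y := by
      rw [e1]
      have := mul_pos (half_pos hδ) hn
      have h8 : δ / 2 * ‖lin (B γ) κ₀‖ + δ / 2 * ‖lin (B γ) κ₀‖ = δ * ‖lin (B γ) κ₀‖ := by ring
      linarith
    have h8 : ε * A.H (t • TAct.rv k) y = t * (ε * A.H (TAct.rv k) y) := by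
      rw [A.H_smul]; ring
    rw [h8] at h7
    exact (mul_pos_iff_of_pos_left ht).1 h7
  obtain ⟨F⟩ := 𝒟.exists_push (A.smooth_H hβ (TAct.rv k))
    (fun c => A.palaisSmale hc hR 𝒟 hN hno k hk c)
  obtain ⟨y⟩ := ‹Nonempty P›
  rcases (abs_eq one_pos.le).1 hε with h1 | h1
  · obtain ⟨T, -, hT⟩ := F.neg.push |A.H (TAct.rv k) y|
    have h2 := hT y (neg_le_neg (le_abs_self _))
    have h3 := hkpos (F.neg.Fl y T)
    rw [h1, one_mul] at h3
    have h4 := abs_nonneg (A.H (TAct.rv k) y)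
    linarith
  · obtain ⟨T, -, hT⟩ := F.push |A.H (TAct.rv k) y|
    have h2 := hT y (neg_abs_le _)
    have h3 := hkpos (F.Fl y T)
    rw [h1] at h3
    have h4 := abs_nonneg (A.H (TAct.rv k) y)
    linarith

/-- **Critical points, Lorentzian monodromy preserving the time orientation.** -/
theorem exists_crit_lorentz [T2Space P] [SigmaCompactSpace P] [PathConnectedSpace P]
    (hc : IsContact β) {R : (x : P) → TangentSpace 𝓘(ℝ, E) x} (hR : IsReeb β R) (𝒟 : Deck ι Γ)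
    (hN : A.Norm Γ)
    (hB : ∀ (γ : Γ) (κ : Fin m → ℝ) (x : P), A.H (lin (B γ) κ) (γ • x) = A.H κ x)
    (h : LRep q B) :
    ∃ k : Fin m → ℤ, k ≠ 0 ∧ ∃ x, dForm 𝓘(ℝ, E) (A.H (TAct.rv k)) x = 0 := by
  by_contra hno'
  have hno := hno'
  push Not at hno
  have hns : ∀ ξ : Fin m → ℝ, ξ ≠ 0 → ∃ γ : Γ, ∀ c : ℝ, lin (B γ) ξ ≠ c • ξ := by
    intro ξ hξ
    by_contra hcon
    push Not at hcon
    exact hno' (exists_crit_of_semi A hc hR 𝒟 hN B hB hξ hcon)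
  have hm := q.m_pos
  obtain ⟨L, hL, hLm, hLe⟩ := exists_L A hc hR 𝒟 hB h
  obtain ⟨y₀⟩ := (inferInstance : Nonempty P)
  rcases Set.finite_or_infinite (range B) with hfin | hinf
  · set k₀ : Fin m → ℤ := fun _ => 1 with hk₀
    have hk₀0 : k₀ ≠ 0 := by
      intro h0
      have := congrFun h0 ⟨0, hm⟩
      simp [hk₀] at this
    refine hno' (A.exists_crit_of_finite hc hR 𝒟 hN hk₀0
      (hfin.image (fun M => im M k₀)) fun γ => ⟨im (B γ) k₀, ⟨B γ, ⟨γ, rfl⟩, rfl⟩, fun x => ?_⟩)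
    have h1 : (TAct.rv (im (B γ) k₀) : Fin m → ℝ) = lin (B γ) (TAct.rv k₀) := iv_im _ _
    rw [h1, hB]
  · have hy0t : 0 < q.Q (L y₀) (L y₀) := lt_of_lt_of_le one_pos (hLm y₀).2
    obtain ⟨k, g, g', hg, hg'⟩ := h.exists_vector hinf hns (hLm y₀).1 hy0t
    have hk : k ≠ 0 := by
      intro h0
      obtain ⟨i, hi⟩ := (hg.eventually_gt_atTop 0).exists
      have h1 : (iv k : Fin m → ℝ) = 0 := by
        ext j
        simp [iv, h0]
      rw [h1] at hi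
      simp at hi
    obtain ⟨ε, hε, b, hb⟩ := exists_sign A hc hR 𝒟 hN hB h hno hL hLm hLe hk y₀ hg hg'
    obtain ⟨g₁, ξ, hξK, hξ0, hn, hξ, hall⟩ := h.exists_null (hLm y₀).1 hy0t hg
    have hξnn : ∀ y, 0 ≤ ε * A.H ξ y := by
      intro y
      have hcont : Continuous (fun κ : Fin m → ℝ => ε * A.H κ y) := by
        have h1 : Continuous (fun κ : Fin m → ℝ => (y, κ)) := by fun_prop
        exact continuous_const.mul ((A.continuous_H hc.smooth).comp h1)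
      refine ge_of_tendsto ((hcont.tendsto ξ).comp hξ) ?_
      have h2 := hall (L y) (hLm y).1 (lt_of_lt_of_le one_pos (hLm y).2)
      filter_upwards [h2.eventually_gt_atTop b, hn.eventually_gt_atTop 0] with i hi hi'
      rw [← hLe] at hi
      have h3 := hb _ hi
      rw [Function.comp, A.H_smul, H_lin_inv A hB]
      have h4 := mul_pos (inv_pos.2 hi') h3
      refine (h4.trans_eq ?_).le
      ring
    obtain ⟨γ, hγ⟩ := hns ξ hξ0
    refine contra_of_timelike A hc hR 𝒟 hN hB h hno hε (κ₀ := ξ + lin (B γ) ξ)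
      (q.K.add_mem hξK (h.cone γ ξ hξK))
      (q.timelike_add hξK (h.cone γ ξ hξK) hξ0 (LRep.ne_zero γ hξ0) hγ) fun y => ?_
    rw [A.H_add, mul_add]
    refine add_nonneg (hξnn y) ?_
    have h1 := H_lin_inv A hB γ⁻¹ ξ y
    rw [inv_inv] at h1
    rw [h1]
    exact hξnn _

end Pool.Agent.W669.Cone
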