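import Mathlib
import Pool.Agent.W669.Cone.LorD
import Pool.Agent.H826R2.Wein.Main4

/-! Closed Reeb orbits for contact forms with a local torus symmetry whose monodromy preserves a
Lorentzian form. -/

open scoped Topology ContDiff Manifold
open Set Metric Bundle Filter Pool.Agent.Helper186

noncomputable section

namespace Pool.Agent.W669.Cone

open Pool.Agent.H826R2.Wein

set_option linter.unusedSectionVars false

section

variable {E : Type*} [NormedAddCommGroup E] [NormedSpace ℝ E] [FiniteDimensional ℝ E]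
  {P : Type*} [TopologicalSpace P] [ChartedSpace E P] [IsManifold 𝓘(ℝ, E) ∞ P]
  {β : (x : P) → TangentSpace 𝓘(ℝ, E) x →L[ℝ] ℝ} {m : ℕ}
  (A : TAct β m) {n : ℕ} {ι : Imm (E := E) P n} {Γ : Type*} [Group Γ] [MulAction Γ P]

/-- the elements preserving the time orientation -/
lemma exists_orient {q : Lor m} {B : Γ →* Matrix (Fin m) (Fin m) ℤ}
    (hiso : ∀ (γ : Γ) (u v : Fin m → ℝ), q.Q (lin (B γ) u) (lin (B γ) v) = q.Q u v) :
    ∃ Γ₁ : Subgroup Γ, Γ₁.FiniteIndex ∧ ∀ γ ∈ Γ₁, ∀ u ∈ q.K, lin (B γ) u ∈ q.K := by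
  classical
  have hneg : ∀ γ, ¬ (∀ u ∈ q.K, lin (B γ) u ∈ q.K) → ∀ u ∈ q.K, - lin (B γ) u ∈ q.K := fun γ hγ =>
    (q.sign (hiso γ)).resolve_left hγ
  have hnot : ∀ γ, (∀ u ∈ q.K, - lin (B γ) u ∈ q.K) → ¬ (∀ u ∈ q.K, lin (B γ) u ∈ q.K) := by
    intro γ h1 h2
    have h3 := (h1 _ q.e_mem).2
    have h4 := (h2 _ q.e_mem).2
    rw [map_neg] at h3
    have h5 : q.Q q.e (lin (B γ) q.e) = 0 := by linarith
    have h6 := q.neg _ h5 (LRep.ne_zero γ q.e_ne)
    rw [hiso] at h6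
    exact lt_asymm h6 q.pos
  have hm1 : ∀ a b, (∀ u ∈ q.K, lin (B a) u ∈ q.K) → (∀ u ∈ q.K, lin (B b) u ∈ q.K) →
      (∀ u ∈ q.K, lin (B (a * b)) u ∈ q.K) := by
    intro a b ha hb u hu
    rw [map_mul, lin_mul]
    exact ha _ (hb u hu)
  have hone : ∀ u ∈ q.K, lin (B 1) u ∈ q.K := by
    intro u hu
    rw [map_one, lin_one]
    exact hu
  have hinv : ∀ a, (∀ u ∈ q.K, lin (B a) u ∈ q.K) → (∀ u ∈ q.K, lin (B a⁻¹) u ∈ q.K) := by
    intro a ha
    by_contra hcon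
    have h1 := hneg _ hcon
    have h2 : ∀ u ∈ q.K, - lin (B (a * a⁻¹)) u ∈ q.K := by
      intro u hu
      rw [map_mul, lin_mul, ← map_neg]
      exact ha _ (h1 u hu)
    rw [mul_inv_cancel] at h2
    exact hnot _ h2 hone
  let Γ₁ : Subgroup Γ :=
    { carrier := {γ | ∀ u ∈ q.K, lin (B γ) u ∈ q.K}
      mul_mem' := fun {a b} ha hb => hm1 a b ha hb
      one_mem' := hone
      inv_mem' := fun {a} ha => hinv a ha }
  refine ⟨Γ₁, ?_, fun γ hγ => hγ⟩
  by_cases h : ∃ a : Γ, a ∉ Γ₁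
  · obtain ⟨a, ha⟩ := h
    have h2 : Γ₁.index = 2 := by
      rw [Subgroup.index_eq_two_iff]
      refine ⟨a, fun b => ?_⟩
      have ha' := hneg a ha
      by_cases hb : b ∈ Γ₁
      · refine Or.inr ⟨hb, fun hba => ?_⟩
        refine hnot (b * a) (fun u hu => ?_) hba
        rw [map_mul, lin_mul, ← map_neg]
        exact hb _ (ha' u hu)
      · refine Or.inl ⟨fun u hu => ?_, hb⟩
        rw [map_mul, lin_mul]
        have h1 := hneg b hb _ (ha' u hu)
        rwa [map_neg, neg_neg] at h1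
    exact ⟨by rw [h2]; norm_num⟩
  · push Not at h
    have h2 : Γ₁ = ⊤ := by
      rw [eq_top_iff]
      exact fun γ _ => h γ
    rw [h2]
    infer_instance

/-- **Critical points, Lorentzian monodromy.** -/
theorem exists_crit_lorentz' [T2Space P] [SigmaCompactSpace P] [PathConnectedSpace P]
    (hc : IsContact β) {R : (x : P) → TangentSpace 𝓘(ℝ, E) x} (hR : IsReeb β R) (𝒟 : Deck ι Γ)
    (hN : A.Norm Γ) (q : Lor m)
    (hQ : ∀ γ : Γ, ∃ C : Matrix (Fin m) (Fin m) ℤ,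
      (∀ (κ : Fin m → ℝ) (x : P), A.H (lin C κ) (γ • x) = A.H κ x) ∧
      ∀ u v, q.Q (lin C u) (lin C v) = q.Q u v) :
    ∃ k : Fin m → ℤ, k ≠ 0 ∧ ∃ x, dForm 𝓘(ℝ, E) (A.H (TAct.rv k)) x = 0 := by
  obtain ⟨B, hB⟩ := A.exists_monodromy hc hR 𝒟 hN
  have hB' : ∀ (γ : Γ) (κ : Fin m → ℝ) (x : P), A.H (lin (B γ) κ) (γ • x) = A.H κ x := hB
  have hiso : ∀ (γ : Γ) (u v : Fin m → ℝ), q.Q (lin (B γ) u) (lin (B γ) v) = q.Q u v := by
    intro γ
    obtain ⟨C, hC, hCQ⟩ := hQ γ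
    have e : ∀ κ, lin C κ = lin (B γ) κ := by
      intro κ
      rw [← sub_eq_zero]
      apply A.H_inj ι hc hR
      intro y
      rw [A.H_sub]
      have h1 := hC κ (γ⁻¹ • y)
      have h2 := hB' γ κ (γ⁻¹ • y)
      rw [smul_inv_smul] at h1 h2
      rw [h1, h2, sub_self]
    intro u v
    rw [← e, ← e]
    exact hCQ u v
  obtain ⟨Γ₁, hfi, hΓ₁⟩ := exists_orient hiso
  have hrep : LRep q (B.comp Γ₁.subtype) :=
    ⟨fun γ u v => hiso (γ : Γ) u v, fun γ u hu => hΓ₁ γ γ.2 u hu⟩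
  have hN' : A.Norm Γ₁ := ⟨fun γ x u => hN.strict (γ : Γ) x u, fun γ => hN.norm (γ : Γ)⟩
  have hB1 : ∀ (γ : Γ₁) (κ : Fin m → ℝ) (x : P),
      A.H (lin ((B.comp Γ₁.subtype) γ) κ) (γ • x) = A.H κ x := fun γ κ x => hB' (γ : Γ) κ x
  exact exists_crit_lorentz (B := B.comp Γ₁.subtype) A hc hR (𝒟.restrict Γ₁ hfi) hN' hB1 hrep

variable {M : Type*} [TopologicalSpace M] [ChartedSpace E M] [IsManifold 𝓘(ℝ, E) ∞ M]

/-- **Closed orbits, virtually Lorentzian monodromy.** -/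
theorem exists_closed_orbit_lorentz [T2Space M] [CompactSpace M]
    {α : (x : M) → TangentSpace 𝓘(ℝ, E) x →L[ℝ] ℝ} (hα : IsContact α)
    {R : (x : M) → TangentSpace 𝓘(ℝ, E) x} (hR : IsReeb α R)
    [T2Space P] [SigmaCompactSpace P] [ConnectedSpace P]
    {Γ : Type*} [Group Γ] [MulAction Γ P] {q : P → M} (hq : RegCover (E := E) q Γ)
    (A : TAct (pullForm 𝓘(ℝ, E) 𝓘(ℝ, E) q α) m) (L : Lor m)
    (hA₀ : ∀ γ : Γ, ∃ B : Matrix (Fin m) (Fin m) ℤ, ∀ (θ : Fin m → ℝ) (x : P),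
      γ • A.act θ x = A.act ((B.map (Int.cast : ℤ → ℝ)).mulVec θ) (γ • x))
    (Γ₀ : Subgroup Γ) (hΓ₀ : Γ₀.FiniteIndex)
    (hA : ∀ γ ∈ Γ₀, ∃ B : Matrix (Fin m) (Fin m) ℤ, (∀ (θ : Fin m → ℝ) (x : P),
      γ • A.act θ x = A.act ((B.map (Int.cast : ℤ → ℝ)).mulVec θ) (γ • x)) ∧
      ∀ u v, L.Q ((B.map (Int.cast : ℤ → ℝ)).mulVec u) ((B.map (Int.cast : ℤ → ℝ)).mulVec v) =
        L.Q u v) :
    ∃ (c : ℝ → M) (T : ℝ), 0 < T ∧ IsMIntegralCurve (I := 𝓘(ℝ, E)) c R ∧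
      ∀ t, c (t + T) = c t := by
  have : LocallyPathConnectedSpace P := ChartedSpace.locallyPathConnectedSpace E P
  have : PathConnectedSpace P := pathConnectedSpace_iff_connectedSpace.2 inferInstance
  obtain ⟨N, ι, ⟨𝒟⟩⟩ := hq.exists_deck
  have hN : A.Norm Γ := ⟨hq.strict α, hA₀⟩
  have hN' : A.Norm Γ₀ := ⟨fun γ x u => hN.strict (γ : Γ) x u, fun γ => hN.norm (γ : Γ)⟩
  have hcP := hq.isContact_pull hα
  have hRP := hq.isReeb_lift hα hR
  apply hq.closed_proj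
  obtain ⟨k, hk, y, hy⟩ := exists_crit_lorentz' A hcP hRP (𝒟.restrict Γ₀ hΓ₀) hN' L
    (fun γ => by
      obtain ⟨B, hB, hBQ⟩ := hA γ γ.2
      refine ⟨B, fun κ x => ?_, hBQ⟩
      refine A.H_push ((𝒟.restrict Γ₀ hΓ₀).smooth γ) ?_ (hN'.strict γ) x
      intro t y
      unfold TAct.fam
      show (γ : Γ) • A.act (t • κ) y = A.act (t • lin B κ) ((γ : Γ) • y)
      rw [hB, Matrix.mulVec_smul]
      rfl)
  exact A.closed_of_crit hcP hRP hk hy

end

end Pool.Agent.W669.Cone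

namespace Pool.Agent.W669.LorStmt

open Pool.Agent.H826R2.WStmt

set_option linter.unusedSectionVars false

universe u

variable {E : Type u} [NormedAddCommGroup E] [NormedSpace ℝ E] [FiniteDimensional ℝ E]
  {M : Type*} [TopologicalSpace M] [ChartedSpace E M] [IsManifold 𝓘(ℝ, E) ∞ M]
  {P : Type*} [TopologicalSpace P] [ChartedSpace E P] [IsManifold 𝓘(ℝ, E) ∞ P]

/-- The bilinear form on `ℝ^m` with the matrix `G`. -/
def form {m : ℕ} (G : Matrix (Fin m) (Fin m) ℝ) (u v : Fin m → ℝ) : ℝ :=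
  ∑ i, ∑ j, G i j * u i * v j

/-- The bilinear form with the matrix `G` is symmetric and Lorentzian, of signature `(1, m - 1)`: it
is positive on some vector `e` and negative definite on the orthogonal complement of `e`. -/
structure IsLorentzian {m : ℕ} (G : Matrix (Fin m) (Fin m) ℝ) : Prop where
  symm : ∀ i j, G i j = G j i
  signature : ∃ e : Fin m → ℝ, 0 < form G e e ∧ ∀ v, form G e v = 0 → v ≠ 0 → form G v v < 0

/-- The monodromy of the torus action virtually preserves the bilinear form with the matrix `G`: for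
all elements `γ` of a subgroup of finite index of `Γ` one has `γ (θ x) = (B θ) (γ x)` with an integer
matrix `B` depending on `γ` such that `form G (B u) (B v) = form G u v` for all `u`, `v`. -/
def MonodromyPreservesForm (Γ : Type*) [Group Γ] [MulAction Γ P] {m : ℕ}
    (act : (Fin m → ℝ) → P → P) (G : Matrix (Fin m) (Fin m) ℝ) : Prop :=
  ∃ Γ₀ : Subgroup Γ, Γ₀.FiniteIndex ∧ ∀ γ ∈ Γ₀, ∃ B : Matrix (Fin m) (Fin m) ℤ,
    (∀ (θ : Fin m → ℝ) (x : P), γ • act θ x = act (fun i => ∑ j, (B i j : ℝ) * θ j) (γ • x)) ∧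
    ∀ u v : Fin m → ℝ, form G (fun i => ∑ j, (B i j : ℝ) * u j) (fun i => ∑ j, (B i j : ℝ) * v j) =
      form G u v

/-- the bilinear map -/
def bil {m : ℕ} (G : Matrix (Fin m) (Fin m) ℝ) :
    (Fin m → ℝ) →ₗ[ℝ] (Fin m → ℝ) →ₗ[ℝ] ℝ :=
  LinearMap.mk₂ ℝ (form G)
    (by intro a b c; simp only [form, Pi.add_apply, mul_add, add_mul, Finset.sum_add_distrib])
    (by
      intro c a b
      simp only [form, Pi.smul_apply, smul_eq_mul, Finset.mul_sum]
      exact Finset.sum_congr rfl fun i _ => Finset.sum_congr rfl fun j _ => by ring)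
    (by intro a b c; simp only [form, Pi.add_apply, mul_add, Finset.sum_add_distrib])
    (by
      intro c a b
      simp only [form, Pi.smul_apply, smul_eq_mul, Finset.mul_sum]
      exact Finset.sum_congr rfl fun i _ => Finset.sum_congr rfl fun j _ => by ring)

theorem exists_periodic_lorentz [T2Space M] [CompactSpace M]
    (α : M → Cov E) (hα : IsContact α) (R : M → E) (hR : IsReeb α R)
    [T2Space P] [SigmaCompactSpace P] [ConnectedSpace P]
    {Γ : Type*} [Group Γ] [MulAction Γ P] (q : P → M) (hq : IsQuotientMap E q Γ)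
    {m : ℕ} (A : TorusAction (pull (E := E) q α) m) (hA : Normalises Γ A.act)
    (G : Matrix (Fin m) (Fin m) ℝ) (hG : IsLorentzian G)
    (hAG : MonodromyPreservesForm Γ A.act G) :
    ∃ (c : ℝ → M) (T : ℝ), IsPeriodicOrbit R c T := by
  obtain ⟨e, he, hn⟩ := hG.signature
  obtain ⟨Γ₀, hΓ₀, hAG⟩ := hAG
  let L : Pool.Agent.W669.Cone.Lor m :=
    { Q := bil G
      symm := by
        intro u v
        show form G u v = form G v u
        unfold form
        rw [Finset.sum_comm]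
        refine Finset.sum_congr rfl fun i _ => Finset.sum_congr rfl fun j _ => ?_
        rw [hG.symm j i]
        ring
      e := e
      pos := he
      neg := hn }
  obtain ⟨c, T, h1, h2, h3⟩ := Pool.Agent.W669.Cone.exists_closed_orbit_lorentz hα.toWein
    hR.toWein hq.toWein A.toWein L hA Γ₀ hΓ₀ hAG
  exact ⟨c, T, h1, h2, h3⟩

end Pool.Agent.W669.LorStmt
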