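import Mathlib
import Pool.Agent.W669.Cone.LorC

/-! Two ends relative to the stabiliser of an integral vector: the limit directions of its orbit. -/

open scoped Topology ContDiff Manifold
open Set Metric Bundle Filter Pool.Agent.Helper186

noncomputable section

namespace Pool.Agent.W669.Cone

open Pool.Agent.H826R2.Wein

set_option linter.unusedSectionVars false

variable {E : Type*} [NormedAddCommGroup E] [NormedSpace ℝ E] [FiniteDimensional ℝ E]
  {P : Type*} [TopologicalSpace P] [ChartedSpace E P] [IsManifold 𝓘(ℝ, E) ∞ P]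
  {β : (x : P) → TangentSpace 𝓘(ℝ, E) x →L[ℝ] ℝ} {m : ℕ}
  (A : TAct β m) {n : ℕ} {ι : Imm (E := E) P n} {Γ : Type*} [Group Γ] [MulAction Γ P]
  {B : Γ →* Matrix (Fin m) (Fin m) ℤ}

lemma H_inv_lin (hB : ∀ (γ : Γ) (κ : Fin m → ℝ) (x : P), A.H (lin (B γ) κ) (γ • x) = A.H κ x)
    (γ : Γ) (κ : Fin m → ℝ) (y : P) : A.H (lin (B γ) κ) y = A.H κ (γ⁻¹ • y) := by
  have h1 := hB γ κ (γ⁻¹ • y)
  rwa [smul_inv_smul] at h1

/-- **Hamiltonians of the orbit are large on compact sets.** -/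
lemma orbit_bound [T2Space P] [SigmaCompactSpace P] [PathConnectedSpace P] (hc : IsContact β)
    {R : (x : P) → TangentSpace 𝓘(ℝ, E) x} (hR : IsReeb β R) (𝒟 : Deck ι Γ) (hN : A.Norm Γ)
    (hB : ∀ (γ : Γ) (κ : Fin m → ℝ) (x : P), A.H (lin (B γ) κ) (γ • x) = A.H κ x)
    (hno : ∀ k : Fin m → ℤ, k ≠ 0 → ∀ x, dForm 𝓘(ℝ, E) (A.H (TAct.rv k)) x ≠ 0)
    {k : Fin m → ℤ} (hk : k ≠ 0) {C U V : Set P} (hE : Rel.TwoEnds (SmallRel (stab B k)) C U V)
    (c : ℝ) {D : Set P} (hD : IsCompact D) :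
    ∃ r : ℝ, ∀ y ∈ D, ∀ γ : Γ, |A.H (lin (B γ) (iv k)) y| ≤ c → ‖lin (B γ) (iv k)‖ ≤ r := by
  obtain ⟨F⟩ := 𝒟.exists_push_rel (A.smooth_H hc.smooth (iv k))
    (fun c => A.palaisSmale hc hR 𝒟 hN hno k hk c) (stab B k) (by
      intro κ hκ y
      have h1 := hB κ (iv k) y
      rwa [mem_stab.1 hκ] at h1)
  -- the sublevel set is small
  have hsmall : SmallRel (stab B k) {x | |A.H (iv k) x| ≤ c} := by
    have key : ∀ S : Set P, SmallRel (stab B k) S →
        (∀ x, (x ∈ U ∨ x ∈ V) → x ∉ S → c < |A.H (iv k) x|) →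
        SmallRel (stab B k) {x | |A.H (iv k) x| ≤ c} := by
      intro S hS h
      obtain ⟨S₀, hS₀, hS'⟩ := F.union _ _ hS hE.compact
      refine ⟨S₀, hS₀, fun x hx => hS' x ?_⟩
      by_contra hcon
      rw [mem_union, not_or] at hcon
      have h1 : x ∈ U ∪ V := by
        rw [hE.union]
        exact hcon.2
      exact absurd hx (not_le.2 (h x h1 hcon.1))
    rcases F.dich (A.smooth_H hc.smooth _).continuous hE with hd | hd
    · obtain ⟨S, hS, h1, h2⟩ := hd c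
      refine key S hS fun x hx hxS => ?_
      rcases hx with hx | hx
      · exact (h1 x hx hxS).trans_le (le_abs_self _)
      · have := h2 x hx hxS
        exact lt_of_lt_of_le (by linarith) (neg_le_abs _)
    · obtain ⟨S, hS, h1, h2⟩ := hd c
      refine key S hS fun x hx hxS => ?_
      rcases hx with hx | hx
      · have := h2 x hx hxS
        exact lt_of_lt_of_le (by linarith) (neg_le_abs _)
      · exact (h1 x hx hxS).trans_le (le_abs_self _)
  obtain ⟨S₀, hS₀, hS⟩ := hsmall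
  obtain ⟨M, hM, hup⟩ := A.exists_Q_upper (ι := ι) hc.smooth hS₀
  obtain ⟨μ, hμ, hlo⟩ := A.exists_Q_bound ι hc hR hD
  have hQe : ∀ (γ : Γ) (κ : Fin m → ℝ) (y : P), A.Q ι (lin (B γ) κ) (γ • y) = A.Q ι κ y :=
    fun γ κ y => A.Q_equiv hc 𝒟 (hB γ) κ y
  refine ⟨Real.sqrt (M * ‖iv k‖ ^ 2 / μ), fun y hy γ hγ => ?_⟩
  apply Real.le_sqrt_of_sq_le
  rw [le_div_iff₀ hμ, mul_comm]
  rw [H_inv_lin A hB] at hγ
  obtain ⟨κ, hκ, hκS⟩ := hS _ hγ
  have e1 : A.Q ι (lin (B γ) (iv k)) y = A.Q ι (iv k) (γ⁻¹ • y) := by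
    have := hQe γ (iv k) (γ⁻¹ • y)
    rwa [smul_inv_smul] at this
  have e2 : A.Q ι (iv k) (κ • γ⁻¹ • y) = A.Q ι (iv k) (γ⁻¹ • y) := by
    have := hQe κ (iv k) (γ⁻¹ • y)
    rwa [mem_stab.1 hκ] at this
  calc μ * ‖lin (B γ) (iv k)‖ ^ 2 ≤ A.Q ι (lin (B γ) (iv k)) y := hlo y hy _
    _ = A.Q ι (iv k) (κ • γ⁻¹ • y) := by rw [e1, e2]
    _ ≤ M * ‖iv k‖ ^ 2 := hup _ hκS _

/-- the cone of nonnegative Hamiltonians -/
def NN : ConvexCone ℝ (Fin m → ℝ) where
  carrier := {κ | ∀ y : P, 0 ≤ A.H κ y}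
  smul_mem' := by
    intro c hc κ hκ y
    rw [A.H_smul]
    exact mul_nonneg hc.le (hκ y)
  add_mem' := by
    intro κ hκ κ' hκ' y
    rw [A.H_add]
    exact add_nonneg (hκ y) (hκ' y)

lemma mem_NN {κ : Fin m → ℝ} : κ ∈ NN A ↔ ∀ y : P, 0 ≤ A.H κ y := Iff.rfl

lemma cont_H (hc : IsContact β) (y : P) : Continuous (fun κ : Fin m → ℝ => A.H κ y) := by
  have h1 : Continuous (fun κ : Fin m → ℝ => (y, κ)) := by fun_prop
  exact (A.continuous_H hc.smooth).comp h1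

lemma closed_NN (hc : IsContact β) : IsClosed (NN A : Set (Fin m → ℝ)) := by
  have e : (NN A : Set (Fin m → ℝ)) = ⋂ y : P, {κ | 0 ≤ A.H κ y} := by
    ext κ
    simp only [SetLike.mem_coe, mem_NN, mem_iInter, mem_ofPred_eq]
  rw [e]
  exact isClosed_iInter fun y => isClosed_le continuous_const (cont_H A hc y)

lemma lin_NN (hB : ∀ (γ : Γ) (κ : Fin m → ℝ) (x : P), A.H (lin (B γ) κ) (γ • x) = A.H κ x)
    {κ : Fin m → ℝ} (hκ : κ ∈ NN A) (γ : Γ) : lin (B γ) κ ∈ NN A := by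
  intro y
  rw [H_inv_lin A hB]
  exact hκ _

/-- the value at a point as a linear form -/
def ev₀ (y : P) : (Fin m → ℝ) →ₗ[ℝ] ℝ where
  toFun := fun κ => A.H κ y
  map_add' := fun a b => A.H_add a b y
  map_smul' := fun c a => A.H_smul c a y

lemma pos_NN [T2Space P] [SigmaCompactSpace P] (hc : IsContact β)
    {R : (x : P) → TangentSpace 𝓘(ℝ, E) x} (hR : IsReeb β R) (𝒟 : Deck ι Γ) (y : P) :
    Pos (NN A) (ev₀ A y) := fun _ hκ h0 => pos_of_nonneg A hc hR 𝒟 h0 hκ y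

/-- **Limit directions of the orbit.** -/
lemma limit_direction [T2Space P] [SigmaCompactSpace P] [PathConnectedSpace P] (hc : IsContact β)
    {R : (x : P) → TangentSpace 𝓘(ℝ, E) x} (hR : IsReeb β R) (𝒟 : Deck ι Γ) (hN : A.Norm Γ)
    (hB : ∀ (γ : Γ) (κ : Fin m → ℝ) (x : P), A.H (lin (B γ) κ) (γ • x) = A.H κ x)
    (hno : ∀ k : Fin m → ℤ, k ≠ 0 → ∀ x, dForm 𝓘(ℝ, E) (A.H (TAct.rv k)) x ≠ 0)
    {k : Fin m → ℤ} (hk : k ≠ 0) {C U V : Set P} (hE : Rel.TwoEnds (SmallRel (stab B k)) C U V)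
    {g : ℕ → Γ} (hg : Tendsto (fun i => ‖lin (B (g i)) (iv k)‖) atTop atTop) {ξ : Fin m → ℝ}
    (hξ : Tendsto (fun i => ‖lin (B (g i)) (iv k)‖⁻¹ • lin (B (g i)) (iv k)) atTop (𝓝 ξ)) :
    ξ ∈ NN A ∨ -ξ ∈ NN A := by
  have hev : ∀ D : Set P, IsCompact D → ∀ᶠ i in atTop, ∀ y ∈ D,
      A.H (lin (B (g i)) (iv k)) y ≠ 0 := by
    intro D hD
    obtain ⟨r, hr⟩ := orbit_bound A hc hR 𝒟 hN hB hno hk hE 0 hD
    filter_upwards [hg.eventually_gt_atTop r] with i hi y hy h0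
    exact absurd (hr y hy (g i) (by rw [h0, abs_zero])) (not_le.2 hi)
  obtain ⟨y₀⟩ := (inferInstance : Nonempty P)
  -- signs are constant along paths
  have hpath : ∀ y : P, ∀ᶠ i in atTop,
      0 < A.H (lin (B (g i)) (iv k)) y₀ * A.H (lin (B (g i)) (iv k)) y := by
    intro y
    obtain ⟨p⟩ := PathConnectedSpace.joined y₀ y
    have hcomp : IsCompact (range p) := isCompact_range p.continuous
    filter_upwards [hev _ hcomp] with i hi
    set f : ℝ → ℝ := fun s => 0 with hf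
    have hcont : Continuous (fun s : unitInterval => A.H (lin (B (g i)) (iv k)) (p s)) :=
      (A.smooth_H hc.smooth _).continuous.comp p.continuous
    have hne : ∀ s : unitInterval, A.H (lin (B (g i)) (iv k)) (p s) ≠ 0 := fun s =>
      hi _ ⟨s, rfl⟩
    by_contra hcon
    push Not at hcon
    have h0 := hne 0
    have h1 := hne 1
    rw [p.source] at h0
    rw [p.target] at h1
    have hlt : A.H (lin (B (g i)) (iv k)) y₀ * A.H (lin (B (g i)) (iv k)) y < 0 :=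
      lt_of_le_of_ne hcon (mul_ne_zero h0 h1)
    have hpre : IsPreconnected (range fun s : unitInterval => A.H (lin (B (g i)) (iv k)) (p s)) :=
      isPreconnected_range hcont
    have hm0 : A.H (lin (B (g i)) (iv k)) y₀ ∈
        range fun s : unitInterval => A.H (lin (B (g i)) (iv k)) (p s) := ⟨0, by simp⟩
    have hm1 : A.H (lin (B (g i)) (iv k)) y ∈
        range fun s : unitInterval => A.H (lin (B (g i)) (iv k)) (p s) := ⟨1, by simp⟩
    have hzero : (0:ℝ) ∈ range fun s : unitInterval => A.H (lin (B (g i)) (iv k)) (p s) := by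
      rcases mul_neg_iff.1 hlt with ⟨ha, hb⟩ | ⟨ha, hb⟩
      · exact hpre.Icc_subset hm1 hm0 ⟨hb.le, ha.le⟩
      · exact hpre.Icc_subset hm0 hm1 ⟨ha.le, hb.le⟩
    obtain ⟨s, hs⟩ := hzero
    exact hne s hs
  have hlim : ∀ y, Tendsto (fun i => A.H (‖lin (B (g i)) (iv k)‖⁻¹ • lin (B (g i)) (iv k)) y) atTop
      (𝓝 (A.H ξ y)) := fun y => ((cont_H A hc y).tendsto ξ).comp hξ
  by_cases hfr : ∃ᶠ i in atTop, 0 < A.H (lin (B (g i)) (iv k)) y₀
  · left
    intro y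
    refine ge_of_tendsto_of_frequently (hlim y) ?_
    refine (hfr.and_eventually ((hpath y).and (hg.eventually_gt_atTop 0))).mono ?_
    rintro i ⟨h1, h2, h3⟩
    rw [A.H_smul]
    have h4 : 0 < A.H (lin (B (g i)) (iv k)) y := (mul_pos_iff_of_pos_left h1).1 h2
    exact (mul_pos (inv_pos.2 h3) h4).le
  · right
    intro y
    rw [not_frequently] at hfr
    have e : A.H (-ξ) y = - A.H ξ y := by
      rw [← neg_one_smul ℝ ξ, A.H_smul]; ring
    rw [e]
    have h5 : A.H ξ y ≤ 0 := by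
      refine le_of_tendsto (hlim y) ?_
      filter_upwards [hfr, hpath y, hg.eventually_gt_atTop 0] with i h1 h2 h3
      rw [A.H_smul]
      push Not at h1
      have h4 : A.H (lin (B (g i)) (iv k)) y < 0 := by
        by_contra hcon
        push Not at hcon
        have := mul_nonpos_of_nonpos_of_nonneg h1 hcon
        linarith
      exact (mul_neg_of_pos_of_neg (inv_pos.2 h3) h4).le
    linarith

end Pool.Agent.W669.Cone
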