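import Mathlib
import Pool.Agent.W669.Cone.LorB

/-! Groups of integral matrices, completely reducible over the reals, preserving a closed convex
cone containing the limit directions of an orbit of integral vectors: a vector of the cone whose
orbit dominates. -/

open scoped Topology
open Set Metric Filter

noncomputable section

namespace Pool.Agent.W669.Cone

set_option linter.unusedSectionVars false

variable {m : ℕ} {Γ : Type*} [Group Γ] (B : Γ →* Matrix (Fin m) (Fin m) ℤ)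

/-- the vectors whose orbit is dominated by the orbit of `κ₀` -/
def dom (κ₀ : Fin m → ℝ) : Submodule ℝ (Fin m → ℝ) where
  carrier := {v | ∃ C : ℝ, 0 ≤ C ∧ ∀ γ : Γ, ‖lin (B γ) v‖ ≤ C * ‖lin (B γ) κ₀‖}
  zero_mem' := ⟨0, le_rfl, fun γ => by simp⟩
  add_mem' := by
    rintro u v ⟨C, hC, h⟩ ⟨C', hC', h'⟩
    refine ⟨C + C', add_nonneg hC hC', fun γ => ?_⟩
    rw [map_add, add_mul]
    exact (norm_add_le _ _).trans (add_le_add (h γ) (h' γ))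
  smul_mem' := by
    rintro c v ⟨C, hC, h⟩
    refine ⟨|c| * C, mul_nonneg (abs_nonneg _) hC, fun γ => ?_⟩
    rw [map_smul, norm_smul, Real.norm_eq_abs, mul_assoc]
    exact mul_le_mul_of_nonneg_left (h γ) (abs_nonneg _)

lemma mem_dom {κ₀ v : Fin m → ℝ} : v ∈ dom B κ₀ ↔
    ∃ C : ℝ, 0 ≤ C ∧ ∀ γ : Γ, ‖lin (B γ) v‖ ≤ C * ‖lin (B γ) κ₀‖ := Iff.rfl

variable {B}

lemma exists_finset_span (s : Set (Fin m → ℝ)) : ∃ t : Finset (Fin m → ℝ), (t : Set _) ⊆ s ∧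
    Submodule.span ℝ s = Submodule.span ℝ t :=
  (Submodule.fg_span_iff_fg_span_finset_subset s).1 (IsNoetherian.noetherian _)

/-- a lower bound for the images of `κ₀` under the elements which are bounded on the lattice -/
lemma exists_lower {t : Finset (Fin m → ℝ)} (ht : ∀ v ∈ t, ∃ l : Fin m → ℤ, iv l = v)
    {κ₀ : Fin m → ℝ} (hκ₀ : κ₀ ∈ Submodule.span ℝ (t : Set (Fin m → ℝ))) (h0 : κ₀ ≠ 0) (r : ℝ) :
    ∃ c > (0:ℝ), ∀ γ : Γ, (∀ v ∈ t, ‖lin (B γ) v‖ ≤ r) → c ≤ ‖lin (B γ) κ₀‖ := by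
  classical
  obtain ⟨d, hd⟩ := Submodule.mem_span_finset'.1 hκ₀
  choose l hl using ht
  set T : Set (Fin m → ℝ) := {u | ∃ γ : Γ, (∀ v ∈ t, ‖lin (B γ) v‖ ≤ r) ∧ u = lin (B γ) κ₀} with hT
  have hfin : T.Finite := by
    have h1 : {z : t → Fin m → ℤ | ∀ i, z i ∈ {z : Fin m → ℤ | ‖iv z‖ ≤ r}}.Finite :=
      Set.Finite.pi' fun _ => finite_iv r
    refine (h1.image (fun z => ∑ a : t, d a • iv (z a))).subset ?_
    rintro _ ⟨γ, hγ, rfl⟩
    refine ⟨fun a => im (B γ) (l a a.2), ?_, ?_⟩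
    · intro a
      show ‖iv (im (B γ) (l a a.2))‖ ≤ r
      rw [iv_im, hl]
      exact hγ a a.2
    · show ∑ a : t, d a • iv (im (B γ) (l a a.2)) = lin (B γ) κ₀
      rw [← hd, map_sum]
      refine Finset.sum_congr rfl fun a _ => ?_
      rw [iv_im, hl, map_smul]
  rcases T.eq_empty_or_nonempty with he | hne
  · refine ⟨1, one_pos, fun γ hγ => ?_⟩
    have h1 : lin (B γ) κ₀ ∈ T := ⟨γ, hγ, rfl⟩
    rw [he] at h1
    exact h1.elim
  · obtain ⟨u, hu, hmin⟩ := hfin.exists_minimalFor (fun u => ‖u‖) T hne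
    have hu0 : u ≠ 0 := by
      obtain ⟨γ, -, rfl⟩ := hu
      exact LRep.ne_zero γ h0
    refine ⟨‖u‖, norm_pos_iff.2 hu0, fun γ hγ => ?_⟩
    have h1 : lin (B γ) κ₀ ∈ T := ⟨γ, hγ, rfl⟩
    by_contra hcon
    push Not at hcon
    exact absurd (hmin h1 hcon.le) (not_le.2 hcon)

/-- **Domination.** -/
theorem exists_dominating {N : ConvexCone ℝ (Fin m → ℝ)} {ℓ : (Fin m → ℝ) →ₗ[ℝ] ℝ}
    (hN : IsClosed (N : Set (Fin m → ℝ))) (hN0 : (0 : Fin m → ℝ) ∈ N) (hpos : Pos N ℓ)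
    (hinv : ∀ (γ : Γ), ∀ u ∈ N, lin (B γ) u ∈ N)
    (hred : ∀ W : Submodule ℝ (Fin m → ℝ), (∀ (γ : Γ), ∀ u ∈ W, lin (B γ) u ∈ W) →
      ∃ W' : Submodule ℝ (Fin m → ℝ), (∀ (γ : Γ), ∀ u ∈ W', lin (B γ) u ∈ W') ∧ IsCompl W W')
    {k : Fin m → ℤ}
    (hlim : ∀ (g : ℕ → Γ) (ξ : Fin m → ℝ), Tendsto (fun i => ‖lin (B (g i)) (iv k)‖) atTop atTop →
      Tendsto (fun i => ‖lin (B (g i)) (iv k)‖⁻¹ • lin (B (g i)) (iv k)) atTop (𝓝 ξ) →
      ξ ∈ N ∨ -ξ ∈ N)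
    (hunb : ∃ g : ℕ → Γ, Tendsto (fun i => ‖lin (B (g i)) (iv k)‖) atTop atTop) :
    ∃ κ₀ ∈ N, κ₀ ≠ 0 ∧ κ₀ ∈ Submodule.span ℝ (range fun γ : Γ => lin (B γ) (iv k)) ∧
      Submodule.span ℝ (range fun γ : Γ => lin (B γ) (iv k)) ≤ dom B κ₀ := by
  classical
  set S := Submodule.span ℝ (range fun γ : Γ => lin (B γ) (iv k)) with hS
  have horb : ∀ γ : Γ, lin (B γ) (iv k) ∈ S := fun γ => Submodule.subset_span ⟨γ, rfl⟩
  have hSc : IsClosed (S : Set (Fin m → ℝ)) := Submodule.closed_of_finiteDimensional S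
  have hSinv : ∀ (γ : Γ), ∀ u ∈ S, lin (B γ) u ∈ S := by
    intro γ
    have h1 : S ≤ S.comap (lin (B γ)) := by
      rw [hS, Submodule.span_le]
      rintro _ ⟨γ', rfl⟩
      show lin (B γ) (lin (B γ') (iv k)) ∈ S
      rw [← lin_mul, ← map_mul]
      exact horb _
    exact fun u hu => h1 hu
  set NS : Set (Fin m → ℝ) := {κ | κ ∈ N ∧ κ ∈ S} with hNS
  set W := Submodule.span ℝ NS with hW
  have hWinv : ∀ (γ : Γ), ∀ u ∈ W, lin (B γ) u ∈ W := by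
    intro γ
    have h1 : W ≤ W.comap (lin (B γ)) := by
      rw [hW, Submodule.span_le]
      rintro u ⟨hu1, hu2⟩
      exact Submodule.subset_span ⟨hinv γ u hu1, hSinv γ u hu2⟩
    exact fun u hu => h1 hu
  have hlimW : ∀ (g : ℕ → Γ) (ξ : Fin m → ℝ),
      Tendsto (fun i => ‖lin (B (g i)) (iv k)‖) atTop atTop →
      Tendsto (fun i => ‖lin (B (g i)) (iv k)‖⁻¹ • lin (B (g i)) (iv k)) atTop (𝓝 ξ) → ξ ∈ W := by
    intro g ξ h1 h2
    have hξS : ξ ∈ S := hSc.mem_of_tendsto h2 (Eventually.of_forall fun i =>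
      S.smul_mem _ (horb _))
    rcases hlim g ξ h1 h2 with h | h
    · exact Submodule.subset_span ⟨h, hξS⟩
    · have h3 : -ξ ∈ W := Submodule.subset_span ⟨h, S.neg_mem hξS⟩
      have h4 := W.neg_mem h3
      rwa [neg_neg] at h4
  obtain ⟨W', hW'inv, hcompl⟩ := hred W hWinv
  obtain ⟨tW, htW, hspW⟩ := exists_finset_span NS
  obtain ⟨tS, htS, hspS⟩ := exists_finset_span (range fun γ : Γ => lin (B γ) (iv k))
  -- the vector
  have hsum : ∀ (γ : Γ) (s : Finset (Fin m → ℝ)), s ⊆ tW → ∑ b ∈ s, lin (B γ) b ∈ N := by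
    intro γ s
    induction s using Finset.induction_on with
    | empty => intro _; rw [Finset.sum_empty]; exact hN0
    | insert a s ha ih =>
      intro hs
      rw [Finset.sum_insert ha]
      exact N.add_mem (hinv γ _ (htW (hs (Finset.mem_insert_self a s))).1)
        (ih ((Finset.subset_insert a s).trans hs))
  set κ₀ := ∑ b ∈ tW, b with hκ₀
  have hκ₀γ : ∀ γ : Γ, lin (B γ) κ₀ = ∑ b ∈ tW, lin (B γ) b := fun γ => by rw [hκ₀, map_sum]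
  have hκ₀N : κ₀ ∈ N := by
    have h1 := hsum 1 tW le_rfl
    rw [← hκ₀γ, map_one, lin_one] at h1
    exact h1
  have hκ₀S : κ₀ ∈ S := Submodule.sum_mem _ fun b hb => (htW hb).2
  obtain ⟨η, hη, hηN⟩ := hpos.exists_eta hN
  obtain ⟨Cℓ, hCℓ, hℓ⟩ : ∃ Cℓ > (0:ℝ), ∀ v, |ℓ v| ≤ Cℓ * ‖v‖ := by
    set L : (Fin m → ℝ) →L[ℝ] ℝ := LinearMap.toContinuousLinearMap ℓ
    refine ⟨‖L‖ + 1, by positivity, fun v => ?_⟩
    have h1 : |ℓ v| ≤ ‖L‖ * ‖v‖ := L.le_opNorm v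
    nlinarith [norm_nonneg v]
  have hWdom : W ≤ dom B κ₀ := by
    rw [hW, hspW, Submodule.span_le]
    intro b hb
    refine ⟨Cℓ / η, by positivity, fun γ => ?_⟩
    have h1 : lin (B γ) κ₀ = lin (B γ) b + ∑ b' ∈ tW.erase b, lin (B γ) b' := by
      rw [hκ₀γ, Finset.add_sum_erase _ _ hb]
    have h2 : ℓ (lin (B γ) b) ≤ ℓ (lin (B γ) κ₀) := by
      rw [h1, map_add]
      have := hpos.nonneg (hsum γ (tW.erase b) (Finset.erase_subset _ _))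
      linarith
    have h3 := hηN _ (hinv γ b (htW hb).1)
    have h4 := (le_abs_self _).trans (hℓ (lin (B γ) κ₀))
    rw [div_mul_eq_mul_div, le_div_iff₀ hη]
    linarith
  -- it is nonzero
  have hκ₀0 : κ₀ ≠ 0 := by
    intro h0
    obtain ⟨g, hg⟩ := hunb
    obtain ⟨φ, ξ, hφ, hξ1, hξ⟩ := exists_direction hg
    have h1 : ξ ∈ W := hlimW (fun i => g (φ i)) ξ (hg.comp hφ.tendsto_atTop) hξ
    obtain ⟨C, -, hC⟩ := hWdom h1
    have h2 := hC 1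
    rw [h0, map_zero, norm_zero, mul_zero, map_one, lin_one, hξ1] at h2
    linarith
  refine ⟨κ₀, hκ₀N, hκ₀0, hκ₀S, ?_⟩
  -- domination on the span of the orbit
  rw [hS, hspS, Submodule.span_le]
  by_contra hnot
  obtain ⟨v₀, hv₀, hv₀d⟩ := not_subset.1 hnot
  have hv₀t : v₀ ∈ tS := hv₀
  have hbad : ∀ n : ℕ, ∃ γ : Γ, ((n:ℝ) + 1) * ‖lin (B γ) κ₀‖ < ‖lin (B γ) v₀‖ := by
    intro n
    by_contra hcon
    push Not at hcon
    exact hv₀d ⟨(n:ℝ) + 1, by positivity, hcon⟩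
  choose γ hγ using hbad
  have hmax : ∀ n : ℕ, ∃ v : tS, ∀ v' ∈ tS, ‖lin (B (γ n)) v'‖ ≤ ‖lin (B (γ n)) v‖ := by
    intro n
    obtain ⟨v, hv, hvm⟩ := Finset.exists_max_image tS (fun v => ‖lin (B (γ n)) v‖) ⟨v₀, hv₀t⟩
    exact ⟨⟨v, hv⟩, hvm⟩
  choose v hv using hmax
  obtain ⟨v₁, hv₁⟩ := Finite.exists_infinite_fiber v
  obtain ⟨φ, hφ, hφv⟩ : ∃ φ : ℕ → ℕ, StrictMono φ ∧ ∀ n, v (φ n) = v₁ := by
    refine extraction_of_frequently_atTop (P := fun n => v n = v₁) ?_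
    rw [Nat.frequently_atTop_iff_infinite]
    exact Set.infinite_coe_iff.1 hv₁
  have hM1 : ∀ n, ∀ v' ∈ tS, ‖lin (B (γ (φ n))) v'‖ ≤ ‖lin (B (γ (φ n))) (v₁ : Fin m → ℝ)‖ := by
    intro n v' hv'
    have := hv (φ n) v' hv'
    rwa [hφv] at this
  have hM2 : ∀ n, ((φ n : ℕ) + 1 : ℝ) * ‖lin (B (γ (φ n))) κ₀‖ <
      ‖lin (B (γ (φ n))) (v₁ : Fin m → ℝ)‖ := fun n => (hγ (φ n)).trans_le (hM1 n _ hv₀t)
  obtain ⟨δ, hδ⟩ := htS v₁.2
  have hδ' : (v₁ : Fin m → ℝ) = lin (B δ) (iv k) := hδ.symm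
  have hint : ∀ v ∈ tS, ∃ l : Fin m → ℤ, iv l = v := by
    intro v hv
    obtain ⟨δ', hδ'⟩ := htS hv
    exact ⟨im (B δ') k, by rw [iv_im]; exact hδ'⟩
  have hM3 : Tendsto (fun n => ‖lin (B (γ (φ n))) (v₁ : Fin m → ℝ)‖) atTop atTop := by
    rw [Filter.tendsto_atTop]
    intro r
    obtain ⟨c, hc, hcr⟩ := exists_lower (B := B) hint (κ₀ := κ₀) (by rw [← hspS]; exact hκ₀S) hκ₀0 r
    obtain ⟨n₀, hn₀⟩ := exists_nat_ge (r / c)
    filter_upwards [eventually_ge_atTop n₀] with n hn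
    by_contra hcon
    push Not at hcon
    have h1 := hcr (γ (φ n)) fun v' hv' => (hM1 n v' hv').trans hcon.le
    have h2 := hM2 n
    have h3 : (n₀ : ℝ) ≤ (φ n : ℕ) := by exact_mod_cast hn.trans (hφ.id_le n)
    rw [div_le_iff₀ hc] at hn₀
    have h4 : (n₀ : ℝ) * c ≤ ((φ n : ℕ) : ℝ) * ‖lin (B (γ (φ n))) κ₀‖ :=
      mul_le_mul h3 h1 hc.le (by positivity)
    have h5 := norm_nonneg (lin (B (γ (φ n))) κ₀)
    linarith
  obtain ⟨ψ, ξ, hψ, hξ1, hξ⟩ := exists_direction hM3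
  have hMψ : Tendsto (fun n => ‖lin (B (γ (φ (ψ n)))) (v₁ : Fin m → ℝ)‖) atTop atTop :=
    hM3.comp hψ.tendsto_atTop
  have hξW : ξ ∈ W := by
    refine hlimW (fun n => γ (φ (ψ n)) * δ) ξ ?_ ?_
    · refine hMψ.congr fun n => ?_
      rw [map_mul, lin_mul, hδ']
    · refine hξ.congr fun n => ?_
      rw [map_mul, lin_mul, hδ']
  obtain ⟨w, hw, w', hw', hww⟩ := Submodule.mem_sup.1
    (show (v₁ : Fin m → ℝ) ∈ W ⊔ W' by rw [hcompl.sup_eq_top]; trivial)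
  obtain ⟨Cw, hCw, hdw⟩ := hWdom hw
  have hzero : Tendsto (fun n => ‖lin (B (γ (φ (ψ n)))) (v₁ : Fin m → ℝ)‖⁻¹ •
      lin (B (γ (φ (ψ n)))) w) atTop (𝓝 0) := by
    rw [tendsto_zero_iff_norm_tendsto_zero]
    have h1 : Tendsto (fun n : ℕ => Cw * (1 / ((n : ℝ) + 1))) atTop (𝓝 0) := by
      have := tendsto_one_div_add_atTop_nhds_zero_nat (𝕜 := ℝ)
      simpa using this.const_mul Cw
    refine squeeze_zero (fun n => norm_nonneg _) (fun n => ?_) h1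
    have h2 := hM2 (ψ n)
    have h3 := norm_nonneg (lin (B (γ (φ (ψ n)))) κ₀)
    have h4 : (n : ℝ) ≤ ((φ (ψ n) : ℕ) : ℝ) := by
      exact_mod_cast (hψ.id_le n).trans (hφ.id_le _)
    have h5 : 0 < ‖lin (B (γ (φ (ψ n)))) (v₁ : Fin m → ℝ)‖ :=
      lt_of_le_of_lt (by positivity) h2
    rw [norm_smul, norm_inv, norm_norm, inv_mul_eq_div, div_le_iff₀ h5]
    refine (hdw _).trans ?_
    rw [mul_assoc]
    apply mul_le_mul_of_nonneg_left _ hCw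
    rw [one_div, inv_mul_eq_div, le_div_iff₀ (by positivity), mul_comm]
    refine le_trans ?_ h2.le
    exact mul_le_mul_of_nonneg_right (by linarith) h3
  have hξW' : ξ ∈ W' := by
    have hc' : IsClosed (W' : Set (Fin m → ℝ)) := Submodule.closed_of_finiteDimensional W'
    have h1 : Tendsto (fun n => ‖lin (B (γ (φ (ψ n)))) (v₁ : Fin m → ℝ)‖⁻¹ •
        lin (B (γ (φ (ψ n)))) w') atTop (𝓝 ξ) := by
      have h2 := hξ.sub hzero
      rw [sub_zero] at h2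
      refine h2.congr fun n => ?_
      rw [← smul_sub, ← map_sub]
      congr 2
      rw [← hww]
      abel
    refine hc'.mem_of_tendsto h1 (Eventually.of_forall fun n => ?_)
    exact W'.smul_mem _ (hW'inv _ _ hw')
  have hξ0 : ξ = 0 := by
    have h1 : ξ ∈ W ⊓ W' := ⟨hξW, hξW'⟩
    rw [hcompl.inf_eq_bot] at h1
    exact h1
  rw [hξ0, norm_zero] at hξ1
  exact zero_ne_one hξ1

/-- **Rational approximation in the span of the orbit.** -/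
theorem exists_approx_dom {k : Fin m → ℤ} {κ₀ : Fin m → ℝ} (h0 : κ₀ ≠ 0)
    (hκ₀ : κ₀ ∈ Submodule.span ℝ (range fun γ : Γ => lin (B γ) (iv k)))
    (hdom : Submodule.span ℝ (range fun γ : Γ => lin (B γ) (iv k)) ≤ dom B κ₀) {δ : ℝ}
    (hδ : 0 < δ) :
    ∃ (l : Fin m → ℤ) (t : ℝ), l ≠ 0 ∧ 0 < t ∧
      ∀ γ : Γ, ‖lin (B γ) (t • iv l - κ₀)‖ ≤ δ * ‖lin (B γ) κ₀‖ := by
  classical
  obtain ⟨tS, htS, hspS⟩ := exists_finset_span (range fun γ : Γ => lin (B γ) (iv k))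
  rw [hspS] at hκ₀
  obtain ⟨d, -, hd⟩ := Submodule.mem_span_finset.1 hκ₀
  have hint : ∀ v ∈ tS, ∃ l : Fin m → ℤ, iv l = v := by
    intro v hv
    obtain ⟨δ', hδ'⟩ := htS hv
    exact ⟨im (B δ') k, by rw [iv_im]; exact hδ'⟩
  have hC : ∀ v ∈ tS, ∃ C : ℝ, 0 ≤ C ∧ ∀ γ : Γ, ‖lin (B γ) v‖ ≤ C * ‖lin (B γ) κ₀‖ := by
    intro v hv
    exact hdom (Submodule.subset_span (htS hv))
  choose! z hz using hint
  choose! C hC0 hC using hC
  set δ' := min δ (1 / 2) with hδ'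
  have hδ'0 : 0 < δ' := lt_min hδ (by norm_num)
  obtain ⟨n, hn⟩ := exists_nat_gt ((∑ v ∈ tS, C v) / δ')
  have hn0 : (0:ℝ) < n := lt_of_le_of_lt
    (div_nonneg (Finset.sum_nonneg fun v hv => hC0 v hv) hδ'0.le) hn
  have hn0' : (n:ℝ) ≠ 0 := hn0.ne'
  set l : Fin m → ℤ := ∑ v ∈ tS, ⌊n * d v⌋ • z v with hl
  have hivl : iv l = ∑ v ∈ tS, ((⌊n * d v⌋ : ℤ) : ℝ) • v := by
    ext i
    simp only [iv, hl, Finset.sum_apply, Pi.smul_apply, smul_eq_mul, Int.cast_sum, Int.cast_mul,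
      zsmul_eq_mul, Pi.mul_apply, Pi.intCast_apply, Int.cast_id]
    refine Finset.sum_congr rfl fun v hv => ?_
    have h1 := congrFun (hz v hv) i
    simp only [iv] at h1
    rw [← h1]
  have hkey : ∀ γ : Γ, ‖lin (B γ) ((n:ℝ)⁻¹ • iv l - κ₀)‖ ≤ δ' * ‖lin (B γ) κ₀‖ := by
    intro γ
    have e : (n:ℝ)⁻¹ • iv l - κ₀ = ∑ v ∈ tS, ((n:ℝ)⁻¹ * (⌊n * d v⌋ : ℤ) - d v) • v := by
      rw [hivl, ← hd, Finset.smul_sum, ← Finset.sum_sub_distrib]
      refine Finset.sum_congr rfl fun v _ => ?_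
      rw [sub_smul, mul_smul]
    rw [e, map_sum]
    refine (norm_sum_le _ _).trans ?_
    have h1 : ∀ v ∈ tS, ‖lin (B γ) (((n:ℝ)⁻¹ * (⌊n * d v⌋ : ℤ) - d v) • v)‖ ≤
        (n:ℝ)⁻¹ * (C v * ‖lin (B γ) κ₀‖) := by
      intro v hv
      rw [map_smul, norm_smul, Real.norm_eq_abs]
      refine mul_le_mul ?_ (hC v hv γ) (norm_nonneg _) (by positivity)
      have h2 := Int.floor_le (n * d v)
      have h3 := Int.lt_floor_add_one (n * d v)
      have h4 : (n:ℝ)⁻¹ * (⌊n * d v⌋ : ℤ) - d v = -((n:ℝ)⁻¹ * (n * d v - (⌊n * d v⌋ : ℤ))) := by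
        field_simp
        ring
      rw [h4, abs_neg, abs_mul, abs_of_pos (inv_pos.2 hn0)]
      have h5 : |(n:ℝ) * d v - (⌊n * d v⌋ : ℤ)| ≤ 1 := by
        rw [abs_le]
        constructor <;> linarith
      calc (n:ℝ)⁻¹ * |(n:ℝ) * d v - (⌊n * d v⌋ : ℤ)| ≤ (n:ℝ)⁻¹ * 1 :=
            mul_le_mul_of_nonneg_left h5 (by positivity)
        _ = _ := mul_one _
    refine (Finset.sum_le_sum h1).trans ?_
    rw [← Finset.mul_sum, ← Finset.sum_mul, ← mul_assoc]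
    apply mul_le_mul_of_nonneg_right _ (norm_nonneg _)
    rw [inv_mul_eq_div, div_le_iff₀ hn0]
    rw [div_lt_iff₀ hδ'0] at hn
    linarith
  refine ⟨l, (n:ℝ)⁻¹, ?_, inv_pos.2 hn0, fun γ => (hkey γ).trans
    (mul_le_mul_of_nonneg_right (min_le_left _ _) (norm_nonneg _))⟩
  intro hl0
  have h1 := hkey 1
  have h2 : (iv l : Fin m → ℝ) = 0 := by
    ext i
    simp [iv, hl0]
  rw [h2, smul_zero, zero_sub, map_neg, norm_neg, map_one, lin_one] at h1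
  have h3 : 0 < ‖κ₀‖ := norm_pos_iff.2 h0
  have h4 : δ' ≤ 1 / 2 := min_le_right _ _
  nlinarith

end Pool.Agent.W669.Cone
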