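import Mathlib
import Pool.Agent.W669.Cone.RelA
import Pool.Agent.W669.Cone.RelB
import Pool.Agent.W669.Cone.LorD

/-! Critical points of integral contact Hamiltonians: two ends relative to the stabiliser of an
integral vector, completely reducible monodromy. -/

open scoped Topology ContDiff Manifold
open Set Metric Bundle Filter Pool.Agent.Helper186

noncomputable section

namespace Pool.Agent.W669.Cone

open Pool.Agent.H826R2.Wein

set_option linter.unusedSectionVars false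

variable {E : Type*} [NormedAddCommGroup E] [NormedSpace ℝ E] [FiniteDimensional ℝ E]
  {P : Type*} [TopologicalSpace P] [ChartedSpace E P] [IsManifold 𝓘(ℝ, E) ∞ P]
  {β : (x : P) → TangentSpace 𝓘(ℝ, E) x →L[ℝ] ℝ} {m : ℕ}
  (A : TAct β m) {n : ℕ} {ι : Imm (E := E) P n} {Γ : Type*} [Group Γ] [MulAction Γ P]
  {B : Γ →* Matrix (Fin m) (Fin m) ℤ}

/-- **A nonnegative Hamiltonian with good rational approximations gives a contradiction.** -/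
lemma contra_of_approx [T2Space P] [SigmaCompactSpace P] [Nonempty P] (hc : IsContact β)
    {R : (x : P) → TangentSpace 𝓘(ℝ, E) x} (hR : IsReeb β R) (𝒟 : Deck ι Γ) (hN : A.Norm Γ)
    (hB : ∀ (γ : Γ) (κ : Fin m → ℝ) (x : P), A.H (lin (B γ) κ) (γ • x) = A.H κ x)
    (hno : ∀ k : Fin m → ℤ, k ≠ 0 → ∀ x, dForm 𝓘(ℝ, E) (A.H (TAct.rv k)) x ≠ 0)
    {κ₀ : Fin m → ℝ} (hκ₀ : κ₀ ∈ NN A) (hκ₀0 : κ₀ ≠ 0)
    (happ : ∀ δ > (0:ℝ), ∃ (l : Fin m → ℤ) (t : ℝ), l ≠ 0 ∧ 0 < t ∧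
      ∀ γ : Γ, ‖lin (B γ) (t • iv l - κ₀)‖ ≤ δ * ‖lin (B γ) κ₀‖) : False := by
  have hβ := hc.smooth
  -- uniform positivity
  obtain ⟨δ, hδ, hδ2⟩ : ∃ δ > (0:ℝ), ∀ y ∈ 𝒟.D, ∀ κ ∈ NN A, δ * ‖κ‖ ≤ A.H κ y := by
    have hcpt : IsCompact (𝒟.D ×ˢ ((NN A : Set (Fin m → ℝ)) ∩ sphere (0 : Fin m → ℝ) 1)) :=
      𝒟.compact.prod ((isCompact_sphere _ _).inter_left (closed_NN A hc))
    obtain ⟨δ, hδ, hmin⟩ : ∃ δ > (0:ℝ), ∀ p ∈ 𝒟.D ×ˢ ((NN A : Set (Fin m → ℝ)) ∩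
        sphere (0 : Fin m → ℝ) 1), δ ≤ A.H p.2 p.1 := by
      rcases (𝒟.D ×ˢ ((NN A : Set (Fin m → ℝ)) ∩
        sphere (0 : Fin m → ℝ) 1)).eq_empty_or_nonempty with he | hne
      · exact ⟨1, one_pos, fun p hp => by rw [he] at hp; exact hp.elim⟩
      · obtain ⟨p, hp, hmin⟩ := hcpt.exists_isMinOn hne (A.continuous_H hβ).continuousOn
        refine ⟨A.H p.2 p.1, pos_of_nonneg A hc hR 𝒟 ?_ hp.2.1 _, fun r hr => hmin hr⟩
        intro h0
        have := hp.2.2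
        rw [h0, mem_sphere_zero_iff_norm, norm_zero] at this
        exact zero_ne_one this
    refine ⟨δ, hδ, fun y hy κ hκ => ?_⟩
    by_cases h0 : κ = 0
    · rw [h0, norm_zero, mul_zero]
      have := hκ y
      rwa [h0] at this
    · have hn : 0 < ‖κ‖ := norm_pos_iff.2 h0
      have h1 := hmin (y, ‖κ‖⁻¹ • κ) ⟨hy, (NN A).smul_mem (inv_pos.2 hn) hκ, by
        rw [mem_sphere_zero_iff_norm, _root_.norm_smul, norm_inv, norm_norm,
          inv_mul_cancel₀ hn.ne']⟩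
      have h2 : A.H (‖κ‖⁻¹ • κ) y = (A.H κ y) / ‖κ‖ := by
        rw [A.H_smul]
        field_simp
      rw [h2, le_div_iff₀ hn] at h1
      exact h1
  obtain ⟨M, hM, hQup⟩ := A.exists_Q_upper (ι := ι) hβ 𝒟.compact
  have hup : ∀ y ∈ 𝒟.D, ∀ v : Fin m → ℝ, |A.H v y| ≤ Real.sqrt M * ‖v‖ := by
    intro y hy v
    have h1 := hQup y hy v
    have h2 : (A.H v y) ^ 2 ≤ M * ‖v‖ ^ 2 := by
      have h3 := ι.G_nonneg (A.H v) y
      have h4 : A.Q ι v y = ι.G (A.H v) y + (A.H v y) ^ 2 := rfl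
      linarith
    have h5 : |A.H v y| ^ 2 ≤ (Real.sqrt M * ‖v‖) ^ 2 := by
      rw [sq_abs, mul_pow, Real.sq_sqrt hM.le]
      exact h2
    exact le_of_sq_le_sq h5 (by positivity)
  set s := Real.sqrt M with hs
  have hs0 : 0 < s := Real.sqrt_pos.2 hM
  obtain ⟨l, t, hl, ht, hlt⟩ := happ (δ / (2 * s)) (by positivity)
  have hlpos : ∀ y, 0 < A.H (TAct.rv l) y := by
    intro y
    obtain ⟨γ, hγ⟩ := 𝒟.cover y
    set v := t • TAct.rv l - κ₀ with hv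
    have e1 : A.H (t • TAct.rv l) y = A.H (lin (B γ) κ₀) (γ • y) +
        A.H (lin (B γ) v) (γ • y) := by
      rw [hB, hB, ← A.H_add, hv, add_sub_cancel]
    have h1 := hδ2 _ hγ _ (lin_NN A hB hκ₀ γ)
    have h2 := hup _ hγ (lin (B γ) v)
    have h3 : ‖lin (B γ) v‖ ≤ δ / (2 * s) * ‖lin (B γ) κ₀‖ := hlt γ
    have h5 := (abs_le.1 h2).1
    have hn : 0 < ‖lin (B γ) κ₀‖ := norm_pos_iff.2 (LRep.ne_zero γ hκ₀0)
    have h6 : s * ‖lin (B γ) v‖ ≤ δ / 2 * ‖lin (B γ) κ₀‖ := by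
      calc s * ‖lin (B γ) v‖ ≤ s * (δ / (2 * s) * ‖lin (B γ) κ₀‖) :=
            mul_le_mul_of_nonneg_left h3 hs0.le
        _ = _ := by field_simp
    have h7 : 0 < A.H (t • TAct.rv l) y := by
      rw [e1]
      have := mul_pos (half_pos hδ) hn
      have h8 : δ / 2 * ‖lin (B γ) κ₀‖ + δ / 2 * ‖lin (B γ) κ₀‖ = δ * ‖lin (B γ) κ₀‖ := by ring
      linarith
    rw [A.H_smul] at h7
    exact (mul_pos_iff_of_pos_left ht).1 h7
  obtain ⟨F⟩ := 𝒟.exists_push (A.smooth_H hβ (TAct.rv l))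
    (fun c => A.palaisSmale hc hR 𝒟 hN hno l hl c)
  obtain ⟨y⟩ := ‹Nonempty P›
  obtain ⟨T, -, hT⟩ := F.neg.push |A.H (TAct.rv l) y|
  have h2 := hT y (neg_le_neg (le_abs_self _))
  have h3 := hlpos (F.neg.Fl y T)
  have h4 := abs_nonneg (A.H (TAct.rv l) y)
  linarith

/-- **Critical points, two ends relative to the stabiliser of an integral vector.** -/
theorem exists_crit_rel_ends [T2Space P] [SigmaCompactSpace P] [PathConnectedSpace P]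
    (hc : IsContact β) {R : (x : P) → TangentSpace 𝓘(ℝ, E) x} (hR : IsReeb β R) (𝒟 : Deck ι Γ)
    (hN : A.Norm Γ)
    (hB : ∀ (γ : Γ) (κ : Fin m → ℝ) (x : P), A.H (lin (B γ) κ) (γ • x) = A.H κ x)
    (hred : ∀ W : Submodule ℝ (Fin m → ℝ), (∀ (γ : Γ), ∀ u ∈ W, lin (B γ) u ∈ W) →
      ∃ W' : Submodule ℝ (Fin m → ℝ), (∀ (γ : Γ), ∀ u ∈ W', lin (B γ) u ∈ W') ∧ IsCompl W W')
    {k : Fin m → ℤ} (hk : k ≠ 0) {C U V : Set P}
    (hE : Rel.TwoEnds (SmallRel (stab B k)) C U V) :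
    ∃ l : Fin m → ℤ, l ≠ 0 ∧ ∃ x, dForm 𝓘(ℝ, E) (A.H (TAct.rv l)) x = 0 := by
  by_contra hno'
  have hno := hno'
  push Not at hno
  obtain ⟨y₀⟩ := (inferInstance : Nonempty P)
  -- the orbit is unbounded
  have hunb : ∃ g : ℕ → Γ, Tendsto (fun i => ‖lin (B (g i)) (iv k)‖) atTop atTop := by
    have key : ∀ i : ℕ, ∃ γ : Γ, (i : ℝ) ≤ ‖lin (B γ) (iv k)‖ := by
      intro i
      by_contra hcon
      push Not at hcon
      refine hno' (A.exists_crit_of_finite hc hR 𝒟 hN hk (finite_iv (i : ℝ)) fun γ =>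
        ⟨im (B γ) k, ?_, fun x => ?_⟩)
      · show ‖iv (im (B γ) k)‖ ≤ i
        rw [iv_im]
        exact (hcon γ).le
      · have h1 : (TAct.rv (im (B γ) k) : Fin m → ℝ) = lin (B γ) (TAct.rv k) := iv_im _ _
        rw [h1, hB]
    choose g hg using key
    exact ⟨g, tendsto_atTop_mono hg tendsto_natCast_atTop_atTop⟩
  have hN0 : (0 : Fin m → ℝ) ∈ NN A := by
    intro y
    have e : (0 : Fin m → ℝ) = (0:ℝ) • (0 : Fin m → ℝ) := by rw [zero_smul]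
    rw [e, A.H_smul, zero_mul]
  obtain ⟨κ₀, hκ₀, hκ₀0, hκ₀S, hdom⟩ := exists_dominating (B := B) (closed_NN A hc) hN0
    (pos_NN A hc hR 𝒟 y₀) (fun γ u hu => lin_NN A hB hu γ) hred (k := k)
    (fun g ξ hg hξ => limit_direction A hc hR 𝒟 hN hB hno hk hE hg hξ) hunb
  exact contra_of_approx A hc hR 𝒟 hN hB hno hκ₀ hκ₀0 fun δ hδ =>
    exists_approx_dom hκ₀0 hκ₀S hdom hδ

end Pool.Agent.W669.Cone
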