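import Mathlib
import Pool.Agent.W669.Cone.RelC

/-! Closed Reeb orbits for contact forms with a local torus symmetry: two ends relative to the
centraliser of a circle. -/

open scoped Topology ContDiff Manifold
open Set Metric Bundle Filter Pool.Agent.Helper186

noncomputable section

namespace Pool.Agent.W669.Cone

open Pool.Agent.H826R2.Wein

set_option linter.unusedSectionVars false

section

variable {E : Type*} [NormedAddCommGroup E] [NormedSpace ℝ E] [FiniteDimensional ℝ E]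
  {P : Type*} [TopologicalSpace P] [ChartedSpace E P] [IsManifold 𝓘(ℝ, E) ∞ P]
  {m : ℕ} {M : Type*} [TopologicalSpace M] [ChartedSpace E M] [IsManifold 𝓘(ℝ, E) ∞ M]

/-- **Closed orbits, two ends relative to the stabiliser of an integral vector.** -/
theorem exists_closed_orbit_rel [T2Space M] [CompactSpace M]
    {α : (x : M) → TangentSpace 𝓘(ℝ, E) x →L[ℝ] ℝ} (hα : IsContact α)
    {R : (x : M) → TangentSpace 𝓘(ℝ, E) x} (hR : IsReeb α R)
    [T2Space P] [SigmaCompactSpace P] [ConnectedSpace P]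
    {Γ : Type*} [Group Γ] [MulAction Γ P] {q : P → M} (hq : RegCover (E := E) q Γ)
    (A : TAct (pullForm 𝓘(ℝ, E) 𝓘(ℝ, E) q α) m)
    (hA : ∀ γ : Γ, ∃ B : Matrix (Fin m) (Fin m) ℤ, ∀ (θ : Fin m → ℝ) (x : P),
      γ • A.act θ x = A.act ((B.map (Int.cast : ℤ → ℝ)).mulVec θ) (γ • x))
    (hred : ∀ W : Submodule ℝ (Fin m → ℝ),
      (∀ (γ : Γ) (B : Matrix (Fin m) (Fin m) ℤ), (∀ (θ : Fin m → ℝ) (x : P),
        γ • A.act θ x = A.act ((B.map (Int.cast : ℤ → ℝ)).mulVec θ) (γ • x)) →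
        ∀ u ∈ W, (B.map (Int.cast : ℤ → ℝ)).mulVec u ∈ W) →
      ∃ W' : Submodule ℝ (Fin m → ℝ),
        (∀ (γ : Γ) (B : Matrix (Fin m) (Fin m) ℤ), (∀ (θ : Fin m → ℝ) (x : P),
        γ • A.act θ x = A.act ((B.map (Int.cast : ℤ → ℝ)).mulVec θ) (γ • x)) →
        ∀ u ∈ W', (B.map (Int.cast : ℤ → ℝ)).mulVec u ∈ W') ∧ IsCompl W W')
    {k : Fin m → ℤ} (hk : k ≠ 0) {C U V : Set P}
    (hE : Rel.TwoEnds (fun S : Set P => ∃ S₀ : Set P, IsCompact S₀ ∧ ∀ x ∈ S, ∃ γ : Γ,
      (∀ (s : ℝ) (y : P), γ • A.act (s • iv k) y = A.act (s • iv k) (γ • y)) ∧ γ • x ∈ S₀) C U V) :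
    ∃ (c : ℝ → M) (T : ℝ), 0 < T ∧ IsMIntegralCurve (I := 𝓘(ℝ, E)) c R ∧
      ∀ t, c (t + T) = c t := by
  have : LocallyPathConnectedSpace P := ChartedSpace.locallyPathConnectedSpace E P
  have : PathConnectedSpace P := pathConnectedSpace_iff_connectedSpace.2 inferInstance
  obtain ⟨N, ι, ⟨𝒟⟩⟩ := hq.exists_deck
  have hN : A.Norm Γ := ⟨hq.strict α, hA⟩
  have hcP := hq.isContact_pull hα
  have hRP := hq.isReeb_lift hα hR
  apply hq.closed_proj
  obtain ⟨B, hB⟩ := A.exists_monodromy hcP hRP 𝒟 hN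
  have hB' : ∀ (γ : Γ) (κ : Fin m → ℝ) (x : P), A.H (lin (B γ) κ) (γ • x) = A.H κ x := hB
  -- uniqueness of the matrix
  have huniq : ∀ (γ : Γ) (C : Matrix (Fin m) (Fin m) ℤ), (∀ (θ : Fin m → ℝ) (x : P),
      γ • A.act θ x = A.act ((C.map (Int.cast : ℤ → ℝ)).mulVec θ) (γ • x)) →
      ∀ κ, lin C κ = lin (B γ) κ := by
    intro γ C hC κ
    have hC' : ∀ (κ : Fin m → ℝ) (x : P), A.H (lin C κ) (γ • x) = A.H κ x := by
      intro κ x
      refine A.H_push (𝒟.smooth γ) ?_ (hN.strict γ) x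
      intro t y
      unfold TAct.fam
      show γ • A.act (t • κ) y = A.act (t • lin C κ) (γ • y)
      rw [hC, Matrix.mulVec_smul]
      rfl
    rw [← sub_eq_zero]
    apply A.H_inj ι hcP hRP
    intro y
    rw [A.H_sub]
    have h1 := hC' κ (γ⁻¹ • y)
    have h2 := hB' γ κ (γ⁻¹ • y)
    rw [smul_inv_smul] at h1 h2
    rw [h1, h2, sub_self]
  have hact : ∀ (γ : Γ) (θ : Fin m → ℝ) (x : P),
      γ • A.act θ x = A.act (lin (B γ) θ) (γ • x) := by
    intro γ θ x
    obtain ⟨C, hC⟩ := hA γ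
    rw [hC, ← huniq γ C hC θ]
    rfl
  have hinv : ∀ W : Submodule ℝ (Fin m → ℝ), (∀ (γ : Γ), ∀ u ∈ W, lin (B γ) u ∈ W) ↔
      (∀ (γ : Γ) (B : Matrix (Fin m) (Fin m) ℤ), (∀ (θ : Fin m → ℝ) (x : P),
        γ • A.act θ x = A.act ((B.map (Int.cast : ℤ → ℝ)).mulVec θ) (γ • x)) →
        ∀ u ∈ W, (B.map (Int.cast : ℤ → ℝ)).mulVec u ∈ W) := by
    intro W
    constructor
    · intro h γ C hC u hu
      have h1 := h γ u hu
      rw [← huniq γ C hC u] at h1
      exact h1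
    · intro h γ u hu
      exact h γ (B γ) (hact γ) u hu
  have hstab : ∀ γ : Γ, (∀ (s : ℝ) (y : P), γ • A.act (s • iv k) y = A.act (s • iv k) (γ • y)) ↔
      γ ∈ stab B k := by
    intro γ
    rw [mem_stab]
    constructor
    · intro h
      rw [← sub_eq_zero]
      apply A.H_inj ι hcP hRP
      intro y
      rw [A.H_sub]
      have h1 : A.H (iv k) (γ • (γ⁻¹ • y)) = A.H (iv k) (γ⁻¹ • y) := by
        refine A.H_push (𝒟.smooth γ) ?_ (hN.strict γ) (γ⁻¹ • y)
        intro t z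
        exact h t z
      have h2 := hB' γ (iv k) (γ⁻¹ • y)
      rw [smul_inv_smul] at h1 h2
      rw [h1, h2, sub_self]
    · intro h s y
      rw [hact, map_smul, h]
  have hsm : (fun S : Set P => ∃ S₀ : Set P, IsCompact S₀ ∧ ∀ x ∈ S, ∃ γ : Γ,
      (∀ (s : ℝ) (y : P), γ • A.act (s • iv k) y = A.act (s • iv k) (γ • y)) ∧ γ • x ∈ S₀) =
      SmallRel (stab B k) := by
    funext S
    apply propext
    unfold SmallRel
    simp only [hstab]
  rw [hsm] at hE
  obtain ⟨l, hl, y, hy⟩ := exists_crit_rel_ends A hcP hRP 𝒟 hN hB' (fun W hW => by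
    obtain ⟨W', h1, h2⟩ := hred W ((hinv W).1 hW)
    exact ⟨W', (hinv W').2 h1, h2⟩) hk hE
  exact A.closed_of_crit hcP hRP hl hy

end

end Pool.Agent.W669.Cone

namespace Pool.Agent.W669.RelStmt

open Pool.Agent.H826R2.WStmt

set_option linter.unusedSectionVars false

universe u

variable {E : Type u} [NormedAddCommGroup E] [NormedSpace ℝ E] [FiniteDimensional ℝ E]
  {M : Type*} [TopologicalSpace M] [ChartedSpace E M] [IsManifold 𝓘(ℝ, E) ∞ M]
  {P : Type*} [TopologicalSpace P] [ChartedSpace E P] [IsManifold 𝓘(ℝ, E) ∞ P]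

section

variable {Γ : Type*} [Group Γ] [MulAction Γ P] {m : ℕ}

/-- The integer matrix `B` describes the action of `γ` on the torus: `γ (θ x) = (B θ) (γ x)`. -/
def MonodromyMatrix (act : (Fin m → ℝ) → P → P) (γ : Γ) (B : Matrix (Fin m) (Fin m) ℤ) : Prop :=
  ∀ (θ : Fin m → ℝ) (x : P), γ • act θ x = act (fun i => ∑ j, (B i j : ℝ) * θ j) (γ • x)

/-- The subspace `W` of `ℝ^m` is invariant under the monodromy. -/
def InvariantSubspace (Γ : Type*) [Group Γ] [MulAction Γ P] (act : (Fin m → ℝ) → P → P)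
    (W : Submodule ℝ (Fin m → ℝ)) : Prop :=
  ∀ (γ : Γ) (B : Matrix (Fin m) (Fin m) ℤ), MonodromyMatrix act γ B →
    ∀ u ∈ W, (fun i => ∑ j, (B i j : ℝ) * u j) ∈ W

/-- The monodromy representation on `ℝ^m` is completely reducible: each invariant subspace has an
invariant complement. -/
def CompletelyReducible (Γ : Type*) [Group Γ] [MulAction Γ P] (act : (Fin m → ℝ) → P → P) : Prop :=
  ∀ W : Submodule ℝ (Fin m → ℝ), InvariantSubspace Γ act W →
    ∃ W' : Submodule ℝ (Fin m → ℝ), InvariantSubspace Γ act W' ∧ IsCompl W W'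

/-- The elements of `Γ` which commute with the circle action `t ↦ act (t k)`. -/
def Centraliser (Γ : Type*) [Group Γ] [MulAction Γ P] (act : (Fin m → ℝ) → P → P)
    (k : Fin m → ℤ) : Set Γ :=
  {γ | ∀ (t : ℝ) (x : P), γ • act (fun i => t * (k i : ℝ)) x = act (fun i => t * (k i : ℝ)) (γ • x)}

/-- The set `S` is compact up to the elements of `G`: translates of its points by elements of `G`
lie in one compact set. -/
def CompactUpTo (G : Set Γ) (S : Set P) : Prop :=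
  ∃ S₀ : Set P, IsCompact S₀ ∧ ∀ x ∈ S, ∃ γ ∈ G, γ • x ∈ S₀

/-- `P` has at least two ends relative to `G`: the complement of some set which is compact up to `G`
is the union of two disjoint open sets none of which is compact up to `G`. -/
def TwoEndsRel (G : Set Γ) (P : Type*) [TopologicalSpace P] [MulAction Γ P] : Prop :=
  ∃ C U V : Set P, CompactUpTo G C ∧ IsOpen U ∧ IsOpen V ∧ Disjoint U V ∧ U ∪ V = Cᶜ ∧
    ¬ CompactUpTo G U ∧ ¬ CompactUpTo G V

end

theorem exists_periodic_rel [T2Space M] [CompactSpace M]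
    (α : M → Cov E) (hα : IsContact α) (R : M → E) (hR : IsReeb α R)
    [T2Space P] [SigmaCompactSpace P] [ConnectedSpace P]
    {Γ : Type*} [Group Γ] [MulAction Γ P] (q : P → M) (hq : IsQuotientMap E q Γ)
    {m : ℕ} (A : TorusAction (pull (E := E) q α) m) (hA : Normalises Γ A.act)
    (hred : CompletelyReducible Γ A.act) {k : Fin m → ℤ} (hk : k ≠ 0)
    (hE : TwoEndsRel (Centraliser Γ A.act k) P) :
    ∃ (c : ℝ → M) (T : ℝ), IsPeriodicOrbit R c T := by
  obtain ⟨C, U, V, h1, h2, h3, h4, h5, h6, h7⟩ := hE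
  have hsub : ∀ S K : Set P, CompactUpTo (Centraliser Γ A.act k) K → S ⊆ K →
      CompactUpTo (Centraliser Γ A.act k) S := by
    rintro S K ⟨S₀, hS₀, h⟩ hSK
    exact ⟨S₀, hS₀, fun x hx => h x (hSK hx)⟩
  obtain ⟨c, T, e1, e2, e3⟩ := Pool.Agent.W669.Cone.exists_closed_orbit_rel hα.toWein hR.toWein
    hq.toWein A.toWein hA hred hk (C := C) (U := U) (V := V)
    ⟨h1, h2, h3, h4, h5, fun K hK hUK => h6 (hsub U K hK hUK), fun K hK hVK => h7 (hsub V K hK hVK)⟩
  exact ⟨c, T, e1, e2, e3⟩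

end Pool.Agent.W669.RelStmt
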